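import Mathlib

/-!
The combinatorial inequality for patterns.
-/

set_option autoImplicit false

namespace Pool.Agent.Y314.FD

/-- number of elements below `i` -/
def cnt (P : Finset ℕ) (i : ℕ) : ℕ := (P.filter (· < i)).card

lemma cnt_succ (P : Finset ℕ) (n : ℕ) : cnt P (n + 1) = cnt P n + if n ∈ P then 1 else 0 := by
  unfold cnt
  split_ifs with h
  · have : P.filter (· < n + 1) = insert n (P.filter (· < n)) := by
      ext j
      rw [Finset.mem_insert, Finset.mem_filter, Finset.mem_filter]
      constructor
      · rintro ⟨h1, h2⟩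
        rcases Nat.lt_succ_iff_lt_or_eq.1 h2 with h3 | h3
        · right; exact ⟨h1, h3⟩
        · left; exact h3
      · rintro (h1 | ⟨h1, h2⟩)
        · rw [h1]; exact ⟨h, Nat.lt_succ_self n⟩
        · exact ⟨h1, by omega⟩
    rw [this, Finset.card_insert_of_notMem]
    rw [Finset.mem_filter]
    rintro ⟨-, h2⟩
    exact lt_irrefl _ h2
  · have : P.filter (· < n + 1) = P.filter (· < n) := by
      ext j
      rw [Finset.mem_filter, Finset.mem_filter]
      constructor
      · rintro ⟨h1, h2⟩
        rcases Nat.lt_succ_iff_lt_or_eq.1 h2 with h3 | h3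
        · exact ⟨h1, h3⟩
        · rw [h3] at h1; exact absurd h1 h
      · rintro ⟨h1, h2⟩
        exact ⟨h1, by omega⟩
    rw [this, add_zero]

lemma cnt_mono (P : Finset ℕ) {i j : ℕ} (h : i ≤ j) : cnt P i ≤ cnt P j := by
  unfold cnt
  refine Finset.card_le_card fun a ha => ?_
  rw [Finset.mem_filter] at ha ⊢
  exact ⟨ha.1, by omega⟩

lemma cnt_zero (P : Finset ℕ) : cnt P 0 = 0 := by
  unfold cnt
  rw [Finset.card_eq_zero, Finset.filter_eq_empty_iff]
  intro j _
  omega

lemma pos_step (y : ℝ) : max y 0 ≤ (max (y + 1) 0 ^ 2 - max y 0 ^ 2) / 2 := by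
  rcases le_total 0 y with h | h
  · rw [max_eq_left h, max_eq_left (by linarith)]
    nlinarith
  · rw [max_eq_right h]
    have : 0 ≤ max (y + 1) 0 ^ 2 := sq_nonneg _
    linarith

/-- **The combinatorial inequality.** -/
theorem comb_ineq (P : Finset ℕ) {t : ℝ} (ht : 0 ≤ t) (n : ℕ) :
    n * t - (t + 1) ^ 2 / 2 ≤
      ∑ j ∈ Finset.range n, (if j ∈ P then (n : ℝ) - 1 - j else max (t - cnt P j) 0) := by
  have key : n * t - ((t + 1) ^ 2 - max (t + 1 - cnt P n) 0 ^ 2) / 2 ≤
      ∑ j ∈ Finset.range n, (if j ∈ P then (n : ℝ) - 1 - j else max (t - cnt P j) 0) := by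
    induction n with
    | zero =>
      rw [cnt_zero]
      simp only [Nat.cast_zero, sub_zero, Finset.range_zero, Finset.sum_empty, zero_mul]
      rw [max_eq_left (by linarith : (0 : ℝ) ≤ t + 1)]
      linarith
    | succ n ih =>
      rw [Finset.sum_range_succ]
      have h1 : ∑ j ∈ Finset.range n, (if j ∈ P then ((n + 1 : ℕ) : ℝ) - 1 - j
            else max (t - cnt P j) 0) =
          ∑ j ∈ Finset.range n, (if j ∈ P then (n : ℝ) - 1 - j else max (t - cnt P j) 0) +
            cnt P n := by
        have h2 : (cnt P n : ℝ) = ∑ j ∈ Finset.range n, (if j ∈ P then (1 : ℝ) else 0) := by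
          rw [Finset.sum_boole]
          unfold cnt
          congr 2
          ext j
          rw [Finset.mem_filter, Finset.mem_filter, Finset.mem_range]
          tauto
        rw [h2, ← Finset.sum_add_distrib]
        refine Finset.sum_congr rfl fun j _ => ?_
        split_ifs
        · push_cast; ring
        · ring
      rw [h1, cnt_succ]
      by_cases hn : n ∈ P
      · simp only [hn, if_true]
        push_cast
        have h3 := pos_step (t - cnt P n)
        have h4 : t ≤ cnt P n + max (t - cnt P n) 0 := by
          have := le_max_left (t - (cnt P n : ℝ)) 0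
          linarith
        have e1 : t - cnt P n + 1 = t + 1 - cnt P n := by ring
        have e2 : t + 1 - ((cnt P n : ℝ) + 1) = t - cnt P n := by ring
        rw [e1] at h3
        rw [e2]
        linarith
      · simp only [hn, if_false]
        push_cast
        have h4 : t ≤ cnt P n + max (t - cnt P n) 0 := by
          have := le_max_left (t - (cnt P n : ℝ)) 0
          linarith
        rw [add_zero]
        linarith
  refine le_trans ?_ key
  have : 0 ≤ max (t + 1 - (cnt P n : ℝ)) 0 ^ 2 := sq_nonneg _
  linarith

/-- splitting a range into blocks -/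
lemma sum_blocks (f : ℕ → ℝ) (v n : ℕ) :
    ∑ j ∈ Finset.range (n * v), f j = ∑ k ∈ Finset.range n, ∑ i ∈ Finset.range v, f (k * v + i) := by
  induction n with
  | zero => simp
  | succ n ih =>
    rw [Finset.sum_range_succ, ← ih, Nat.succ_mul, Finset.sum_range_add]

/-- the contribution of the complement of the pattern, macro column by macro column -/
lemma macro_sum (P : Finset ℕ) {t : ℝ} (v n : ℕ) :
    ∑ j ∈ Finset.range (n * v), (if j ∈ P then 0 else max (t - cnt P j) 0) ≤
      ∑ k ∈ Finset.range n, (((Finset.range v).filter fun i => k * v + i ∉ P).card : ℝ) *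
        max (t - cnt P (k * v)) 0 := by
  rw [sum_blocks]
  refine Finset.sum_le_sum fun k _ => ?_
  rw [Finset.card_filter]
  push_cast
  rw [Finset.sum_mul]
  refine Finset.sum_le_sum fun i _ => ?_
  have h1 : (cnt P (k * v) : ℝ) ≤ cnt P (k * v + i) := by
    exact_mod_cast cnt_mono P (Nat.le_add_right _ _)
  by_cases h : k * v + i ∈ P
  · simp [h]
  · simp only [h, if_false, not_false_eq_true, if_true, one_mul]
    exact max_le_max (by linarith) le_rfl

end Pool.Agent.Y314.FD
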