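import Pool.Agent.Y314.FD.Pat
import Pool.Agent.Y314.FD.Comb

/-!
Lower bound for the number of visits of a non-exceptional grid point.
-/

set_option autoImplicit false

open Filter Topology Set

namespace Pool.Agent.Y314.FD

open Pool.Agent.W764.FB Pool.Agent.W764.SH Pool.Agent.W764.HL

/-- the pairs of exponents `(a, b)` with `p ^ a * q ^ b ≤ N` -/
def tri (p q N : ℕ) : Finset (ℕ × ℕ) :=
  (Finset.range (N + 1) ×ˢ Finset.range (N + 1)).filter fun u => mul p q u ≤ N

lemma mem_tri {p q N : ℕ} (hp : 2 ≤ p) (hq : 2 ≤ q) {u : ℕ × ℕ} :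
    u ∈ tri p q N ↔ mul p q u ≤ N := by
  unfold tri
  rw [Finset.mem_filter, Finset.mem_product, Finset.mem_range, Finset.mem_range]
  refine ⟨fun h => h.2, fun h => ⟨⟨?_, ?_⟩, h⟩⟩
  · have h1 : u.1 < p ^ u.1 := Nat.lt_pow_self (by omega)
    have h2 : p ^ u.1 ≤ mul p q u := by
      unfold mul
      exact Nat.le_mul_of_pos_right _ (by positivity)
    omega
  · have h1 : u.2 < q ^ u.2 := Nat.lt_pow_self (by omega)
    have h2 : q ^ u.2 ≤ mul p q u := by
      unfold mul
      exact Nat.le_mul_of_pos_left _ (by positivity)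
    omega

lemma mem_tri_log {p q n : ℕ} (hp : 2 ≤ p) (hq : 2 ≤ q) {u : ℕ × ℕ} :
    u ∈ tri p q (p ^ n) ↔ u.1 * Real.log p + u.2 * Real.log q ≤ n * Real.log p := by
  rw [mem_tri hp hq, ← mul_log hp hq u]
  have hp0 : (0 : ℝ) < (p : ℝ) ^ n := by
    have : 0 < p ^ n := by positivity
    exact_mod_cast this
  rw [← Real.log_pow, Real.log_le_log_iff (mul_pos' hp hq u) hp0]
  exact_mod_cast Iff.rfl

/-- translate of a window along the first exponent -/
def shw (i : ℕ) (U : Finset (ℕ × ℕ)) : Finset (ℕ × ℕ) := U.image fun u => (u.1 + i, u.2)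

lemma hit_shw {p q : ℕ} (i : ℕ) (U : Finset (ℕ × ℕ)) (x c : T) (r : ℝ) :
    hit p q (shw i U) x c r = hit p q U (p ^ i • x) c r := by
  classical
  unfold hit shw
  rw [Finset.filter_image, Finset.card_image_of_injOn]
  · congr 1
    refine Finset.filter_congr fun u _ => ?_
    have : mul p q (u.1 + i, u.2) • x = mul p q u • (p ^ i • x) := by
      unfold mul
      rw [← mul_smul]
      congr 1
      simp only
      ring
    rw [this]
  · rintro ⟨a, b⟩ _ ⟨a', b'⟩ _ h
    simp only [Prod.mk.injEq] at h ⊢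
    exact ⟨by omega, h.2⟩

lemma sum_hit_le {p q : ℕ} {ι : Type} (I : Finset ι) (U : ι → Finset (ℕ × ℕ))
    {V : Finset (ℕ × ℕ)} (hsub : ∀ i ∈ I, U i ⊆ V)
    (hd : ∀ i ∈ I, ∀ j ∈ I, i ≠ j → Disjoint (U i) (U j)) (x c : T) (r : ℝ) :
    ∑ i ∈ I, hit p q (U i) x c r ≤ hit p q V x c r := by
  classical
  unfold hit
  rw [← Finset.card_biUnion]
  · refine Finset.card_le_card fun u hu => ?_
    rw [Finset.mem_biUnion] at hu
    obtain ⟨i, hi, hu⟩ := hu
    rw [Finset.mem_filter] at hu ⊢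
    exact ⟨hsub i hi hu.1, hu.2⟩
  · intro i hi j hj hij
    exact Finset.disjoint_filter_filter (hd i hi j hj hij)

section
variable {p q : ℕ} (hp : 2 ≤ p) (hq : 2 ≤ q)
include hp hq

lemma box_sub {h J j : ℕ} (hj : j + 1 ≤ J) :
    shw (j * h) (box h (rows p q h J j)) ⊆ tri p q (p ^ (J * h)) := by
  obtain ⟨hlp, hlq⟩ := log_pos' hp hq
  intro u hu
  unfold shw at hu
  obtain ⟨⟨a, b⟩, hab, rfl⟩ := Finset.mem_image.1 hu
  unfold box at hab
  rw [Finset.mem_product, Finset.mem_range, Finset.mem_range] at hab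
  obtain ⟨ha, hb⟩ := hab
  simp only at ha hb
  rw [mem_tri_log hp hq]
  have h1 : (b : ℝ) ≤ ((J - (j + 1) : ℕ) : ℝ) * h * Real.log p / Real.log q := by
    have h2 : (b : ℝ) ≤ rows p q h J j := by exact_mod_cast hb.le
    unfold rows at h2
    exact h2.trans (Nat.floor_le (by positivity))
  rw [le_div_iff₀ hlq] at h1
  have h2 : (a + j * h) + (J - (j + 1)) * h ≤ J * h := by
    have h3 : (j + 1) * h + (J - (j + 1)) * h = J * h := by
      rw [← Nat.add_mul]; congr 1; omega
    have h4 : (j + 1) * h = j * h + h := by ring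
    omega
  have h3 : (((a + j * h) + (J - (j + 1)) * h : ℕ) : ℝ) ≤ ((J * h : ℕ) : ℝ) := by
    exact_mod_cast h2
  have h4 := mul_le_mul_of_nonneg_right h3 hlp.le
  push_cast at h4 ⊢
  have e : ((a : ℝ) + j * h + ((J - (j + 1) : ℕ) : ℝ) * h) * Real.log p =
      ((a : ℝ) + j * h) * Real.log p + ((J - (j + 1) : ℕ) : ℝ) * h * Real.log p := by ring
  linarith

lemma strip_sub {P : Finset ℕ} {h v J k0 l : ℕ} (hl : l < J - k0 * v) :
    shw (k0 * v * h) (sw p q P h v k0 l) ⊆ tri p q (p ^ (J * h)) := by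
  obtain ⟨hlp, hlq⟩ := log_pos' hp hq
  intro u hu
  unfold shw at hu
  obtain ⟨⟨a, b⟩, hab, rfl⟩ := Finset.mem_image.1 hu
  unfold sw at hab
  rw [mem_slw hlp hlq] at hab
  obtain ⟨-, -, h1⟩ := hab
  simp only at h1
  rw [mem_tri_log hp hq]
  have h2 : (l + 1) * h + k0 * v * h ≤ J * h := by
    rw [← Nat.add_mul]; exact Nat.mul_le_mul_right _ (by omega)
  have h3 : (((l + 1) * h + k0 * v * h : ℕ) : ℝ) ≤ ((J * h : ℕ) : ℝ) := by exact_mod_cast h2
  have h4 := mul_le_mul_of_nonneg_right h3 hlp.le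
  push_cast at h4 ⊢
  nlinarith

omit hp hq in
lemma box_block {h L j : ℕ} {u : ℕ × ℕ} (hh : 1 ≤ h) (hu : u ∈ shw (j * h) (box h L)) :
    u.1 / h = j := by
  unfold shw at hu
  obtain ⟨⟨a, b⟩, hab, rfl⟩ := Finset.mem_image.1 hu
  unfold box at hab
  rw [Finset.mem_product, Finset.mem_range, Finset.mem_range] at hab
  simp only
  rw [Nat.div_eq_iff (by omega : 0 < h)]
  have := hab.1
  simp only at this
  constructor <;> omega

lemma strip_block {P : Finset ℕ} {h v k0 l : ℕ} {u : ℕ × ℕ} (hh : 1 ≤ h)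
    (hu : u ∈ shw (k0 * v * h) (sw p q P h v k0 l)) :
    u.1 / h ∉ P ∧ u.1 / h / v = k0 ∧
      (l : ℝ) * (h * Real.log p) ≤ ((u.1 : ℝ) - k0 * v * h) * Real.log p + u.2 * Real.log q ∧
      ((u.1 : ℝ) - k0 * v * h) * Real.log p + u.2 * Real.log q < ((l : ℝ) + 1) * (h * Real.log p) := by
  obtain ⟨hlp, hlq⟩ := log_pos' hp hq
  unfold shw at hu
  obtain ⟨⟨a, b⟩, hab, rfl⟩ := Finset.mem_image.1 hu
  unfold sw at hab
  rw [mem_slw hlp hlq] at hab
  obtain ⟨h1, h2, h3⟩ := hab
  simp only at h1 h2 h3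
  unfold ac bc at h1
  rw [Finset.mem_filter, Finset.mem_filter, Finset.mem_range, Finset.mem_range] at h1
  obtain ⟨-, h4, h5⟩ := h1
  have h6 : (a + k0 * v * h) / h = k0 * v + a / h := by
    rw [Nat.add_mul_div_right _ _ (by omega : 0 < h), add_comm]
  simp only
  rw [h6]
  refine ⟨h5, ?_, ?_, ?_⟩
  · have hv0 : 0 < v := lt_of_le_of_lt (Nat.zero_le _) h4
    rw [Nat.mul_comm k0 v, Nat.mul_add_div hv0, Nat.div_eq_of_lt h4, add_zero]
  · push_cast
    have e : ((a : ℝ) + k0 * v * h - k0 * v * h) = a := by ring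
    rw [e]; exact h2
  · push_cast
    have e : ((a : ℝ) + k0 * v * h - k0 * v * h) = a := by ring
    rw [e]
    have e2 : ((l : ℝ) + 1) * (h * Real.log p) = l * (h * Real.log p) + h * Real.log p := by ring
    rw [e2]; exact h3

open Classical in
/-- the visits along the good blocks and the good strips -/
lemma hits_ge {ε : ℝ} {h v M k : ℕ} (hh : 1 ≤ h) (K : Finset ℕ) {c : T} {r : ℝ} (hr : r ≤ 1 / 2) :
    (2 * r - ε) * (∑ j ∈ gb p q ε h (M * v) ((M - 1) * v) k, (h * rows p q h (M * v) j : ℝ) +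
      ∑ k0 ∈ K, ∑ l ∈ gs p q ε (gb p q ε h (M * v) ((M - 1) * v) k) h v (M * v) k0 k,
        ((sw p q (gb p q ε h (M * v) ((M - 1) * v) k) h v k0 l).card : ℝ)) ≤
      hit p q (tri p q (p ^ (M * v * h))) (gp p (M * v * h) k) c r := by
  obtain ⟨hlp, hlq⟩ := log_pos' hp hq
  set J := M * v with hJ
  set P := gb p q ε h J ((M - 1) * v) k with hP
  set x := gp p (J * h) k with hx
  set I : Finset (ℕ ⊕ (Σ _ : ℕ, ℕ)) := P.disjSum (K.sigma fun k0 => gs p q ε P h v J k0 k) with hI
  set U : (ℕ ⊕ (Σ _ : ℕ, ℕ)) → Finset (ℕ × ℕ) := Sum.elim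
    (fun j => shw (j * h) (box h (rows p q h J j)))
    (fun w => shw (w.1 * v * h) (sw p q P h v w.1 w.2)) with hU
  have hPlt : ∀ j ∈ P, j < (M - 1) * v := by
    intro j hj
    rw [hP] at hj
    unfold gb at hj
    exact Finset.mem_range.1 (Finset.mem_filter.1 hj).1
  have hsub : ∀ i ∈ I, U i ⊆ tri p q (p ^ (J * h)) := by
    rintro (j | ⟨k0, l⟩) hi
    · rw [hI, Finset.inl_mem_disjSum] at hi
      have h1 := hPlt j hi
      have h2 : (M - 1) * v ≤ M * v := Nat.mul_le_mul_right _ (Nat.sub_le _ _)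
      exact box_sub hp hq (by omega)
    · rw [hI, Finset.inr_mem_disjSum, Finset.mem_sigma] at hi
      obtain ⟨h1, h2⟩ := hi
      simp only at h1 h2
      unfold gs at h2
      rw [Finset.mem_filter, Finset.mem_Ico] at h2
      exact strip_sub hp hq h2.1.2
  have hdisj : ∀ i ∈ I, ∀ j ∈ I, i ≠ j → Disjoint (U i) (U j) := by
    rintro (j | ⟨k0, l⟩) hi (j' | ⟨k0', l'⟩) hi' hne
    · rw [Finset.disjoint_left]
      intro u hu hu'
      have h1 := box_block hh hu
      have h2 := box_block hh hu'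
      exact hne (by rw [← h1, ← h2])
    · rw [Finset.disjoint_left]
      intro u hu hu'
      have h1 := box_block hh hu
      have h2 := (strip_block hp hq hh hu').1
      rw [h1] at h2
      rw [hI, Finset.inl_mem_disjSum] at hi
      exact h2 hi
    · rw [Finset.disjoint_left]
      intro u hu hu'
      have h1 := box_block hh hu'
      have h2 := (strip_block hp hq hh hu).1
      rw [h1] at h2
      rw [hI, Finset.inl_mem_disjSum] at hi'
      exact h2 hi'
    · rw [Finset.disjoint_left]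
      intro u hu hu'
      obtain ⟨-, h1, h2, h3⟩ := strip_block hp hq hh hu
      obtain ⟨-, h1', h2', h3'⟩ := strip_block hp hq hh hu'
      have h4 : k0 = k0' := h1.symm.trans h1'
      subst h4
      have hhR : (0 : ℝ) < h := by exact_mod_cast hh
      have hΛ : 0 < (h : ℝ) * Real.log p := by positivity
      have h5 : (l : ℝ) < l' + 1 := lt_of_mul_lt_mul_right (h2.trans_lt h3') hΛ.le
      have h6 : (l' : ℝ) < l + 1 := lt_of_mul_lt_mul_right (h2'.trans_lt h3) hΛ.le
      have h7 : l < l' + 1 := by exact_mod_cast h5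
      have h8 : l' < l + 1 := by exact_mod_cast h6
      have h9 : l = l' := by omega
      exact hne (by rw [h9])
  have h1 := sum_hit_le (p := p) (q := q) I U hsub hdisj x c r
  have h2 : (∑ i ∈ I, (hit p q (U i) x c r : ℝ)) ≤
      hit p q (tri p q (p ^ (J * h))) x c r := by exact_mod_cast h1
  refine le_trans ?_ h2
  rw [hI, Finset.sum_disjSum, Finset.sum_sigma, mul_add, Finset.mul_sum, Finset.mul_sum]
  refine add_le_add (Finset.sum_le_sum fun j hj => ?_) (Finset.sum_le_sum fun k0 hk0 => ?_)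
  · simp only [hU, Sum.elim_inl]
    rw [hit_shw]
    have h3 : Good p q ε (box h (rows p q h J j)) (p ^ (j * h) • x) := by
      rw [hP] at hj
      unfold gb at hj
      exact (Finset.mem_filter.1 hj).2
    have h4 := h3 c r hr
    rw [card_box] at h4
    push_cast at h4
    exact h4
  · rw [Finset.mul_sum]
    refine Finset.sum_le_sum fun l hl => ?_
    simp only [hU, Sum.elim_inr]
    rw [hit_shw]
    unfold gs at hl
    exact (Finset.mem_filter.1 hl).2 c r hr

end

end Pool.Agent.Y314.FD
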