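import Pool.Agent.W764.HL.Cluster

/-!
Windows of pairs of exponents and the cluster lemma for general windows: among `m` points whose
differences are well distributed along a nearly invariant window, at least one is nearly
Lebesgue distributed along the window.
-/

set_option autoImplicit false

open MeasureTheory Filter Topology Set
open scoped ENNReal BoundedContinuousFunction

namespace Pool.Agent.Y314.FD

open Pool.Agent.W764.FB Pool.Agent.W764.SH Pool.Agent.W764.HL

/-- the multiplier `p ^ a * q ^ b` of a pair of exponents `u = (a, b)` -/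
def mul (p q : ℕ) (u : ℕ × ℕ) : ℕ := p ^ u.1 * q ^ u.2

open Classical in
/-- number of visits to the closed ball of centre `c` and radius `r` along the window `U` -/
noncomputable def hit (p q : ℕ) (U : Finset (ℕ × ℕ)) (x c : T) (r : ℝ) : ℕ :=
  (U.filter fun u => ‖mul p q u • x - c‖ ≤ r).card

/-- the point `x` is nearly Lebesgue distributed along the window `U` -/
def Good (p q : ℕ) (ε : ℝ) (U : Finset (ℕ × ℕ)) (x : T) : Prop :=
  ∀ c : T, ∀ r : ℝ, r ≤ 1 / 2 → (2 * r - ε) * U.card ≤ hit p q U x c r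

lemma hit_le (p q : ℕ) (U : Finset (ℕ × ℕ)) (x c : T) (r : ℝ) : hit p q U x c r ≤ U.card := by
  unfold hit; exact Finset.card_filter_le _ _

lemma hit_mono {p q : ℕ} {U V : Finset (ℕ × ℕ)} (h : U ⊆ V) (x c : T) (r : ℝ) :
    hit p q U x c r ≤ hit p q V x c r := by
  unfold hit
  exact Finset.card_le_card (Finset.filter_subset_filter _ h)

lemma hit_union {p q : ℕ} {U V : Finset (ℕ × ℕ)} (h : Disjoint U V) (x c : T) (r : ℝ) :
    hit p q (U ∪ V) x c r = hit p q U x c r + hit p q V x c r := by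
  classical
  unfold hit
  rw [Finset.filter_union, Finset.card_union_of_disjoint]
  exact Finset.disjoint_filter_filter h

/-- the uniform distribution on the points `n x`, `n ∈ U` -/
noncomputable def empw (p q : ℕ) {m : ℕ} (U : Finset (ℕ × ℕ)) (x : Fin m → T) :
    Measure (Fin m → T) :=
  (U.card : ℝ≥0∞)⁻¹ • ∑ u ∈ U, Measure.dirac (mul p q u • x)

lemma empw_prob {p q m : ℕ} {U : Finset (ℕ × ℕ)} (hU : U.Nonempty) (x : Fin m → T) :
    IsProbabilityMeasure (empw p q U x) := by
  refine ⟨?_⟩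
  unfold empw
  rw [Measure.smul_apply, Measure.finsetSum_apply, smul_eq_mul]
  simp only [measure_univ, Finset.sum_const, nsmul_eq_mul, mul_one]
  exact ENNReal.inv_mul_cancel (by exact_mod_cast hU.card_pos.ne') (ENNReal.natCast_ne_top _)

lemma empw_integral {p q m : ℕ} (U : Finset (ℕ × ℕ)) (x : Fin m → T) (f : (Fin m → T) → ℝ)
    (hf : Continuous f) :
    ∫ z, f z ∂(empw p q U x) = (U.card : ℝ)⁻¹ * ∑ u ∈ U, f (mul p q u • x) := by
  unfold empw
  rw [integral_smul_measure, integral_finset_sum_measure fun n _ =>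
    (integrable_dirac (by simp))]
  simp only [integral_dirac, smul_eq_mul, ENNReal.toReal_inv, ENNReal.toReal_natCast]

open Classical in
lemma empw_real {p q m : ℕ} (U : Finset (ℕ × ℕ)) (x : Fin m → T) {A : Set (Fin m → T)}
    (hA : MeasurableSet A) :
    (empw p q U x).real A = (U.card : ℝ)⁻¹ * ((U.filter fun u => mul p q u • x ∈ A).card : ℝ) := by
  rw [measureReal_def]
  unfold empw
  rw [Measure.smul_apply, Measure.finsetSum_apply, smul_eq_mul, ENNReal.toReal_mul,
    ENNReal.toReal_inv, ENNReal.toReal_natCast]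
  congr 1
  rw [ENNReal.toReal_sum fun n _ => measure_ne_top _ _, Finset.card_filter]
  push_cast
  refine Finset.sum_congr rfl fun u _ => ?_
  rw [Measure.dirac_apply' _ hA]
  by_cases h : mul p q u • x ∈ A <;> simp [h]

/-- sums over a window and over its translate -/
lemma sum_translate {U : Finset (ℕ × ℕ)} {e : ℕ × ℕ} (F : ℕ × ℕ → ℝ) (hF : ∀ n, |F n| ≤ 1) :
    |∑ u ∈ U, F (u + e) - ∑ u ∈ U, F u| ≤ 2 * ((U.filter fun u => u + e ∉ U).card : ℝ) := by
  classical
  set W' : Finset (ℕ × ℕ) := U.image fun u => u + e with hW'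
  have hinj : Set.InjOn (fun u : ℕ × ℕ => u + e) (U : Set (ℕ × ℕ)) := by
    intro a _ b _ hab
    exact add_right_cancel hab
  have h1 : ∑ u ∈ U, F (u + e) = ∑ u ∈ W', F u := by
    rw [hW', Finset.sum_image hinj]
  have hcard : W'.card = U.card := Finset.card_image_of_injOn hinj
  rw [h1, ← Finset.sum_sdiff_sub_sum_sdiff]
  have h2 : ∀ V : Finset (ℕ × ℕ), |∑ u ∈ V, F u| ≤ V.card := by
    intro V
    refine (Finset.abs_sum_le_sum_abs _ _).trans ?_
    refine (Finset.sum_le_card_nsmul _ _ 1 fun n _ => hF n).trans ?_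
    simp
  have h3 : (W' \ U).card = (U.filter fun u => u + e ∉ U).card := by
    have : W' \ U = (U.filter fun u => u + e ∉ U).image fun u => u + e := by
      ext n
      simp only [hW', Finset.mem_sdiff, Finset.mem_image, Finset.mem_filter]
      constructor
      · rintro ⟨⟨m, hm, rfl⟩, h⟩
        exact ⟨m, ⟨hm, h⟩, rfl⟩
      · rintro ⟨m, ⟨hm, h⟩, rfl⟩
        exact ⟨⟨m, hm, rfl⟩, h⟩
    rw [this]
    refine Finset.card_image_of_injOn fun a _ b _ hab => ?_
    exact add_right_cancel hab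
  have h4 : (U \ W').card = (W' \ U).card := Finset.card_sdiff_comm hcard.symm
  calc |∑ n ∈ W' \ U, F n - ∑ n ∈ U \ W', F n|
      ≤ |∑ n ∈ W' \ U, F n| + |∑ n ∈ U \ W', F n| := abs_sub _ _
    _ ≤ (W' \ U).card + (U \ W').card := add_le_add (h2 _) (h2 _)
    _ = _ := by rw [h4, h3]; ring

open Classical in
/-- **Clusters, general windows.** -/
theorem cluster_gen {p q : ℕ} (hp : 2 ≤ p) (hq : 2 ≤ q) (hpq : Nat.Coprime p q) {C : ℝ}
    (hC : 0 < C) {ε : ℝ} (hε : 0 < ε) : ∃ m : ℕ, 1 ≤ m ∧ ∃ N : ℕ, 8 ≤ N ∧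
      ∀ U : Finset (ℕ × ℕ), U.Nonempty →
        ((U.filter fun u => u + (1, 0) ∉ U).card : ℝ) ≤ 1 / (2 * N) * U.card →
        ((U.filter fun u => u + (0, 1) ∉ U).card : ℝ) ≤ 1 / (2 * N) * U.card →
        ∀ x : Fin m → T, (∀ i j, i ≠ j → ∀ c : T, ∀ k : ℕ, 8 ≤ k → k ≤ N →
          (hit p q U (x i - x j) c (1 / k) : ℝ) ≤ (C * (1 / k) + 1 / N) * U.card) →
        ∃ i, Good p q ε U (x i) := by
  obtain ⟨m, hm⟩ := exists_nat_gt (2 / ε)
  have hm0 : (0 : ℝ) < m := lt_trans (by positivity) hm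
  have hm1 : 1 ≤ m := by exact_mod_cast hm0
  obtain ⟨N, hN8, hN⟩ := compactness (m := m) hp hq hpq hC (half_pos hε)
  have hN0 : (0 : ℝ) < N := by
    have : 0 < N := by omega
    exact_mod_cast this
  refine ⟨m, hm1, N, hN8, fun U hU hinvp hinvq x hx => ?_⟩
  have hUR : (0 : ℝ) < U.card := by exact_mod_cast hU.card_pos
  have hprob := empw_prob (p := p) (q := q) hU x
  obtain ⟨α, hα1, hα2, hα3⟩ := hN (empw p q U x) hprob (by
    intro s hs f hf
    obtain ⟨e, he1, he2⟩ : ∃ e : ℕ × ℕ, (∀ u, mul p q (u + e) = s * mul p q u) ∧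
        ((U.filter fun u => u + e ∉ U).card : ℝ) ≤ 1 / (2 * N) * U.card := by
      rcases hs with rfl | rfl
      · refine ⟨(1, 0), fun u => ?_, hinvp⟩
        show s ^ (u.1 + 1) * q ^ (u.2 + 0) = s * (s ^ u.1 * q ^ u.2)
        ring
      · refine ⟨(0, 1), fun u => ?_, hinvq⟩
        show p ^ (u.1 + 0) * s ^ (u.2 + 1) = s * (p ^ u.1 * s ^ u.2)
        ring
    rw [empw_integral U x (fun z => f (s • z)) (f.continuous.comp (continuous_nsmul s)),
      empw_integral U x (fun z => f z) f.continuous, ← mul_sub, abs_mul,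
      abs_of_pos (inv_pos.2 hUR), inv_mul_le_iff₀ hUR]
    have h1 := sum_translate (U := U) (e := e) (fun u => f (mul p q u • x)) fun n => hf _
    have h2 : ∀ u : ℕ × ℕ, f (mul p q (u + e) • x) = f (s • mul p q u • x) := fun u => by
      rw [he1, mul_smul]
    simp_rw [h2] at h1
    refine h1.trans ?_
    calc 2 * ((U.filter fun n => n + e ∉ U).card : ℝ) ≤ 2 * (1 / (2 * N) * U.card) := by gcongr
      _ = U.card * (1 / N) := by field_simp) (by
    intro i j hij c k hk1 hk2
    have hmeas : MeasurableSet {z : Fin m → T | ‖z i - z j - c‖ ≤ 1 / (k : ℝ)} :=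
      (isClosed_le (by fun_prop) continuous_const).measurableSet
    rw [empw_real U x hmeas, inv_mul_le_iff₀ hUR]
    have h3 := hx i j hij c k hk1 hk2
    rw [mul_comm (U.card : ℝ)]
    refine le_trans (le_of_eq ?_) h3
    unfold hit
    congr 2
    refine Finset.filter_congr fun n _ => ?_
    rw [smul_sub]
    rfl)
  by_contra hcon
  push Not at hcon
  have hbad : ∀ i, ε / 2 < 1 - α i := by
    intro i
    by_contra hle
    push Not at hle
    apply hcon i
    intro c r hr
    have h1 := hα3 i c r hr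
    have hmeas : MeasurableSet {z : Fin m → T | ‖z i - c‖ ≤ r} :=
      (isClosed_le (by fun_prop) continuous_const).measurableSet
    rw [empw_real U x hmeas, ← div_eq_inv_mul, le_div_iff₀ hUR] at h1
    have h2 : (2 * r * α i - ε / 2) * U.card ≤ hit p q U (x i) c r := by
      refine h1.trans (le_of_eq ?_)
      unfold hit
      congr 2
    refine le_trans ?_ h2
    have h3 : 2 * r - ε ≤ 2 * r * α i - ε / 2 := by
      rcases le_or_gt 0 r with h0 | h0
      · nlinarith [(hα1 i).1, (hα1 i).2]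
      · nlinarith [(hα1 i).1, (hα1 i).2]
    exact mul_le_mul_of_nonneg_right h3 hUR.le
  have h1 : ∑ _i : Fin m, (ε / 2) < ∑ i, (1 - α i) :=
    Finset.sum_lt_sum_of_nonempty ⟨⟨0, by omega⟩, Finset.mem_univ _⟩ fun i _ => hbad i
  rw [Finset.sum_const, Finset.card_univ, Fintype.card_fin, nsmul_eq_mul] at h1
  have h2 : (m : ℝ) * (ε / 2) < 1 := h1.trans_le hα2
  rw [div_lt_iff₀ hε] at hm
  linarith

end Pool.Agent.Y314.FD
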