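import Mathlib

/-!
Lower bound for the Hausdorff dimension of the set of all points of the circle whose digits in a
base `m` vanish outside a set `P` of positions and are smaller than `b ≤ m / 2`.
-/

set_option autoImplicit false

namespace Pool.Agent.Y314.FD

open Real

section
variable {m b : ℕ} [NeZero m] (hbm : 2 * b ≤ m) (P : ℕ → Prop) [DecidablePred P]

/-- the digit sequence attached to a sequence of digits in base `b` -/
def xs (τ : ℕ → Fin b) (n : ℕ) : Fin m :=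
  if P n then ⟨(τ (Nat.count P n) : ℕ), lt_of_lt_of_le (τ (Nat.count P n)).2 (by omega)⟩ else 0

lemma xs_zero (τ : ℕ → Fin b) (n : ℕ) (hp : ¬ P n) : (xs hbm P τ n : ℕ) = 0 := by
  unfold xs; rw [if_neg hp]; exact Fin.val_zero _

lemma xs_P (τ : ℕ → Fin b) (n : ℕ) (hp : P n) : (xs hbm P τ n : ℕ) = τ (Nat.count P n) := by
  unfold xs; rw [if_pos hp]

lemma xs_lt (τ : ℕ → Fin b) (n : ℕ) : 2 * (xs hbm P τ n : ℕ) < m := by
  by_cases h : P n
  · rw [xs_P hbm P τ n h]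
    have := (τ (Nat.count P n)).2
    omega
  · rw [xs_zero hbm P τ n h]
    have := NeZero.pos m
    omega

omit [NeZero m] in
lemma half (y : ℕ → Fin m) (hy : ∀ p, 2 * (y p : ℕ) < m) : ofDigits y ≤ 1 / 2 := by
  have h3 : ofDigits (fun p => (⟨2 * (y p : ℕ), hy p⟩ : Fin m)) = 2 * ofDigits y := by
    unfold ofDigits
    rw [← tsum_mul_left]
    congr 1
    ext p
    simp only [ofDigitsTerm]
    push_cast
    ring
  have h4 := ofDigits_le_one (fun p => (⟨2 * (y p : ℕ), hy p⟩ : Fin m))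
  rw [h3] at h4
  linarith

/-- the separation of two points whose digits first differ at `p` -/
lemma sep (y z : ℕ → Fin m) (hy : ∀ p, 2 * (y p : ℕ) < m) (hz : ∀ p, 2 * (z p : ℕ) < m)
    (p : ℕ) (hlt : ∀ i < p, y i = z i) (hne : y p ≠ z p) :
    (1 / 2) * ((m : ℝ) ^ (p + 1))⁻¹ ≤ |ofDigits y - ofDigits z| := by
  rw [ofDigits_eq_sum_add_ofDigits y (p + 1), ofDigits_eq_sum_add_ofDigits z (p + 1),
    Finset.sum_range_succ, Finset.sum_range_succ]
  have hs : ∑ i ∈ Finset.range p, ofDigitsTerm y i = ∑ i ∈ Finset.range p, ofDigitsTerm z i :=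
    Finset.sum_congr rfl fun i hi ↦ by simp [ofDigitsTerm, hlt i (Finset.mem_range.mp hi)]
  rw [hs]
  have a1 := half (fun i ↦ y (i + (p + 1))) (fun i => hy _)
  have a2 := half (fun i ↦ z (i + (p + 1))) (fun i => hz _)
  have a3 := ofDigits_nonneg (fun i ↦ y (i + (p + 1)))
  have a4 := ofDigits_nonneg (fun i ↦ z (i + (p + 1)))
  set Y := ofDigits (fun i ↦ y (i + (p + 1)))
  set Z := ofDigits (fun i ↦ z (i + (p + 1)))
  have hm0 : (0 : ℝ) < m := by exact_mod_cast NeZero.pos m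
  set c : ℝ := ((m : ℝ) ^ (p + 1))⁻¹ with hc
  have hc0 : 0 < c := by positivity
  have e1 : ofDigitsTerm y p = ((y p : ℕ) : ℝ) * c := rfl
  have e2 : ofDigitsTerm z p = ((z p : ℕ) : ℝ) * c := rfl
  rw [e1, e2]
  have e3 : (∑ i ∈ Finset.range p, ofDigitsTerm z i + ((y p : ℕ) : ℝ) * c + c * Y) -
      (∑ i ∈ Finset.range p, ofDigitsTerm z i + ((z p : ℕ) : ℝ) * c + c * Z)
      = c * ((((y p : ℕ) : ℝ) - ((z p : ℕ) : ℝ)) + (Y - Z)) := by ring
  rw [e3, abs_mul, abs_of_pos hc0]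
  have h5 : 1 ≤ |(((y p : ℕ) : ℝ) - ((z p : ℕ) : ℝ))| := by
    have : ((y p : ℕ) : ℤ) - ((z p : ℕ) : ℤ) ≠ 0 := by
      intro h
      apply hne
      apply Fin.ext
      omega
    have h6 := Int.one_le_abs this
    exact_mod_cast h6
  have h7 : |Y - Z| ≤ 1 / 2 := by rw [abs_le]; constructor <;> linarith
  have h8 : 1 / 2 ≤ |(((y p : ℕ) : ℝ) - ((z p : ℕ) : ℝ)) + (Y - Z)| := by
    have := abs_sub_abs_le_abs_sub (((y p : ℕ) : ℝ) - ((z p : ℕ) : ℝ)) (-(Y - Z))
    rw [sub_neg_eq_add, abs_neg] at this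
    linarith
  nlinarith

omit [NeZero m] in
lemma holder_num {al : ℝ} (hal : 0 ≤ al) (hm : 1 < (m : ℝ)) {j p : ℕ} {D : ℝ}
    (hD : (1 / 2) * ((m : ℝ) ^ (p + 1))⁻¹ ≤ D)
    (hb : (b : ℝ) ^ j ≥ ((m : ℝ) ^ p) ^ al) :
    ((b : ℝ) ^ j)⁻¹ ≤ (2 * m) ^ al * D ^ al := by
  have hm0 : (0 : ℝ) < m := by linarith
  have h1 : 0 < ((m : ℝ) ^ p) ^ al := by positivity
  have h2 : ((b : ℝ) ^ j)⁻¹ ≤ (((m : ℝ) ^ p) ^ al)⁻¹ := inv_anti₀ h1 hb
  refine h2.trans ?_
  have h3 : ((1 / 2) * ((m : ℝ) ^ (p + 1))⁻¹) ^ al ≤ D ^ al :=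
    Real.rpow_le_rpow (by positivity) hD hal
  calc (((m : ℝ) ^ p) ^ al)⁻¹ = (((m : ℝ) ^ p)⁻¹) ^ al := by
        rw [Real.inv_rpow (by positivity)]
    _ = ((2 * m) * ((1 / 2) * ((m : ℝ) ^ (p + 1))⁻¹)) ^ al := by
        congr 1
        rw [pow_succ]
        field_simp
    _ = (2 * m) ^ al * ((1 / 2) * ((m : ℝ) ^ (p + 1))⁻¹) ^ al := by
        rw [Real.mul_rpow (by positivity) (by positivity)]
    _ ≤ _ := mul_le_mul_of_nonneg_left h3 (by positivity)

lemma holder (hP : (Set.ofPred P).Infinite) (hm : 1 < (m : ℝ)) {al : ℝ} (hal : 0 ≤ al)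
    (hc : ∀ n, P n → (b : ℝ) ^ (Nat.count P n) ≥ ((m : ℝ) ^ n) ^ al) (τ σ : ℕ → Fin b) :
    |ofDigits τ - ofDigits σ| ≤
      (2 * m) ^ al * |ofDigits (xs hbm P τ) - ofDigits (xs hbm P σ)| ^ al := by
  have key : ∀ i, ∃ n, P n ∧ Nat.count P n = i := fun i =>
    ⟨Nat.nth P i, Nat.nth_mem_of_infinite hP i, Nat.count_nth_of_infinite hP i⟩
  by_cases h : ∃ p, xs hbm P τ p ≠ xs hbm P σ p
  · classical
    set p := Nat.find h with hp
    have hne : xs hbm P τ p ≠ xs hbm P σ p := Nat.find_spec h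
    have hlt : ∀ i < p, xs hbm P τ i = xs hbm P σ i := fun i hi => by
      have := Nat.find_min h hi
      push Not at this
      exact this
    have hPp : P p := by
      by_contra hPp
      apply hne
      apply Fin.ext
      rw [xs_zero _ _ _ _ hPp, xs_zero _ _ _ _ hPp]
    have hs := sep (xs hbm P τ) (xs hbm P σ) (xs_lt hbm P τ) (xs_lt hbm P σ) p hlt hne
    set j := Nat.count P p with hj
    have hτσ : ∀ i < j, τ i = σ i := by
      intro i hi
      obtain ⟨n, hn1, hn2⟩ := key i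
      have hqp : n < p := by
        by_contra hcon
        push Not at hcon
        have := Nat.count_monotone P hcon
        omega
      have := hlt n hqp
      have h1 : (xs hbm P τ n : ℕ) = (xs hbm P σ n : ℕ) := by rw [this]
      rw [xs_P _ _ _ _ hn1, xs_P _ _ _ _ hn1, hn2] at h1
      exact Fin.ext h1
    have h1 := abs_ofDigits_sub_ofDigits_le hτσ
    exact h1.trans (holder_num hal hm hs (hc p hPp))
  · push Not at h
    have : τ = σ := by
      ext i
      obtain ⟨n, hn1, hn2⟩ := key i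
      have h1 : (xs hbm P τ n : ℕ) = (xs hbm P σ n : ℕ) := by rw [h]
      rw [xs_P _ _ _ _ hn1, xs_P _ _ _ _ hn1, hn2] at h1
      exact h1
    rw [this]
    simp only [sub_self, abs_zero]
    positivity

/-- the Cantor set -/
def cantor : Set UnitAddCircle :=
  Set.range (fun τ : ℕ → Fin b => ((ofDigits (xs hbm P τ) : ℝ) : UnitAddCircle))

open Classical in
/-- the Hölder map -/
noncomputable def cf (x : UnitAddCircle) : ℝ :=
  if h : ∃ τ : ℕ → Fin b, ((ofDigits (xs hbm P τ) : ℝ) : UnitAddCircle) = x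
    then ofDigits h.choose else 0

lemma cf_spec (x : UnitAddCircle) (hx : x ∈ cantor hbm P) :
    ∃ τ : ℕ → Fin b, ((ofDigits (xs hbm P τ) : ℝ) : UnitAddCircle) = x ∧
      cf hbm P x = ofDigits τ := by
  obtain ⟨τ, hτ⟩ := hx
  have h : ∃ τ : ℕ → Fin b, ((ofDigits (xs hbm P τ) : ℝ) : UnitAddCircle) = x := ⟨τ, hτ⟩
  refine ⟨h.choose, h.choose_spec, ?_⟩
  unfold cf; rw [dif_pos h]

lemma circle_dist (τ σ : ℕ → Fin b) :
    dist ((ofDigits (xs hbm P τ) : ℝ) : UnitAddCircle) ((ofDigits (xs hbm P σ) : ℝ)) =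
      |ofDigits (xs hbm P τ) - ofDigits (xs hbm P σ)| := by
  rw [dist_eq_norm, ← AddCircle.coe_sub]
  refine (AddCircle.norm_coe_eq_abs_iff (p := (1 : ℝ)) one_ne_zero).2 ?_
  have h1 := half _ (xs_lt hbm P τ)
  have h2 := half _ (xs_lt hbm P σ)
  have h3 := ofDigits_nonneg (xs hbm P τ)
  have h4 := ofDigits_nonneg (xs hbm P σ)
  rw [abs_one, abs_le]
  constructor <;> linarith

/-- **Dimension of the Cantor set.** -/
theorem le_dimH_cantor (hb : 1 < b) (hP : (Set.ofPred P).Infinite) {al : ℝ} (hal : 0 < al)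
    (hc : ∀ n, P n → (b : ℝ) ^ (Nat.count P n) ≥ ((m : ℝ) ^ n) ^ al) :
    ENNReal.ofReal al ≤ dimH (cantor (m := m) hbm P) := by
  have hm : (1 : ℝ) < m := by
    have : 1 < m := by omega
    exact_mod_cast this
  have hhol : HolderOnWith (Real.toNNReal ((2 * m) ^ al)) (Real.toNNReal al) (cf hbm P)
      (cantor (m := m) hbm P) := by
    intro x hx y hy
    obtain ⟨τ, h1, h2⟩ := cf_spec hbm P x hx
    obtain ⟨σ, h3, h4⟩ := cf_spec hbm P y hy
    have h := holder hbm P hP hm hal.le hc τ σ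
    rw [← circle_dist hbm P, h1, h3, ← h2, ← h4] at h
    rw [edist_dist, edist_dist, Real.dist_eq, Real.coe_toNNReal _ hal.le,
      ENNReal.ofReal_rpow_of_nonneg dist_nonneg hal.le]
    have e : ((Real.toNNReal ((2 * m) ^ al) : NNReal) : ENNReal) =
        ENNReal.ofReal ((2 * m) ^ al) := rfl
    rw [e, ← ENNReal.ofReal_mul (by positivity)]
    exact ENNReal.ofReal_le_ofReal h
  have himage : Set.Icc (0 : ℝ) 1 ⊆ cf hbm P '' (cantor (m := m) hbm P) := by
    intro t ht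
    obtain ⟨τ, -, hτ⟩ := ofDigits_SurjOn (b := b) hb ht
    have hx : ((ofDigits (xs hbm P τ) : ℝ) : UnitAddCircle) ∈ cantor (m := m) hbm P := ⟨τ, rfl⟩
    refine ⟨_, hx, ?_⟩
    obtain ⟨σ, h1, h2⟩ := cf_spec hbm P _ hx
    rw [h2, ← hτ]
    have h3 := holder hbm P hP hm hal.le hc σ τ
    rw [← circle_dist hbm P, h1, dist_self, Real.zero_rpow hal.ne', mul_zero] at h3
    have := abs_nonpos_iff.1 h3
    linarith
  have h1 := hhol.dimH_image_le (Real.toNNReal_pos.2 hal)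
  have h2 : (1 : ENNReal) ≤ dimH (cf hbm P '' (cantor (m := m) hbm P)) := by
    have h3 : dimH (Set.Icc (0 : ℝ) 1) = 1 := by
      rw [Real.dimH_of_nonempty_interior]
      · simp
      · rw [interior_Icc]; exact ⟨1/2, by norm_num⟩
    rw [← h3]
    exact dimH_mono himage
  have h4 := h2.trans h1
  rw [ENNReal.le_div_iff_mul_le (Or.inl (by
    have := Real.toNNReal_pos.2 hal
    exact_mod_cast this.ne')) (Or.inl ENNReal.coe_ne_top)] at h4
  simpa [ENNReal.ofReal] using h4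

end

end Pool.Agent.Y314.FD
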