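import Pool.Agent.Y314.FD.Grid

/-!
The two counting chains and the number of grid points with a given pattern.
-/

set_option autoImplicit false

open Filter Topology Set

namespace Pool.Agent.Y314.FD

open Pool.Agent.W764.FB Pool.Agent.W764.SH Pool.Agent.W764.HL

lemma chain_down {f c : ℕ → ℕ} {n : ℕ} (H : ∀ j < n, f j ≤ c j * f (j + 1)) :
    f 0 ≤ (∏ j ∈ Finset.range n, c j) * f n := by
  induction n with
  | zero => simp
  | succ n ih =>
    rw [Finset.prod_range_succ]
    calc f 0 ≤ (∏ j ∈ Finset.range n, c j) * f n := ih fun j hj => H j (by omega)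
      _ ≤ (∏ j ∈ Finset.range n, c j) * (c n * f (n + 1)) :=
        Nat.mul_le_mul_left _ (H n (by omega))
      _ = _ := by ring

lemma chain_up {f c : ℕ → ℕ} {n : ℕ} (H : ∀ j < n, f (j + 1) ≤ c j * f j) :
    f n ≤ (∏ j ∈ Finset.range n, c j) * f 0 := by
  induction n with
  | zero => simp
  | succ n ih =>
    rw [Finset.prod_range_succ]
    calc f (n + 1) ≤ c n * f n := H n (by omega)
      _ ≤ c n * ((∏ j ∈ Finset.range n, c j) * f 0) :=
        Nat.mul_le_mul_left _ (ih fun j hj => H j (by omega))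
      _ = _ := by ring

lemma prod_ite_le {S : ℕ → Prop} [DecidablePred S] {a b n : ℕ} (hb : 1 ≤ b) :
    (∏ j ∈ Finset.range n, if S j then a else b) ≤
      a ^ ((Finset.range n).filter S).card * b ^ n := by
  rw [Finset.prod_ite, Finset.prod_const, Finset.prod_const]
  refine Nat.mul_le_mul_left _ (Nat.pow_le_pow_right hb ?_)
  exact (Finset.card_filter_le _ _).trans (by rw [Finset.card_range])

open Classical in
lemma block_chain {p m h J j0 : ℕ} (hp : 2 ≤ p) (hm : 1 ≤ m) {P X : Finset ℕ}
    (hX : X ⊆ Finset.range (p ^ (J * h))) (hj0 : j0 + 2 ≤ J)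
    (hbad : ∀ j < j0, j ∉ P → nm p X ((J - (j + 2)) * h) ≤ m * nm p X ((J - (j + 3)) * h)) :
    X.card ≤ p ^ (2 * h) * ((p ^ h) ^ (P.filter (· < j0)).card * m ^ j0) *
      nm p X ((J - j0) * h) := by
  have h1 := chain_down (f := fun j => nm p X ((J - (j + 2)) * h))
    (c := fun j => if j ∈ P then p ^ h else m) (n := j0) (fun j hj => by
      by_cases hP : j ∈ P
      · simp only [hP, if_true]
        have e : (J - (j + 2)) * h = (J - (j + 1 + 2)) * h + h := by
          have : J - (j + 2) = J - (j + 1 + 2) + 1 := by omega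
          rw [this]; ring
        rw [e]
        exact nm_free hp X _ _
      · simp only [hP, if_false]
        exact hbad j hj hP)
  have h2 := prod_ite_le (S := fun j => j ∈ P) (a := p ^ h) (b := m) (n := j0) hm
  have h3 : ((Finset.range j0).filter fun j => j ∈ P).card = (P.filter (· < j0)).card := by
    congr 1
    ext j
    rw [Finset.mem_filter, Finset.mem_filter, Finset.mem_range]
    tauto
  rw [h3] at h2
  have h4 : nm p X ((J - (j0 + 2)) * h) ≤ nm p X ((J - j0) * h) :=
    nm_anti X (Nat.mul_le_mul_right _ (by omega))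
  have h5 : nm p X (J * h) ≤ p ^ (2 * h) * nm p X ((J - (0 + 2)) * h) := by
    have e : J * h = (J - (0 + 2)) * h + 2 * h := by
      rw [← Nat.add_mul]; congr 1; omega
    conv_lhs => rw [e]
    exact nm_free hp X _ _
  rw [nm_top hX] at h5
  calc X.card ≤ p ^ (2 * h) * nm p X ((J - (0 + 2)) * h) := h5
    _ ≤ p ^ (2 * h) * ((∏ j ∈ Finset.range j0, if j ∈ P then p ^ h else m) *
        nm p X ((J - (j0 + 2)) * h)) := Nat.mul_le_mul_left _ h1
    _ ≤ p ^ (2 * h) * (((p ^ h) ^ (P.filter (· < j0)).card * m ^ j0) *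
        nm p X ((J - j0) * h)) := Nat.mul_le_mul_left _ (Nat.mul_le_mul h2 h4)
    _ = _ := by ring

open Classical in
lemma strip_chain {p m h N v : ℕ} (hp : 2 ≤ p) (hm : 1 ≤ m) (hv : 1 ≤ v) {G X : Finset ℕ}
    (hbad : ∀ l, v ≤ l + 1 → l + 1 < N → l + 1 ∉ G →
      cm p h N X (l + 1) ≤ (2 * m) * cm p h N X l) :
    nm p X (N * h) ≤ p ^ (v * h) * ((p ^ h) ^ G.card * (2 * m) ^ N) := by
  set S : ℕ → Prop := fun l => l + 1 < v ∨ l + 1 ∈ G ∨ l + 1 = N with hS
  have h1 := chain_up (f := fun l => cm p h N X l)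
    (c := fun l => if S l then p ^ h else 2 * m) (n := N) (fun l hl => by
      by_cases hP : S l
      · simp only [hP, if_true]
        exact cm_free hp X (by omega)
      · simp only [hP, if_false]
        simp only [hS, not_or, not_lt] at hP
        exact hbad l hP.1 (by omega) hP.2.1)
  have h2 := prod_ite_le (S := S) (a := p ^ h) (b := 2 * m) (n := N) (by omega)
  have h3 : ((Finset.range N).filter S).card ≤ (v - 1) + (G.card + 1) := by
    have hsub : ((Finset.range N).filter S) ⊆ Finset.range (v - 1) ∪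
        (G.image (fun l => l - 1) ∪ {N - 1}) := by
      intro l hl
      rw [Finset.mem_filter] at hl
      simp only [hS] at hl
      rw [Finset.mem_union, Finset.mem_union, Finset.mem_range, Finset.mem_image,
        Finset.mem_singleton]
      rcases hl.2 with h4 | h4 | h4
      · left; omega
      · right; left; exact ⟨l + 1, h4, by omega⟩
      · right; right; omega
    refine (Finset.card_le_card hsub).trans ((Finset.card_union_le _ _).trans ?_)
    rw [Finset.card_range]
    refine Nat.add_le_add_left ((Finset.card_union_le _ _).trans ?_) _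
    rw [Finset.card_singleton]
    exact Nat.add_le_add_right Finset.card_image_le _
  have hph : 1 ≤ p ^ h := Nat.one_le_pow _ _ (by omega)
  have h4 : (p ^ h) ^ ((Finset.range N).filter S).card ≤ p ^ (v * h) * (p ^ h) ^ G.card := by
    have e : p ^ (v * h) = (p ^ h) ^ v := by rw [← pow_mul]; congr 1; ring
    rw [e, ← pow_add]
    exact Nat.pow_le_pow_right hph (by omega)
  have h5 := cm_zero hp (h := h) (N := N) X
  rw [← cm_top]
  calc cm p h N X N ≤ (∏ j ∈ Finset.range N, if S j then p ^ h else 2 * m) * cm p h N X 0 := h1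
    _ ≤ ((p ^ h) ^ ((Finset.range N).filter S).card * (2 * m) ^ N) * 1 := Nat.mul_le_mul h2 h5
    _ ≤ ((p ^ (v * h) * (p ^ h) ^ G.card) * (2 * m) ^ N) * 1 :=
      Nat.mul_le_mul_right _ (Nat.mul_le_mul_right _ h4)
    _ = _ := by ring

end Pool.Agent.Y314.FD
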