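import Mathlib

/-!
Visit frequencies along the integers `p ^ i * q ^ j` in increasing order.
-/

set_option autoImplicit false

namespace Pool.Agent.Y314.FD

/-- The proportion of the integers `n ≤ N` of the form `p ^ i * q ^ j` for which `n x` lies in the
closed arc with centre `c` and radius `r`. -/
noncomputable def freq (p q N : ℕ) (x c : UnitAddCircle) (r : ℝ) : ℝ :=
  ({n : ℕ | n ≤ N ∧ (∃ i j : ℕ, n = p ^ i * q ^ j) ∧ n • x ∈ Metric.closedBall c r}.ncard : ℝ) /
    ({n : ℕ | n ≤ N ∧ ∃ i j : ℕ, n = p ^ i * q ^ j}.ncard : ℝ)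

end Pool.Agent.Y314.FD
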