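import Mathlib

/-!
Upper bound of the Hausdorff dimension of an upper limit of balls.
-/

set_option autoImplicit false

open Filter Topology Set MeasureTheory MeasureTheory.Measure
open scoped ENNReal NNReal

namespace Pool.Agent.Y314.FD

variable {X : Type} [MetricSpace X]

lemma ediam_closedBall_le (x : X) {r : ℝ} (hr : 0 ≤ r) :
    Metric.ediam (Metric.closedBall x r) ≤ ENNReal.ofReal (2 * r) := by
  rw [Metric.ediam_le_iff]
  intro y hy z hz
  rw [edist_dist]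
  apply ENNReal.ofReal_le_ofReal
  rw [Metric.mem_closedBall] at hy hz
  have := dist_triangle_right y z x
  linarith

theorem measure_zero_of_balls [MeasurableSpace X] [BorelSpace X] (E : Set X) (F : ℕ → Finset X)
    {b s : ℝ} (hb0 : 0 < b) (hb1 : b < 1) {v0 : ℕ}
    (hF : ∀ v, v0 ≤ v → ((F v).card : ℝ) ≤ b ^ (-(s * v)))
    (hE : ∀ x ∈ E, ∃ᶠ v in atTop, ∃ y ∈ F v, dist x y ≤ b ^ v) {d : ℝ} (hd0 : 0 < d)
    (hd : s < d) : μH[d] E = 0 := by
  set t : ∀ m : ℕ, (Σ i : ℕ, (F (m + i))) → Set X := fun m w =>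
    Metric.closedBall (w.2 : X) (b ^ (m + w.1)) with ht
  set ρ : ℝ := b ^ (d - s) with hρ
  have hρ0 : 0 < ρ := by positivity
  have hρ1 : ρ < 1 := Real.rpow_lt_one hb0.le hb1 (by linarith)
  set C : ℝ := (2 : ℝ) ^ d with hC
  have hC0 : 0 < C := by positivity
  have hdiam : ∀ m w, Metric.ediam (t m w) ^ d ≤ ENNReal.ofReal (C * (b ^ (m + w.1)) ^ d) := by
    intro m w
    refine (ENNReal.rpow_le_rpow (ediam_closedBall_le (w.2 : X) (by positivity)) hd0.le).trans ?_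
    rw [ENNReal.ofReal_rpow_of_nonneg (by positivity) hd0.le,
      Real.mul_rpow (by norm_num) (by positivity)]
  have hlev : ∀ m, v0 ≤ m → ∀ i, ∑' y : (F (m + i)), ENNReal.ofReal (C * (b ^ (m + i)) ^ d) ≤
      ENNReal.ofReal (C * ρ ^ m) * ENNReal.ofReal (ρ ^ i) := by
    intro m hm i
    rw [tsum_fintype, Finset.sum_const, Finset.card_univ, Fintype.card_coe, nsmul_eq_mul,
      ← ENNReal.ofReal_natCast, ← ENNReal.ofReal_mul (Nat.cast_nonneg _),
      ← ENNReal.ofReal_mul (by positivity)]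
    apply ENNReal.ofReal_le_ofReal
    have h1 := hF (m + i) (by omega)
    have h2 : ((F (m + i)).card : ℝ) * (C * (b ^ (m + i)) ^ d) ≤
        b ^ (-(s * ((m + i : ℕ) : ℝ))) * (C * (b ^ (m + i)) ^ d) :=
      mul_le_mul_of_nonneg_right h1 (by positivity)
    refine h2.trans (le_of_eq ?_)
    have h3 : (b ^ (m + i)) ^ d = b ^ (((m + i : ℕ) : ℝ) * d) := by
      rw [← Real.rpow_natCast, ← Real.rpow_mul hb0.le]
    have h4 : ρ ^ m * ρ ^ i = b ^ ((d - s) * ((m + i : ℕ) : ℝ)) := by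
      rw [← pow_add, ← Real.rpow_natCast, hρ, ← Real.rpow_mul hb0.le]
    have h5 : b ^ (-(s * ((m + i : ℕ) : ℝ))) * b ^ (((m + i : ℕ) : ℝ) * d) =
        b ^ ((d - s) * ((m + i : ℕ) : ℝ)) := by
      rw [← Real.rpow_add hb0]; congr 1; ring
    calc b ^ (-(s * ((m + i : ℕ) : ℝ))) * (C * (b ^ (m + i)) ^ d)
        = C * (b ^ (-(s * ((m + i : ℕ) : ℝ))) * b ^ (((m + i : ℕ) : ℝ) * d)) := by rw [h3]; ring
      _ = C * (ρ ^ m * ρ ^ i) := by rw [h5, h4]
      _ = _ := by ring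
  have hK : ∑' i : ℕ, ENNReal.ofReal (ρ ^ i) ≠ ∞ :=
    (summable_geometric_of_lt_one hρ0.le hρ1).tsum_ofReal_ne_top
  have htot : ∀ m, v0 ≤ m → ∑' w, Metric.ediam (t m w) ^ d ≤
      ENNReal.ofReal (C * ρ ^ m) * ∑' i : ℕ, ENNReal.ofReal (ρ ^ i) := by
    intro m hm
    refine (ENNReal.tsum_le_tsum (hdiam m)).trans ?_
    rw [ENNReal.tsum_sigma', ← ENNReal.tsum_mul_left]
    exact ENNReal.tsum_le_tsum fun i => hlev m hm i
  have hlim : Tendsto (fun m => ENNReal.ofReal (C * ρ ^ m) * ∑' i : ℕ, ENNReal.ofReal (ρ ^ i))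
      atTop (𝓝 0) := by
    have h3 := (tendsto_pow_atTop_nhds_zero_of_lt_one hρ0.le hρ1).const_mul C
    rw [mul_zero] at h3
    have h4 := ENNReal.tendsto_ofReal h3
    rw [ENNReal.ofReal_zero] at h4
    have h5 := ENNReal.Tendsto.mul_const h4 (Or.inr hK)
    rwa [zero_mul] at h5
  have hr : Tendsto (fun m : ℕ => ENNReal.ofReal (2 * b ^ m)) atTop (𝓝 0) := by
    have h1 : Tendsto (fun m : ℕ => 2 * b ^ m) atTop (𝓝 (2 * 0)) :=
      (tendsto_pow_atTop_nhds_zero_of_lt_one hb0.le hb1).const_mul _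
    have h2 := ENNReal.tendsto_ofReal h1
    rwa [mul_zero, ENNReal.ofReal_zero] at h2
  have hmain := hausdorffMeasure_le_liminf_tsum (ι := fun m : ℕ => Σ i : ℕ, (F (m + i))) d E
    (l := atTop) (fun m : ℕ => ENNReal.ofReal (2 * b ^ m)) hr t ?_ ?_
  · refine le_antisymm (hmain.trans ?_) zero_le
    have h1 : liminf (fun m => ∑' w, Metric.ediam (t m w) ^ d) atTop ≤
        liminf (fun m => ENNReal.ofReal (C * ρ ^ m) * ∑' i : ℕ, ENNReal.ofReal (ρ ^ i)) atTop := by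
      refine liminf_le_liminf ?_
      filter_upwards [eventually_ge_atTop v0] with m hm
      exact htot m hm
    rwa [hlim.liminf_eq] at h1
  · refine Eventually.of_forall fun m w => ?_
    refine (ediam_closedBall_le (w.2 : X) (by positivity)).trans ?_
    apply ENNReal.ofReal_le_ofReal
    have h1 : b ^ (m + w.1) ≤ b ^ m := pow_le_pow_of_le_one hb0.le hb1.le (by omega)
    linarith
  · refine Eventually.of_forall fun m x hx => ?_
    obtain ⟨i, hi, y, hy, hxy⟩ := (frequently_atTop.1 (hE x hx)) m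
    rw [Set.mem_iUnion]
    have h1 : m + (i - m) = i := by omega
    refine ⟨⟨i - m, ⟨y, by rw [h1]; exact hy⟩⟩, ?_⟩
    simp only [ht, Metric.mem_closedBall]
    rw [h1]
    exact hxy

/-- **Hausdorff dimension of an upper limit of balls.** -/
theorem dimH_le_of_balls (E : Set X) (F : ℕ → Finset X)
    {b s : ℝ} (hb0 : 0 < b) (hb1 : b < 1) (hs : 0 ≤ s) {v0 : ℕ}
    (hF : ∀ v, v0 ≤ v → ((F v).card : ℝ) ≤ b ^ (-(s * v)))
    (hE : ∀ x ∈ E, ∃ᶠ v in atTop, ∃ y ∈ F v, dist x y ≤ b ^ v) : dimH E ≤ ENNReal.ofReal s := by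
  borelize X
  refine dimH_le fun d' hd' => ?_
  by_contra hlt
  push Not at hlt
  have h1 : s < d' := by
    have h2 : ENNReal.ofReal s < ENNReal.ofReal (d' : ℝ) := by
      rwa [ENNReal.ofReal_coe_nnreal]
    exact (ENNReal.ofReal_lt_ofReal_iff_of_nonneg hs).1 h2
  have h2 := measure_zero_of_balls E F hb0 hb1 hF hE (d := (d' : ℝ)) (by linarith) h1
  rw [h2] at hd'
  exact ENNReal.zero_ne_top hd'

end Pool.Agent.Y314.FD
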