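import Pool.Agent.Y314.FD.Main

/-!
The exact dimension, and the covering statement at one scale.
-/

set_option autoImplicit false

open Filter Topology Set
open scoped ENNReal

namespace Pool.Agent.Y314.FD

open Pool.Agent.W764.FB Pool.Agent.W764.SH Pool.Agent.W764.HL

section
variable {p q : ℕ} (hp : 2 ≤ p) (hq : 2 ≤ q)
include hp hq

/-- points with long runs of zeros have deficient frequencies -/
lemma cantor_sub (hpq : Nat.Coprime p q) {s : ℝ} (hs1 : s ≤ 1) {R a b G : ℕ}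
    [NeZero (p ^ (R + 1))] (hbm : 2 * p ^ R ≤ p ^ (R + 1)) (hab : a < b) (hG : 2 ≤ G)
    (has : (a : ℝ) / b < s) :
    cantor (m := p ^ (R + 1)) (b := p ^ R) hbm (free a b G) ⊆
      {x : T | ∃ c : T, ∃ r : ℝ, 0 < r ∧ r ≤ 1 / 2 ∧
        liminf (fun N => freq p q N x c r) atTop < (1 - (1 - s) ^ 2) * (2 * r)} := by
  intro x hx
  have hb0 : (0 : ℝ) < b := by
    have : 0 < b := by omega
    exact_mod_cast this
  have hab0 : (0 : ℝ) ≤ (a : ℝ) / b := by positivity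
  set φ : ℝ := 1 - (a : ℝ) / b with hφ
  have hφ1 : φ ≤ 1 := by rw [hφ]; linarith
  have hφs : 1 - s < φ := by rw [hφ]; linarith
  have hφ0 : 0 ≤ φ := by linarith
  have hgap : (1 - s) ^ 2 < φ ^ 2 := by
    have h0 : 0 ≤ 1 - s := by linarith
    nlinarith
  set ς : ℝ := (φ ^ 2 - (1 - s) ^ 2) / 3 with hς
  have hς0 : 0 < ς := by rw [hς]; linarith
  have hς1 : ς ≤ 1 / 3 := by
    have h1 : φ ^ 2 ≤ 1 := by nlinarith
    have h2 := sq_nonneg (1 - s)
    rw [hς]; linarith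
  have hςφ : ς ≤ φ ^ 2 := by
    have h2 := sq_nonneg (1 - s)
    rw [hς]; nlinarith [sq_nonneg φ]
  set ρ : ℝ := ς / 2 with hρ
  have hρ0 : 0 < ρ := by positivity
  have hp1 : (1 : ℝ) < p := by exact_mod_cast (by omega : 1 < p)
  obtain ⟨D, hD⟩ := pow_unbounded_of_one_lt (1 / ρ) hp1
  have hD' : 1 / (p : ℝ) ^ D < ρ := by
    rw [div_lt_iff₀ (by positivity)]
    rw [div_lt_iff₀ hρ0] at hD
    linarith
  obtain ⟨n0, hn0⟩ := tri_ratio hp hq hφ0 hφ1 hς0 hςφ D
  refine ⟨((1 / 2 : ℝ) : T), 1 / 2 - ρ, by rw [hρ]; linarith, by linarith, ?_⟩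
  have hfreq : ∃ᶠ N in atTop, freq p q N x ((1 / 2 : ℝ) : T) (1 / 2 - ρ) ≤ 1 - (φ ^ 2 - ς) := by
    rw [frequently_atTop]
    intro N1
    set k := n0 + N1 + D with hk
    have hGk : k < G ^ k := Nat.lt_pow_self (by omega)
    set n1 := (R + 1) * (a * G ^ k) with hn1
    set n2 := (R + 1) * (b * G ^ k) with hn2
    have hGkb : G ^ k ≤ b * G ^ k := Nat.le_mul_of_pos_left _ (by omega)
    have hn2k : k ≤ n2 := by
      have : b * G ^ k ≤ (R + 1) * (b * G ^ k) := Nat.le_mul_of_pos_left _ (by omega)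
      omega
    have hn12 : n1 + D ≤ n2 := by
      have h1 : a * G ^ k + G ^ k ≤ b * G ^ k := by
        have : (a + 1) * G ^ k ≤ b * G ^ k := Nat.mul_le_mul_right _ hab
        rw [add_mul, one_mul] at this
        exact this
      have h2 : (R + 1) * (a * G ^ k + G ^ k) ≤ (R + 1) * (b * G ^ k) := Nat.mul_le_mul_left _ h1
      have h3 : G ^ k ≤ (R + 1) * G ^ k := Nat.le_mul_of_pos_left _ (by omega)
      have h4 : (R + 1) * (a * G ^ k + G ^ k) = n1 + (R + 1) * G ^ k := by rw [hn1]; ring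
      omega
    have hrun := zero_run hp hbm hx k
    have hexp : (R + 1) * (b * G ^ k - a * G ^ k) = n2 - n1 := by
      rw [Nat.mul_sub]
    rw [hexp] at hrun
    have h1 := run_hits hp hq hn12 hrun hD'
    have h2 := hn0 n2 (n2 - n1 - D) (by omega) (by
      have e1 : ((n2 - n1 - D : ℕ) : ℝ) = (n2 : ℝ) - n1 - D := by
        rw [Nat.cast_sub (by omega), Nat.cast_sub (by omega)]
      rw [e1, hφ, hn1, hn2]
      push_cast
      field_simp)
    refine ⟨p ^ n2, ?_, ?_⟩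
    · have h3 : n2 < p ^ n2 := Nat.lt_pow_self (by omega)
      omega
    · have hN1 : 1 ≤ p ^ n2 := Nat.one_le_pow _ _ (by omega)
      rw [freq_eq hp hq hpq, div_le_iff₀ (tri_card_pos hp hq hN1)]
      linarith
  have hlim : liminf (fun N => freq p q N x ((1 / 2 : ℝ) : T) (1 / 2 - ρ)) atTop ≤
      1 - (φ ^ 2 - ς) := by
    refine liminf_le_of_frequently_le hfreq ?_
    exact ⟨0, eventually_map.2 (Eventually.of_forall fun N => freq_nonneg N x _ _)⟩
  refine lt_of_le_of_lt hlim ?_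
  have h1 : (1 - (1 - s) ^ 2) * (2 * (1 / 2 - ρ)) =
      1 - (1 - s) ^ 2 - 2 * ρ + 2 * ρ * (1 - s) ^ 2 := by ring
  rw [h1]
  have h2 : 0 ≤ 2 * ρ * (1 - s) ^ 2 := by positivity
  have h3 : 2 * ρ = ς := by rw [hρ]; ring
  have h4 : 3 * ς = φ ^ 2 - (1 - s) ^ 2 := by rw [hς]; ring
  rw [h3] at h2 ⊢
  linarith

/-- **Lower bound of the dimension.** -/
theorem dim_lower (hpq : Nat.Coprime p q) {s : ℝ} (hs1 : s ≤ 1) :
    ENNReal.ofReal s ≤ dimH {x : T | ∃ c : T, ∃ r : ℝ, 0 < r ∧ r ≤ 1 / 2 ∧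
      liminf (fun N => freq p q N x c r) atTop < (1 - (1 - s) ^ 2) * (2 * r)} := by
  refine le_of_forall_lt_imp_le_of_dense fun c hc => ?_
  have hcfin : c ≠ ∞ := ne_top_of_lt hc
  set c' : ℝ := c.toReal with hc'
  have hc'0 : 0 ≤ c' := ENNReal.toReal_nonneg
  have hc's : c' < s := by
    rw [← ENNReal.ofReal_toReal hcfin] at hc
    exact (ENNReal.ofReal_lt_ofReal_iff_of_nonneg hc'0).1 hc
  obtain ⟨w, hw1, hw2⟩ := exists_rat_btwn hc's
  have hw0 : (0 : ℝ) < w := lt_of_le_of_lt hc'0 hw1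
  have hw0' : 0 < w := by exact_mod_cast hw0
  have hnum : 0 < w.num := Rat.num_pos.2 hw0'
  set a : ℕ := w.num.toNat with ha
  set b : ℕ := w.den with hb
  have haR : (a : ℝ) = w.num := by
    have : ((w.num.toNat : ℕ) : ℤ) = w.num := Int.toNat_of_nonneg hnum.le
    exact_mod_cast this
  have hab : (w : ℝ) = a / b := by
    rw [haR]; exact_mod_cast (Rat.num_div_den w).symm
  have ha1 : 1 ≤ a := by omega
  have hb1 : 0 < b := w.den_pos
  have hbR : (0 : ℝ) < b := by exact_mod_cast hb1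
  have hablt : a < b := by
    have h1 : (a : ℝ) / b < 1 := by rw [← hab]; linarith
    rw [div_lt_one hbR] at h1
    exact_mod_cast h1
  have haRp : (0 : ℝ) < a := by exact_mod_cast ha1
  -- the growth of the blocks
  obtain ⟨G0, hG0⟩ := exists_nat_ge (2 / ((w : ℝ) - c'))
  set G : ℕ := G0 + b + 2 with hG
  have hGR : 2 / ((w : ℝ) - c') ≤ G := by
    refine hG0.trans ?_
    exact_mod_cast (by omega : G0 ≤ G)
  have hGpos : (0 : ℝ) < G := by
    have : 0 < G := by omega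
    exact_mod_cast this
  have hGb : b < G * a := by
    calc b < G := by omega
      _ = G * 1 := (mul_one G).symm
      _ ≤ G * a := Nat.mul_le_mul_left _ ha1
  have hne : NeZero (p ^ (G + 1)) := ⟨by positivity⟩
  have hbm : 2 * p ^ G ≤ p ^ (G + 1) := by
    have e : p ^ (G + 1) = p * p ^ G := pow_succ' _ _
    rw [e]
    exact Nat.mul_le_mul_right _ hp
  have h1 := free_dim (G := G) ha1 hablt hGb (p := p) (R := G) hp (by omega) hbm
  have h2 := dimH_mono (cantor_sub hp hq hpq hs1 (R := G) (a := a) (b := b) (G := G) hbm hablt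
    (by omega) (by rw [← hab]; exact hw2))
  refine le_trans ?_ (h1.trans h2)
  rw [← ENNReal.ofReal_toReal hcfin]
  apply ENNReal.ofReal_le_ofReal
  rw [← hc']
  have hwc : 0 < (w : ℝ) - c' := by linarith
  have h3 : 2 / (G : ℝ) ≤ w - c' := by
    rw [div_le_iff₀ hwc] at hGR
    rw [div_le_iff₀ hGpos]
    linarith
  have hw1' : (w : ℝ) ≤ 1 := by linarith
  have h4 : (G : ℝ) * (G * a - b) / ((G + 1) * (G * b)) = G / (G + 1) * (w - 1 / G) := by
    rw [hab]; field_simp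
  rw [h4]
  have h5 : (G : ℝ) / (G + 1) * (w - 1 / G) = w - (w + 1) / (G + 1) := by
    field_simp
    ring
  rw [h5]
  have h6 : ((w : ℝ) + 1) / (G + 1) ≤ 2 / G := by
    rw [div_le_div_iff₀ (by positivity) hGpos]
    nlinarith
  linarith

/-- **Covering at one scale.** -/
theorem cover_scale (hpq : Nat.Coprime p q) {s : ℝ} (hs0 : 0 ≤ s) (hs1 : s ≤ 1) {ε : ℝ}
    (hε : 0 < ε) : ∃ N0 : ℕ, ∀ N : ℕ, N0 ≤ N → ∃ F : Finset T, (F.card : ℝ) ≤ (N : ℝ) ^ s ∧
      ∀ x : T, (∃ c : T, ∃ r : ℝ, 0 < r ∧ r ≤ 1 / 2 ∧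
        freq p q N x c r < (1 - (1 - s) ^ 2) * (2 * r) - ε) →
        ∃ y ∈ F, x ∈ Metric.closedBall y (1 / N) := by
  classical
  rcases hs0.eq_or_lt with hs | hs
  · subst hs
    refine ⟨1, fun N _ => ⟨∅, by simp, ?_⟩⟩
    rintro x ⟨c, r, -, -, hlt⟩
    exfalso
    have := freq_nonneg (p := p) (q := q) N x c r
    norm_num at hlt
    linarith
  set s' : ℝ := s - min (s / 2) (ε / 4) with hs'
  have hm1 := min_le_left (s / 2) (ε / 4)
  have hm2 := min_le_right (s / 2) (ε / 4)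
  have hm0 : 0 < min (s / 2) (ε / 4) := by positivity
  have hs'0 : 0 < s' := by rw [hs']; linarith
  have hs's : s' < s := by rw [hs']; linarith
  have hs'1 : s' ≤ 1 := by linarith
  have hss : (1 - (1 - s) ^ 2) ≤ (1 - (1 - s') ^ 2) + ε / 2 := by
    have h1 : (1 - s') ^ 2 - (1 - s) ^ 2 = (s - s') * (2 - s - s') := by ring
    have h2 : (s - s') * (2 - s - s') ≤ (ε / 4) * 2 := by
      apply mul_le_mul _ (by linarith) (by linarith) (by linarith)
      rw [hs']; linarith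
    linarith
  obtain ⟨u0, hu0, v0, E, hE⟩ := cover_main hp hq hpq hs'0 hs'1 (ε := ε / 2) (by positivity)
  have hp1 : (1 : ℝ) < p := by exact_mod_cast (by omega : 1 < p)
  have hp0 : (0 : ℝ) < p := by linarith
  -- number of subdivisions
  set Q : ℕ := p ^ u0 with hQ
  have hρ1 : (1 : ℝ) < (p : ℝ) ^ (s - s') := Real.one_lt_rpow hp1 (by linarith)
  obtain ⟨v1, hv1⟩ := pow_unbounded_of_one_lt (2 * (Q : ℝ) + 1) hρ1
  refine ⟨p ^ (u0 * (v0 + v1)), fun N hN => ?_⟩
  have hpp : 1 < p ^ u0 := Nat.one_lt_pow (by omega) (by omega)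
  have hN1 : 1 ≤ N := le_trans (Nat.one_le_pow _ _ (by omega)) hN
  set v := Nat.log (p ^ u0) N with hv
  have h1 : (p ^ u0) ^ v ≤ N := Nat.pow_log_le_self _ (by omega)
  have h2 : N < (p ^ u0) ^ (v + 1) := Nat.lt_pow_succ_log_self hpp N
  rw [← pow_mul] at h1 h2
  have h3 : v0 + v1 ≤ v := by
    rw [hv]
    refine Nat.le_log_of_pow_le hpp ?_
    rw [← pow_mul]; exact hN
  obtain ⟨hE1, hE2⟩ := hE v (by omega)
  set n := u0 * v with hn
  have hNR : (0 : ℝ) < N := by exact_mod_cast hN1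
  set F : Finset T := ((E v) ×ˢ (Finset.range (2 * Q + 1))).image fun w =>
    gp p n w.1 + ((((w.2 : ℝ) - Q) / (p : ℝ) ^ (n + u0) : ℝ) : T) with hF
  refine ⟨F, ?_, ?_⟩
  · have h4 : (F.card : ℝ) ≤ (E v).card * (2 * Q + 1) := by
      have := Finset.card_image_le (s := (E v) ×ˢ (Finset.range (2 * Q + 1)))
        (f := fun w => gp p n w.1 + ((((w.2 : ℝ) - Q) / (p : ℝ) ^ (n + u0) : ℝ) : T))
      rw [Finset.card_product, Finset.card_range] at this
      have h5 : F.card ≤ (E v).card * (2 * Q + 1) := this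
      have h6 : (F.card : ℝ) ≤ (((E v).card * (2 * Q + 1) : ℕ) : ℝ) := Nat.cast_le.2 h5
      push_cast at h6
      exact h6
    have h5 : (2 * (Q : ℝ) + 1) ≤ (p : ℝ) ^ ((s - s') * (n : ℝ)) := by
      refine hv1.le.trans ?_
      rw [← Real.rpow_natCast, ← Real.rpow_mul hp0.le]
      refine Real.rpow_le_rpow_of_exponent_le hp1.le ?_
      refine mul_le_mul_of_nonneg_left ?_ (by linarith)
      have : v1 ≤ n := by
        rw [hn]
        exact le_trans (by omega) (Nat.le_mul_of_pos_left v hu0)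
      exact_mod_cast this
    have h6 : (F.card : ℝ) ≤ (p : ℝ) ^ (s' * (n : ℝ)) * (p : ℝ) ^ ((s - s') * (n : ℝ)) :=
      h4.trans (mul_le_mul hE1 h5 (by positivity) (by positivity))
    rw [← Real.rpow_add hp0] at h6
    have e : s' * (n : ℝ) + (s - s') * n = (n : ℝ) * s := by ring
    rw [e, Real.rpow_mul hp0.le, Real.rpow_natCast] at h6
    refine h6.trans ?_
    refine Real.rpow_le_rpow (by positivity) ?_ hs.le
    exact_mod_cast h1
  · rintro x ⟨c, r, hr0, hr, hlt⟩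
    obtain ⟨k, hk, hxk⟩ := hE2 N h1 h2 x ⟨c, r, hr, by
      rw [← freq_lt_iff hp hq hpq hN1]
      refine hlt.trans_le ?_
      nlinarith⟩
    obtain ⟨t, ht1, ht2⟩ := Pool.Agent.H847R3.XpXq.exists_rep_norm (x - gp p n k)
    have hpn : (0 : ℝ) < (p : ℝ) ^ n := by positivity
    have hpnu : (0 : ℝ) < (p : ℝ) ^ (n + u0) := by positivity
    have hQR : (Q : ℝ) = (p : ℝ) ^ u0 := by rw [hQ]; push_cast; ring
    have ht3 : |t| ≤ 1 / (p : ℝ) ^ n := by rw [ht2]; exact hxk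
    rw [abs_le] at ht3
    have ht4 : -(Q : ℝ) ≤ t * (p : ℝ) ^ (n + u0) := by
      have h7 : -(1 / (p : ℝ) ^ n) * (p : ℝ) ^ (n + u0) ≤ t * (p : ℝ) ^ (n + u0) :=
        mul_le_mul_of_nonneg_right ht3.1 hpnu.le
      have e : -(1 / (p : ℝ) ^ n) * (p : ℝ) ^ (n + u0) = -(Q : ℝ) := by
        rw [hQR, pow_add]; field_simp
      linarith
    have ht5 : t * (p : ℝ) ^ (n + u0) ≤ Q := by
      have h7 : t * (p : ℝ) ^ (n + u0) ≤ (1 / (p : ℝ) ^ n) * (p : ℝ) ^ (n + u0) :=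
        mul_le_mul_of_nonneg_right ht3.2 hpnu.le
      have e : (1 / (p : ℝ) ^ n) * (p : ℝ) ^ (n + u0) = Q := by
        rw [hQR, pow_add]; field_simp
      linarith
    set j : ℕ := ⌊t * (p : ℝ) ^ (n + u0) + Q⌋₊ with hj
    have hj1 : (j : ℝ) ≤ t * (p : ℝ) ^ (n + u0) + Q := Nat.floor_le (by linarith)
    have hj2 : t * (p : ℝ) ^ (n + u0) + Q < j + 1 := Nat.lt_floor_add_one _
    refine ⟨gp p n k + ((((j : ℝ) - Q) / (p : ℝ) ^ (n + u0) : ℝ) : T), ?_, ?_⟩
    · rw [hF]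
      refine Finset.mem_image.2 ⟨(k, j), Finset.mem_product.2 ⟨hk, ?_⟩, rfl⟩
      rw [Finset.mem_range]
      have : (j : ℝ) < ((2 * Q + 1 : ℕ) : ℝ) := by push_cast; linarith
      exact_mod_cast this
    · rw [Metric.mem_closedBall, dist_eq_norm]
      have e : x - (gp p n k + ((((j : ℝ) - Q) / (p : ℝ) ^ (n + u0) : ℝ) : T)) =
          (((t - ((j : ℝ) - Q) / (p : ℝ) ^ (n + u0) : ℝ)) : T) := by
        rw [AddCircle.coe_sub, ht1]; abel
      rw [e, UnitAddCircle.norm_eq]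
      have h7 := round_le (t - ((j : ℝ) - Q) / (p : ℝ) ^ (n + u0)) 0
      rw [Int.cast_zero, sub_zero] at h7
      refine h7.trans ?_
      have h8 : |t - ((j : ℝ) - Q) / (p : ℝ) ^ (n + u0)| ≤ 1 / (p : ℝ) ^ (n + u0) := by
        have e2 : t - ((j : ℝ) - Q) / (p : ℝ) ^ (n + u0) =
            (t * (p : ℝ) ^ (n + u0) + Q - j) / (p : ℝ) ^ (n + u0) := by
          field_simp
          ring
        rw [e2, abs_div, abs_of_pos hpnu]
        gcongr
        rw [abs_le]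
        constructor <;> linarith
      refine h8.trans ?_
      rw [div_le_div_iff₀ hpnu hNR, one_mul, one_mul]
      have h9 : (N : ℝ) < ((p ^ (u0 * (v + 1)) : ℕ) : ℝ) := by exact_mod_cast h2
      have e3 : u0 * (v + 1) = n + u0 := by rw [hn]; ring
      rw [e3] at h9
      push_cast at h9
      exact h9.le

/-- **The dimension spectrum.** -/
theorem spectrum (hpq : Nat.Coprime p q) {s : ℝ} (hs0 : 0 ≤ s) (hs1 : s ≤ 1) :
    dimH {x : T | ∃ c : T, ∃ r : ℝ, 0 < r ∧ r ≤ 1 / 2 ∧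
      liminf (fun N => freq p q N x c r) atTop < (1 - (1 - s) ^ 2) * (2 * r)} =
      ENNReal.ofReal s := by
  rcases hs0.eq_or_lt with hs | hs
  · subst hs
    have h1 : {x : T | ∃ c : T, ∃ r : ℝ, 0 < r ∧ r ≤ 1 / 2 ∧
        liminf (fun N => freq p q N x c r) atTop < (1 - (1 - (0 : ℝ)) ^ 2) * (2 * r)} = ∅ := by
      rw [Set.eq_empty_iff_forall_notMem]
      rintro x ⟨c, r, -, -, hlt⟩
      have h2 : (0 : ℝ) ≤ liminf (fun N => freq p q N x c r) atTop := by
        refine le_liminf_of_le ?_ (Eventually.of_forall fun N => freq_nonneg N x c r)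
        refine IsBoundedUnder.isCoboundedUnder_ge ?_
        exact ⟨1, eventually_map.2 (Eventually.of_forall fun N => freq_le_one hp hq hpq N x c r)⟩
      norm_num at hlt
      linarith
    rw [h1, dimH_empty, ENNReal.ofReal_zero]
  · exact le_antisymm (dim_upper hp hq hpq hs hs1) (dim_lower hp hq hpq hs1)

end

end Pool.Agent.Y314.FD
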