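import Pool.Agent.Y314.FD.Strip

/-!
The cluster lemma for thin strips restricted to a set of columns of positive density.
-/

set_option autoImplicit false

open Filter Topology Set

namespace Pool.Agent.Y314.FD

open Pool.Agent.W764.FB Pool.Agent.W764.SH Pool.Agent.W764.HL

lemma harmonic_le (W : ℕ) : ∑ m ∈ Finset.range W, 1 / ((m : ℝ) + 1) ≤ 1 + Real.log W := by
  have h1 := harmonic_le_one_add_log W
  have h2 : ((harmonic W : ℚ) : ℝ) = ∑ m ∈ Finset.range W, 1 / ((m : ℝ) + 1) := by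
    unfold harmonic
    push_cast
    exact Finset.sum_congr rfl fun m _ => by rw [one_div]
  rw [← h2]; exact h1

section
variable {p q : ℕ} (hp : 2 ≤ p) (hq : 2 ≤ q)
include hp hq

/-- few multiples in an arc, for positive reals -/
lemma strip_arc {w W : ℕ} {A : Finset ℕ} (hA : A ⊆ Finset.range w) {ε : ℝ}
    (hvis : ∀ x δ : ℝ, 0 ≤ δ →
      ((vis (Real.log p) (Real.log q) w x δ).card : ℝ) ≤ (δ / Real.log q + ε) * w)
    {x L d : ℝ} (hd1 : Real.exp (-x) ≤ d) (hd2 : d ≤ Real.exp (L - x))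
    (hW : Real.exp (2 * L) + 2 ≤ W) {r : ℝ} (hr : 0 < r) (hr8 : r ≤ 1 / 8) {c : ℝ} (hc0 : 0 ≤ c)
    (hc1 : c < 1) :
    (hit p q (slw (Real.log p) (Real.log q) A x L) ((d : ℝ) : T) ((c : ℝ) : T) r : ℝ) ≤
      (5 * r * (1 + Real.log W) / Real.log q + W * ε) * w := by
  classical
  obtain ⟨hlp, hlq⟩ := log_pos' hp hq
  have hd0 : 0 < d := (Real.exp_pos _).trans_le hd1
  set α := Real.log p with hα
  set β := Real.log q with hβ
  have hlq2 : 5 * r ≤ β := by
    have h1 : Real.log 2 ≤ β := by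
      rw [hβ]
      exact Real.log_le_log (by norm_num) (by exact_mod_cast hq)
    have := Real.log_two_gt_d9
    linarith
  set X : ℕ → ℝ := fun m => Real.log ((m : ℝ) + c - r) - Real.log d with hX
  have hsub : ((slw α β A x L).filter fun u => ‖mul p q u • ((d : ℝ) : T) - ((c : ℝ) : T)‖ ≤ r) ⊆
      (Finset.range W).biUnion fun m => slw α β A (X m) (5 * r / (m + 1)) := by
    intro u hu
    rw [Finset.mem_filter, mem_slw hlp hlq] at hu
    obtain ⟨⟨hu1, hu2, hu3⟩, hu4⟩ := hu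
    have hn0 := mul_pos' hp hq u
    rw [← mul_log hp hq u] at hu2 hu3
    have h1 : Real.exp x ≤ mul p q u := (Real.le_log_iff_exp_le hn0).1 hu2
    have h2 : (mul p q u : ℝ) < Real.exp (x + L) := (Real.log_lt_iff_lt_exp hn0).1 hu3
    have h3 : 1 ≤ (mul p q u : ℝ) * d := by
      calc (1 : ℝ) = Real.exp x * Real.exp (-x) := by rw [← Real.exp_add]; simp
        _ ≤ _ := by gcongr
    have h4 : (mul p q u : ℝ) * d + 2 ≤ W := by
      have h5 : (mul p q u : ℝ) * d ≤ Real.exp (x + L) * Real.exp (L - x) := by gcongr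
      rw [← Real.exp_add] at h5
      have e : x + L + (L - x) = 2 * L := by ring
      rw [e] at h5
      linarith
    obtain ⟨m, hm, h5, h6, h7⟩ := arc_pos hc0 hc1 hr hr8 hd0 h3 h4 hu4
    rw [Finset.mem_biUnion]
    refine ⟨m, hm, ?_⟩
    rw [mem_slw hlp hlq, ← mul_log hp hq u]
    exact ⟨hu1, h6, h7⟩
  have h1 : (hit p q (slw α β A x L) ((d : ℝ) : T) ((c : ℝ) : T) r : ℝ) ≤
      ∑ m ∈ Finset.range W, ((slw α β A (X m) (5 * r / (m + 1))).card : ℝ) := by
    unfold hit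
    have := (Finset.card_le_card hsub).trans Finset.card_biUnion_le
    have h2 : ((((slw α β A x L).filter fun u => ‖mul p q u • ((d : ℝ) : T) - ((c : ℝ) : T)‖ ≤
        r).card : ℕ) : ℝ) ≤
        ((∑ m ∈ Finset.range W, (slw α β A (X m) (5 * r / ((m : ℝ) + 1))).card : ℕ) : ℝ) :=
      Nat.cast_le.2 this
    rw [Nat.cast_sum] at h2
    refine le_trans (le_of_eq ?_) h2
    congr
  refine h1.trans ?_
  have h2 : ∀ m ∈ Finset.range W, ((slw α β A (X m) (5 * r / (m + 1))).card : ℝ) ≤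
      (5 * r / β * (1 / ((m : ℝ) + 1)) + ε) * w := by
    intro m _
    have h3 : 5 * r / ((m : ℝ) + 1) ≤ β := by
      refine le_trans ?_ hlq2
      exact div_le_self (by positivity) (by linarith [(Nat.cast_nonneg m : (0 : ℝ) ≤ m)])
    have h4 := thin_card hlp hlq hA (X m) h3
    have h5 := hvis (X m) (5 * r / ((m : ℝ) + 1)) (by positivity)
    have h6 : ((slw α β A (X m) (5 * r / (m + 1))).card : ℝ) ≤
        (vis α β w (X m) (5 * r / ((m : ℝ) + 1))).card := by exact_mod_cast h4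
    refine h6.trans (h5.trans (le_of_eq ?_))
    congr 2
    field_simp
  refine (Finset.sum_le_sum h2).trans ?_
  rw [← Finset.sum_mul, Finset.sum_add_distrib, ← Finset.mul_sum, Finset.sum_const,
    Finset.card_range, nsmul_eq_mul]
  refine mul_le_mul_of_nonneg_right ?_ (Nat.cast_nonneg _)
  have h3 := harmonic_le W
  have h4 : 5 * r / β * ∑ m ∈ Finset.range W, 1 / ((m : ℝ) + 1) ≤ 5 * r / β * (1 + Real.log W) :=
    mul_le_mul_of_nonneg_left h3 (by positivity)
  have e : 5 * r * (1 + Real.log W) / β = 5 * r / β * (1 + Real.log W) := by ring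
  rw [e]
  linarith

/-- few multiples in an arc -/
lemma strip_arc' {w W : ℕ} {A : Finset ℕ} (hA : A ⊆ Finset.range w) {ε : ℝ}
    (hvis : ∀ x δ : ℝ, 0 ≤ δ →
      ((vis (Real.log p) (Real.log q) w x δ).card : ℝ) ≤ (δ / Real.log q + ε) * w)
    {x L : ℝ} {z : T} (hd1 : Real.exp (-x) ≤ ‖z‖) (hd2 : ‖z‖ ≤ Real.exp (L - x))
    (hW : Real.exp (2 * L) + 2 ≤ W) {r : ℝ} (hr : 0 < r) (hr8 : r ≤ 1 / 8) (c : T) :
    (hit p q (slw (Real.log p) (Real.log q) A x L) z c r : ℝ) ≤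
      (5 * r * (1 + Real.log W) / Real.log q + W * ε) * w := by
  rcases eq_or_neg z with hz | hz
  · obtain ⟨y, hx0, hx1, rfl⟩ := exists_rep c
    have := strip_arc hp hq hA hvis hd1 hd2 hW hr hr8 hx0 hx1
    rwa [← hz] at this
  · obtain ⟨y, hx0, hx1, hx⟩ := exists_rep (-c)
    have := strip_arc hp hq hA hvis hd1 hd2 hW hr hr8 hx0 hx1
    refine le_trans (le_of_eq ?_) this
    unfold hit
    congr 2
    refine Finset.filter_congr fun n _ => ?_
    have e : mul p q n • z - c = -(mul p q n • ((‖z‖ : ℝ) : T) - ((y : ℝ) : T)) := by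
      rw [hx]
      conv_lhs => rw [hz]
      rw [smul_neg]; abel
    rw [e, norm_neg]

omit hp hq in
lemma arith1 {N Ac Bc Y Z H : ℝ} (hN : 0 < N) (hA : 0 < Ac) (hB : 0 ≤ Bc) (hH : 8 * N ≤ H)
    (hBH : H * Bc ≤ Ac) (hY : 4 * N * Z ≤ Y - 1) (hY3 : 3 ≤ Y) {Uc : ℝ} (hU : Ac * (Y - 1) ≤ Uc) :
    Bc * (Y + 1) + Ac * Z ≤ 1 / (2 * N) * Uc := by
  have h2 : 8 * N * Bc ≤ Ac := (mul_le_mul_of_nonneg_right hH hB).trans hBH
  have h3 : Bc ≤ Ac / (8 * N) := by
    rw [le_div_iff₀ (by positivity)]; linarith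
  have h4 : Y + 1 ≤ 2 * (Y - 1) := by linarith
  have h5 : Bc * (Y + 1) ≤ Ac / (8 * N) * (2 * (Y - 1)) :=
    mul_le_mul h3 h4 (by linarith) (by positivity)
  have h6 : Ac * Z ≤ Ac * ((Y - 1) / (4 * N)) := by
    apply mul_le_mul_of_nonneg_left _ hA.le
    rw [le_div_iff₀ (by positivity)]
    linarith
  have h7 : 1 / (2 * N) * (Ac * (Y - 1)) ≤ 1 / (2 * N) * Uc :=
    mul_le_mul_of_nonneg_left hU (by positivity)
  have e : Ac / (8 * N) * (2 * (Y - 1)) + Ac * ((Y - 1) / (4 * N)) =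
      1 / (2 * N) * (Ac * (Y - 1)) := by
    field_simp
    ring
  linarith

omit hp hq in
lemma arith2 {N Ac Y : ℝ} (hN : 0 < N) (hA : 0 < Ac) (hY : 4 * N ≤ Y - 1) {Uc : ℝ}
    (hU : Ac * (Y - 1) ≤ Uc) : Ac * 2 ≤ 1 / (2 * N) * Uc := by
  have h7 : 1 / (2 * N) * (Ac * (Y - 1)) ≤ 1 / (2 * N) * Uc :=
    mul_le_mul_of_nonneg_left hU (by positivity)
  refine le_trans ?_ h7
  have h9 : 2 ≤ 1 / (2 * N) * (Y - 1) := by
    rw [div_mul_eq_mul_div, one_mul, le_div_iff₀ (by positivity)]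
    linarith
  calc Ac * 2 ≤ Ac * (1 / (2 * N) * (Y - 1)) := mul_le_mul_of_nonneg_left h9 hA.le
    _ = _ := by ring

omit hp hq in
lemma arith3 {N β L η w Ac Uc k W lW : ℝ} (hN : 0 < N) (hβ : 0 < β) (hL : 0 < L) (hη : 0 < η)
    (hk : 0 < k) (hW : 0 < W) (hw : 0 ≤ w) (hA : 0 < Ac) (hAη : η * w ≤ Ac) (hLβ : 2 * β ≤ L)
    (hU : Ac * (L / β - 1) ≤ Uc) (hlW : lW ≤ 3 * L) :
    (5 * (1 / k) * lW / β + W * (η * L / (2 * β * N * W))) * w ≤
      (30 / η * (1 / k) + 1 / N) * Uc := by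
  have h4 : w ≤ Ac / η := by
    rw [le_div_iff₀ hη]; linarith
  have h5 : Ac ≤ 2 * β / L * Uc := by
    have h6 : L / (2 * β) ≤ L / β - 1 := by
      have e : L / β = L / (2 * β) + L / (2 * β) := by field_simp; norm_num
      have h7 : 1 ≤ L / (2 * β) := by
        rw [le_div_iff₀ (by positivity)]
        linarith
      linarith
    have h8 : Ac * (L / (2 * β)) ≤ Uc := (mul_le_mul_of_nonneg_left h6 hA.le).trans hU
    have e : (2 * β / L) * (Ac * (L / (2 * β))) = Ac := by field_simp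
    calc Ac = (2 * β / L) * (Ac * (L / (2 * β))) := e.symm
      _ ≤ _ := mul_le_mul_of_nonneg_left h8 (by positivity)
  have h6 : w ≤ 2 * β / (L * η) * Uc := by
    refine h4.trans ?_
    rw [div_le_iff₀ hη]
    refine h5.trans (le_of_eq ?_)
    field_simp
  have h7 : 5 * (1 / k) * lW / β + W * (η * L / (2 * β * N * W)) ≤
      5 * (1 / k) * (3 * L) / β + W * (η * L / (2 * β * N * W)) := by gcongr
  have hU0 : 0 < Uc := by
    have : 0 < Ac * (L / β - 1) := by
      have : 2 ≤ L / β := by rw [le_div_iff₀ hβ]; exact hLβ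
      have : 0 < L / β - 1 := by linarith
      positivity
    linarith
  calc (5 * (1 / k) * lW / β + W * (η * L / (2 * β * N * W))) * w
      ≤ (5 * (1 / k) * (3 * L) / β + W * (η * L / (2 * β * N * W))) * w := by
        exact mul_le_mul_of_nonneg_right h7 hw
    _ ≤ (5 * (1 / k) * (3 * L) / β + W * (η * L / (2 * β * N * W))) *
          (2 * β / (L * η) * Uc) := mul_le_mul_of_nonneg_left h6 (by positivity)
    _ = (30 / η * (1 / k) + 1 / N) * Uc := by
        field_simp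
        ring

/-- **Clusters at one scale, for strips restricted to a set of columns.** -/
theorem strip_cluster (hpq : Nat.Coprime p q) {ε : ℝ} (hε : 0 < ε) {η : ℝ} (hη : 0 < η) :
    ∃ m : ℕ, 1 ≤ m ∧ ∃ h0 : ℕ, ∃ L0 : ℝ, ∀ L : ℝ, L0 ≤ L → ∃ w0 : ℕ, ∀ w : ℕ, w0 ≤ w →
      ∀ h : ℕ, h0 ≤ h → ∀ A : Finset ℕ, A ⊆ Finset.range w → η * w ≤ A.card →
      h * (A.filter fun a => a + 1 ∉ A).card ≤ A.card → ∀ x : ℝ, w * Real.log p ≤ x →
      ∀ y : Fin m → T, (∀ i j, i ≠ j →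
        Real.exp (-x) ≤ ‖y i - y j‖ ∧ ‖y i - y j‖ ≤ Real.exp (L - x)) →
      ∃ i, Good p q ε (slw (Real.log p) (Real.log q) A x L) (y i) := by
  have hirr := irr_of_coprime hp hq hpq
  obtain ⟨hlp, hlq⟩ := log_pos' hp hq
  obtain ⟨m, hm, N, hN8, hN⟩ := cluster_gen hp hq hpq (C := 30 / η) (by positivity) hε
  have hN0 : (0 : ℝ) < N := by
    have : 0 < N := by omega
    exact_mod_cast this
  set α := Real.log p with hα
  set β := Real.log q with hβ
  refine ⟨m, hm, 8 * N, max 4 (β * (1 + 4 * N * (α / β + 1)) + 2 * β), fun L hL => ?_⟩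
  have hL4 : 4 ≤ L := (le_max_left _ _).trans hL
  have hL0 : 0 < L := by linarith
  have hLβ : β * (1 + 4 * N * (α / β + 1)) + 2 * β ≤ L := (le_max_right _ _).trans hL
  set W : ℕ := ⌈Real.exp (2 * L) + 2⌉₊ with hW
  have hW1 : Real.exp (2 * L) + 2 ≤ W := Nat.le_ceil _
  have hW0 : (0 : ℝ) < W := lt_of_lt_of_le (by positivity) hW1
  have hW2 : 1 + Real.log W ≤ 3 * L := by
    have h1 : (W : ℝ) < Real.exp (2 * L) + 2 + 1 := Nat.ceil_lt_add_one (by positivity)
    have h2 : Real.exp (2 * L) + 2 + 1 ≤ Real.exp (2 * L + 1) := by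
      rw [Real.exp_add]
      have h3 := Real.add_one_le_exp (2 * L)
      have h4 := Real.add_one_le_exp (1 : ℝ)
      nlinarith
    have h3 : Real.log W ≤ 2 * L + 1 := by
      rw [← Real.log_exp (2 * L + 1)]
      exact Real.log_le_log hW0 (h1.le.trans h2)
    linarith
  set ε' : ℝ := η * L / (2 * β * N * W) with hε'
  have hε'0 : 0 < ε' := by positivity
  obtain ⟨w1, hw1⟩ := vis_le hlq hirr hε'0
  refine ⟨w1 + 1, fun w hw h hh A hA hAη hAh x hx y hy => ?_⟩
  have hw0 : (0 : ℝ) < w := by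
    have : 0 < w := by omega
    exact_mod_cast this
  have hvis := hw1 w (by omega)
  have hAR : (0 : ℝ) < A.card := lt_of_lt_of_le (by positivity) hAη
  have hA0 : 0 < A.card := by exact_mod_cast hAR
  have hAx : ∀ a ∈ A, (a : ℝ) * α ≤ x := by
    intro a ha
    have h1 : (a : ℝ) ≤ w := by
      have := Finset.mem_range.1 (hA ha)
      exact_mod_cast this.le
    exact (mul_le_mul_of_nonneg_right h1 hlp.le).trans hx
  set U := slw α β A x L with hU
  have hcard : A.card * (L / β - 1) ≤ (U.card : ℝ) := le_card_slw hlp hlq L hAx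
  have hLβ2 : 4 * N * (α / β + 1) + 3 ≤ L / β := by
    rw [le_div_iff₀ hlq]
    have e : (4 * N * (α / β + 1) + 3) * β = β * (1 + 4 * N * (α / β + 1)) + 2 * β := by ring
    rw [e]; exact hLβ
  have hαβ : 0 < α / β := by positivity
  have hLβ1 : 0 < L / β - 1 := by
    have : 0 < 4 * (N : ℝ) * (α / β + 1) := by positivity
    linarith
  have hU0 : (0 : ℝ) < U.card := lt_of_lt_of_le (by positivity) hcard
  have hUne : U.Nonempty := Finset.card_pos.1 (by exact_mod_cast hU0)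
  have h4N : 4 * (N : ℝ) ≤ L / β - 1 := by
    have : 4 * (N : ℝ) * (α / β + 1) = 4 * N * (α / β) + 4 * N := by ring
    have h2 : 0 < 4 * (N : ℝ) * (α / β) := by positivity
    linarith
  refine hN U hUne ?_ ?_ y ?_
  · refine (slw_inv1 hlp hlq A x (L := L) hL0.le).trans ?_
    exact arith1 (H := (h : ℝ)) hN0 hAR (Nat.cast_nonneg _) (by exact_mod_cast hh)
      (by exact_mod_cast hAh) (by linarith) (by
        have : (8 : ℝ) ≤ N := by exact_mod_cast hN8
        linarith) hcard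
  · refine (slw_inv2 hlp hlq A x L).trans ?_
    exact arith2 hN0 hAR h4N hcard
  · intro i j hij c k hk1 hk2
    obtain ⟨h1, h2⟩ := hy i j hij
    have hkR : (8 : ℝ) ≤ k := by exact_mod_cast hk1
    have hk8 : (1 : ℝ) / k ≤ 1 / 8 := by
      rw [div_le_div_iff₀ (by linarith) (by norm_num)]; linarith
    have h3 := strip_arc' hp hq hA hvis h1 h2 hW1 (r := 1 / (k : ℝ)) (by positivity) hk8 c
    refine h3.trans ?_
    refine arith3 hN0 hlq hL0 hη (by linarith) hW0 hw0.le hAR hAη ?_ hcard hW2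
    have h5 : 0 < β * (1 + 4 * N * (α / β + 1)) := by positivity
    linarith

end

end Pool.Agent.Y314.FD
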