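import Pool.Agent.Y314.FD.Padic
import Pool.Agent.Y314.FD.Real

/-!
Grid points `k / p ^ n` and one step of the two counting arguments.
-/

set_option autoImplicit false

open Filter Topology Set

namespace Pool.Agent.Y314.FD

open Pool.Agent.W764.FB Pool.Agent.W764.SH Pool.Agent.W764.HL

/-- the grid point `k / p ^ n` -/
noncomputable def gp (p n k : ℕ) : T := (((k : ℝ) / (p : ℝ) ^ n : ℝ) : T)

lemma gp_smul {p n k i : ℕ} (hp : 2 ≤ p) (hi : i ≤ n) : p ^ i • gp p n k = gp p (n - i) k := by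
  unfold gp
  have hp0 : (p : ℝ) ≠ 0 := by
    have : p ≠ 0 := by omega
    exact_mod_cast this
  rw [← AddCircle.coe_nsmul, nsmul_eq_mul]
  congr 1
  have e : (p : ℝ) ^ n = p ^ (n - i) * p ^ i := by rw [← pow_add]; congr 1; omega
  rw [e]
  push_cast
  field_simp

lemma gp_eq_iff {p n k k' : ℕ} (hp : 2 ≤ p) : gp p n k = gp p n k' ↔ k % p ^ n = k' % p ^ n := by
  have hp0 : (p : ℝ) ^ n ≠ 0 := by
    have : p ≠ 0 := by omega
    exact pow_ne_zero _ (by exact_mod_cast this)
  unfold gp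
  rw [← sub_eq_zero, ← AddCircle.coe_sub, AddCircle.coe_eq_zero_iff]
  have h1 : k % p ^ n = k' % p ^ n ↔ ((p ^ n : ℕ) : ℤ) ∣ (k : ℤ) - k' := by
    rw [← Int.modEq_iff_dvd]
    constructor
    · intro h
      show (k' : ℤ) % _ = (k : ℤ) % _
      exact_mod_cast h.symm
    · intro h
      have h2 : (k' : ℤ) % ((p ^ n : ℕ) : ℤ) = (k : ℤ) % ((p ^ n : ℕ) : ℤ) := h
      exact_mod_cast h2.symm
  rw [h1]
  constructor
  · rintro ⟨z, hz⟩
    refine ⟨z, ?_⟩
    rw [zsmul_eq_mul, mul_one] at hz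
    have h2 : ((k : ℝ) - k') = p ^ n * z := by
      rw [hz]; field_simp
    exact_mod_cast h2
  · rintro ⟨z, hz⟩
    refine ⟨z, ?_⟩
    rw [zsmul_eq_mul, mul_one]
    have h2 : ((k : ℝ) - k') = p ^ n * z := by exact_mod_cast hz
    rw [← sub_div, h2]
    field_simp

lemma gp_norm {p n k k' : ℕ} (hp : 2 ≤ p) (hk : k ≤ k') (h2 : 2 * (k' - k) ≤ p ^ n) :
    ‖gp p n k' - gp p n k‖ = ((k' - k : ℕ) : ℝ) / p ^ n ∧
      ‖gp p n k - gp p n k'‖ = ((k' - k : ℕ) : ℝ) / p ^ n := by
  have hp0 : (0 : ℝ) < (p : ℝ) ^ n := by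
    have : 0 < p ^ n := by positivity
    exact_mod_cast this
  have h1 : ‖gp p n k' - gp p n k‖ = ((k' - k : ℕ) : ℝ) / p ^ n := by
    unfold gp
    rw [← AddCircle.coe_sub, ← sub_div, ← Nat.cast_sub hk]
    have h3 : (0 : ℝ) ≤ ((k' - k : ℕ) : ℝ) / p ^ n := by positivity
    have h4 := (AddCircle.norm_coe_eq_abs_iff (p := (1 : ℝ)) (x := ((k' - k : ℕ) : ℝ) / p ^ n)
      one_ne_zero).2 (by
        rw [abs_of_nonneg h3, abs_one, div_le_div_iff₀ hp0 (by norm_num)]
        have : ((2 * (k' - k) : ℕ) : ℝ) ≤ ((p ^ n : ℕ) : ℝ) := by exact_mod_cast h2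
        push_cast at this
        rw [one_mul, mul_comm]
        exact this)
    rw [h4, abs_of_nonneg h3]
  exact ⟨h1, by rw [norm_sub_rev, h1]⟩

/-- a large fibre contains `m` distinct points -/
lemma fibre_bound {β : Type} [DecidableEq β] {X : Finset ℕ} {f : ℕ → ℕ} {φ : ℕ → β} {m : ℕ}
    {t : β} (H : ∀ y : Fin m → ℕ, (∀ i, y i ∈ X) → (∀ i, φ (f (y i)) = t) →
      (∀ i j, i ≠ j → f (y i) ≠ f (y j)) → False) :
    ((X.image f).filter fun a => φ a = t).card ≤ m := by
  by_contra hcon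
  push Not at hcon
  obtain ⟨S, hS, hScard⟩ := Finset.exists_subset_card_eq hcon.le
  have h1 : ∀ i : Fin m, ∃ k ∈ X, f k = S.orderEmbOfFin hScard i ∧ φ (f k) = t := by
    intro i
    have h2 := hS (Finset.orderEmbOfFin_mem S hScard i)
    rw [Finset.mem_filter, Finset.mem_image] at h2
    obtain ⟨⟨k, hk, hk2⟩, h3⟩ := h2
    exact ⟨k, hk, hk2, by rw [hk2]; exact h3⟩
  choose y hy1 hy2 hy3 using h1
  refine H y hy1 hy3 fun i j hij h => hij ?_
  rw [hy2, hy2] at h
  exact (S.orderEmbOfFin hScard).injective h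

/-- one step of a tree -/
lemma tree_step {X : Finset ℕ} {f φ : ℕ → ℕ} {c : ℕ}
    (H : ∀ t, ((X.image f).filter fun a => φ a = t).card ≤ c) :
    (X.image f).card ≤ c * (X.image fun k => φ (f k)).card := by
  have h1 := Finset.card_le_mul_card_image (f := φ) (X.image f) c (fun a _ => H a)
  rwa [Finset.image_image] at h1

/-- number of residues modulo `p ^ i` -/
def nm (p : ℕ) (X : Finset ℕ) (i : ℕ) : ℕ := (X.image fun k => k % p ^ i).card

lemma nm_free {p : ℕ} (hp : 2 ≤ p) (X : Finset ℕ) (i h : ℕ) :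
    nm p X (i + h) ≤ p ^ h * nm p X i := by
  have hpi : 0 < p ^ i := by positivity
  have h1 := tree_step (X := X) (f := fun k => k % p ^ (i + h)) (φ := fun k => k % p ^ i)
    (c := p ^ h) (fun t => by
      refine (Finset.card_le_card_of_injOn (t := Finset.range (p ^ h)) (fun a => a / p ^ i)
        ?_ ?_).trans (by rw [Finset.card_range])
      · intro a ha
        rw [Finset.mem_coe, Finset.mem_filter, Finset.mem_image] at ha
        obtain ⟨⟨k, -, rfl⟩, -⟩ := ha
        rw [Finset.mem_coe, Finset.mem_range]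
        refine Nat.div_lt_of_lt_mul ?_
        rw [← pow_add]
        exact Nat.mod_lt _ (by positivity)
      · intro a ha b hb hab
        rw [Finset.mem_coe, Finset.mem_filter] at ha hb
        simp only at hab
        rw [← Nat.div_add_mod a (p ^ i), ← Nat.div_add_mod b (p ^ i), hab, ha.2, hb.2])
  refine h1.trans (le_of_eq ?_)
  unfold nm
  congr 2
  refine Finset.image_congr fun k _ => ?_
  exact Nat.mod_mod_of_dvd k (pow_dvd_pow p (by omega))

lemma nm_anti {p : ℕ} (X : Finset ℕ) {i i' : ℕ} (hi : i ≤ i') : nm p X i ≤ nm p X i' := by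
  unfold nm
  have : X.image (fun k => k % p ^ i) = (X.image fun k => k % p ^ i').image fun k => k % p ^ i := by
    rw [Finset.image_image]
    refine Finset.image_congr fun k _ => ?_
    exact (Nat.mod_mod_of_dvd k (pow_dvd_pow p hi)).symm
  rw [this]
  exact Finset.card_image_le

lemma nm_top {p : ℕ} {X : Finset ℕ} {n : ℕ} (hX : X ⊆ Finset.range (p ^ n)) :
    nm p X n = X.card := by
  unfold nm
  rw [Finset.card_image_of_injOn]
  intro a ha b hb hab
  simp only at hab
  have h1 := Finset.mem_range.1 (hX ha)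
  have h2 := Finset.mem_range.1 (hX hb)
  rwa [Nat.mod_eq_of_lt h1, Nat.mod_eq_of_lt h2] at hab

/-- a bad block -/
lemma nm_bad {p q : ℕ} (hp : 2 ≤ p) {ε : ℝ} {m h L : ℕ}
    (hcl : ∀ x : Fin m → T, (∀ i j, p ^ (3 * h) • (x i - x j) = 0) →
        (∀ i j, i ≠ j → p ^ (2 * h) • (x i - x j) ≠ 0) → ∃ i, Good p q ε (box h L) (x i))
    {J j : ℕ} (hj : j + 3 ≤ J) {X : Finset ℕ}
    (hX : ∀ k ∈ X, ¬ Good p q ε (box h L) (p ^ (j * h) • gp p (J * h) k)) :
    nm p X ((J - (j + 2)) * h) ≤ m * nm p X ((J - (j + 3)) * h) := by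
  have hjh : (j + 3) * h ≤ J * h := Nat.mul_le_mul_right _ hj
  have e2 : J * h - (j + 2) * h = (J - (j + 2)) * h := (Nat.mul_sub_right_distrib _ _ _).symm
  have e3 : J * h - (j + 3) * h = (J - (j + 3)) * h := (Nat.mul_sub_right_distrib _ _ _).symm
  have hjh2 : (j + 2) * h ≤ J * h := Nat.mul_le_mul_right _ (by omega)
  have h1 := tree_step (X := X) (f := fun k => k % p ^ ((J - (j + 2)) * h))
    (φ := fun k => k % p ^ ((J - (j + 3)) * h)) (c := m) (fun t => by
      refine fibre_bound fun y hy1 hy2 hy3 => ?_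
      obtain ⟨i, hi⟩ := hcl (fun i => p ^ (j * h) • gp p (J * h) (y i)) (by
        intro i i'
        rw [← smul_sub, ← mul_smul, ← pow_add, smul_sub]
        have e : 3 * h + j * h = (j + 3) * h := by ring
        rw [e, gp_smul hp hjh, gp_smul hp hjh, e3, sub_eq_zero, gp_eq_iff hp]
        have h2 := hy2 i
        have h3 := hy2 i'
        have hdvd : p ^ ((J - (j + 3)) * h) ∣ p ^ ((J - (j + 2)) * h) :=
          pow_dvd_pow p (Nat.mul_le_mul_right _ (by omega))
        rw [Nat.mod_mod_of_dvd _ hdvd] at h2 h3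
        rw [h2, h3]) (by
        intro i i' hii
        rw [← smul_sub, ← mul_smul, ← pow_add, smul_sub]
        have e : 2 * h + j * h = (j + 2) * h := by ring
        rw [e, gp_smul hp hjh2, gp_smul hp hjh2, e2, Ne, sub_eq_zero, gp_eq_iff hp]
        exact hy3 i i' hii)
      exact hX (y i) (hy1 i) hi)
  refine h1.trans (le_of_eq ?_)
  unfold nm
  congr 2
  refine Finset.image_congr fun k _ => ?_
  exact Nat.mod_mod_of_dvd k (pow_dvd_pow p (Nat.mul_le_mul_right _ (by omega)))

/-- number of cells of length `p ^ (-l h)` -/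
def cm (p h N : ℕ) (X : Finset ℕ) (l : ℕ) : ℕ :=
  (X.image fun k => (k % p ^ (N * h)) / p ^ ((N - l) * h)).card

lemma cm_top {p : ℕ} {h N : ℕ} (X : Finset ℕ) : cm p h N X N = nm p X (N * h) := by
  unfold cm nm
  simp

lemma cell_div {p h N l k : ℕ} (hl : l + 1 ≤ N) :
    k / p ^ ((N - (l + 1)) * h) / p ^ h = k / p ^ ((N - l) * h) := by
  rw [Nat.div_div_eq_div_mul, ← pow_add]
  congr 2
  have : N - l = N - (l + 1) + 1 := by omega
  rw [this]; ring

lemma cm_free {p : ℕ} (hp : 2 ≤ p) {h N l : ℕ} (X : Finset ℕ) (hl : l + 1 ≤ N) :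
    cm p h N X (l + 1) ≤ p ^ h * cm p h N X l := by
  have hph : 0 < p ^ h := by positivity
  have h1 := tree_step (X := X) (f := fun k => (k % p ^ (N * h)) / p ^ ((N - (l + 1)) * h))
    (φ := fun k => k / p ^ h) (c := p ^ h) (fun t => by
      refine (Finset.card_le_card_of_injOn (t := Finset.range (p ^ h)) (fun a => a % p ^ h)
        ?_ ?_).trans (by rw [Finset.card_range])
      · intro a _
        rw [Finset.mem_coe, Finset.mem_range]
        exact Nat.mod_lt _ hph
      · intro a ha b hb hab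
        rw [Finset.mem_coe, Finset.mem_filter] at ha hb
        simp only at hab
        rw [← Nat.div_add_mod a (p ^ h), ← Nat.div_add_mod b (p ^ h), hab, ha.2, hb.2])
  refine h1.trans (le_of_eq ?_)
  unfold cm
  congr 2
  exact Finset.image_congr fun k _ => cell_div hl

lemma cm_zero {p : ℕ} (hp : 2 ≤ p) {h N : ℕ} (X : Finset ℕ) : cm p h N X 0 ≤ 1 := by
  unfold cm
  have : (X.image fun k => (k % p ^ (N * h)) / p ^ ((N - 0) * h)) ⊆ {0} := by
    intro a ha
    obtain ⟨k, -, rfl⟩ := Finset.mem_image.1 ha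
    rw [Finset.mem_singleton, Nat.sub_zero]
    exact Nat.div_eq_of_lt (Nat.mod_lt _ (by positivity))
  exact (Finset.card_le_card this).trans (by simp)

/-- two points in the same cell and in different subcells with the same parity -/
lemma cell_dist {p : ℕ} (hp : 2 ≤ p) {h N l : ℕ} (hh : 1 ≤ h) (hl1 : 1 ≤ l) (hlN : l + 1 ≤ N)
    {a b : ℕ} (hab : a / p ^ ((N - l) * h) = b / p ^ ((N - l) * h))
    (hne : a / p ^ ((N - (l + 1)) * h) ≠ b / p ^ ((N - (l + 1)) * h))
    (hpar : a / p ^ ((N - (l + 1)) * h) % 2 = b / p ^ ((N - (l + 1)) * h) % 2) :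
    Real.exp (-(((l + 1 : ℕ) : ℝ) * (h * Real.log p))) ≤ ‖gp p (N * h) a - gp p (N * h) b‖ ∧
      ‖gp p (N * h) a - gp p (N * h) b‖ ≤
        Real.exp (h * Real.log p - ((l + 1 : ℕ) : ℝ) * (h * Real.log p)) := by
  have hp0 : (0 : ℝ) < p := by
    have : 0 < p := by omega
    exact_mod_cast this
  wlog hlt : a < b generalizing a b
  · have hba : b < a := by
      rcases lt_trichotomy a b with h1 | h1 | h1
      · exact absurd h1 hlt
      · exact absurd (by rw [h1]) hne
      · exact h1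
    have := this hab.symm hne.symm hpar.symm hba
    rwa [norm_sub_rev] at this
  set E' : ℕ := p ^ ((N - (l + 1)) * h) with hE'
  set E : ℕ := p ^ ((N - l) * h) with hE
  have hE'0 : 0 < E' := by positivity
  have hE0 : 0 < E := by positivity
  have h1 : a / E' < b / E' := lt_of_le_of_ne (Nat.div_le_div_right hlt.le) hne
  have h2 : a / E' + 2 ≤ b / E' := by omega
  have h3 : E' ≤ b - a := by
    have h4 : a < E' * (a / E') + E' := by
      have := Nat.div_add_mod a E'
      have := Nat.mod_lt a hE'0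
      omega
    have h5 : E' * (b / E') ≤ b := Nat.mul_div_le b E'
    have h6 : E' * (a / E' + 2) ≤ E' * (b / E') := Nat.mul_le_mul_left _ h2
    have h7 : E' * (a / E' + 2) = E' * (a / E') + E' + E' := by ring
    omega
  have h4 : b - a ≤ E := by
    have h5 : E * (a / E) ≤ a := Nat.mul_div_le a E
    have h6 : b < E * (b / E) + E := by
      have := Nat.div_add_mod b E
      have := Nat.mod_lt b hE0
      omega
    rw [← hab] at h6
    omega
  have h5 : 2 * (b - a) ≤ p ^ (N * h) := by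
    have h6 : 2 * E ≤ p ^ (N * h) := by
      have e : p ^ (N * h) = p ^ (l * h) * E := by
        rw [hE, ← pow_add]; congr 1
        rw [← Nat.add_mul]; congr 1; omega
      rw [e]
      refine Nat.mul_le_mul_right _ ?_
      calc 2 ≤ p := hp
        _ = p ^ 1 := (pow_one p).symm
        _ ≤ p ^ (l * h) := Nat.pow_le_pow_right (by omega) (Nat.mul_pos hl1 hh)
    omega
  rw [(gp_norm hp hlt.le h5).2]
  have hexp : ∀ i : ℕ, i ≤ N → Real.exp (-((i : ℝ) * (h * Real.log p))) =
      ((p ^ ((N - i) * h) : ℕ) : ℝ) / (p : ℝ) ^ (N * h) := by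
    intro i hi
    have e : (p : ℝ) ^ (N * h) = (p : ℝ) ^ ((N - i) * h) * p ^ (i * h) := by
      rw [← pow_add]; congr 1
      rw [← Nat.add_mul]; congr 1; omega
    rw [e]
    push_cast
    rw [div_mul_cancel_left₀ (by positivity), Real.exp_neg]
    congr 1
    have : (i : ℝ) * (h * Real.log p) = ((i * h : ℕ) : ℝ) * Real.log p := by push_cast; ring
    rw [this, Real.exp_nat_mul, Real.exp_log hp0]
  have hpN : (0 : ℝ) < (p : ℝ) ^ (N * h) := by positivity
  constructor
  · rw [hexp (l + 1) hlN]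
    gcongr
  · have e : h * Real.log p - ((l + 1 : ℕ) : ℝ) * (h * Real.log p) =
        -((l : ℝ) * (h * Real.log p)) := by push_cast; ring
    rw [e, hexp l (by omega)]
    gcongr

/-- a bad strip -/
lemma cm_bad {p q : ℕ} (hp : 2 ≤ p) {U : Finset (ℕ × ℕ)} {ε : ℝ} {m h N l : ℕ} (hh : 1 ≤ h)
    (hl1 : 1 ≤ l) (hlN : l + 1 ≤ N)
    (hcl : ∀ y : Fin m → T, (∀ i j, i ≠ j →
        Real.exp (-(((l + 1 : ℕ) : ℝ) * (h * Real.log p))) ≤ ‖y i - y j‖ ∧
          ‖y i - y j‖ ≤ Real.exp (h * Real.log p - ((l + 1 : ℕ) : ℝ) * (h * Real.log p))) →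
      ∃ i, Good p q ε U (y i))
    {J : ℕ} (hJ : N ≤ J) {X : Finset ℕ}
    (hX : ∀ k ∈ X, ¬ Good p q ε U (p ^ ((J - N) * h) • gp p (J * h) k)) :
    cm p h N X (l + 1) ≤ (2 * m) * cm p h N X l := by
  classical
  have hmul : ∀ k, p ^ ((J - N) * h) • gp p (J * h) k = gp p (N * h) (k % p ^ (N * h)) := by
    intro k
    rw [gp_smul hp (Nat.mul_le_mul_right _ (by omega))]
    have e : J * h - (J - N) * h = N * h := by
      rw [← Nat.mul_sub_right_distrib]; congr 1; omega
    rw [e, gp_eq_iff hp, Nat.mod_mod]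
  have h1 := tree_step (X := X) (f := fun k => (k % p ^ (N * h)) / p ^ ((N - (l + 1)) * h))
    (φ := fun k => k / p ^ h) (c := 2 * m) (fun t => by
      have h2 : ∀ e : ℕ, ((X.image fun k => (k % p ^ (N * h)) / p ^ ((N - (l + 1)) * h)).filter
          fun a => (a / p ^ h, a % 2) = (t, e)).card ≤ m := by
        intro e
        refine fibre_bound fun y hy1 hy2 hy3 => ?_
        obtain ⟨i, hi⟩ := hcl (fun i => gp p (N * h) (y i % p ^ (N * h))) (by
          intro i i' hii
          have h3 := hy2 i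
          have h4 := hy2 i'
          have h5 := hy3 i i' hii
          rw [Prod.mk.injEq] at h3 h4
          refine cell_dist hp hh hl1 hlN ?_ h5 (h3.2.trans h4.2.symm)
          rw [← cell_div hlN, ← cell_div hlN, h3.1, h4.1])
        refine hX (y i) (hy1 i) ?_
        rw [hmul]; exact hi
      have h3 : ((X.image fun k => (k % p ^ (N * h)) / p ^ ((N - (l + 1)) * h)).filter
          fun a => a / p ^ h = t) ⊆
          ((X.image fun k => (k % p ^ (N * h)) / p ^ ((N - (l + 1)) * h)).filter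
            fun a => (a / p ^ h, a % 2) = (t, 0)) ∪
          ((X.image fun k => (k % p ^ (N * h)) / p ^ ((N - (l + 1)) * h)).filter
            fun a => (a / p ^ h, a % 2) = (t, 1)) := by
        intro a ha
        rw [Finset.mem_filter] at ha
        rw [Finset.mem_union, Finset.mem_filter, Finset.mem_filter, Prod.mk.injEq, Prod.mk.injEq]
        rcases Nat.mod_two_eq_zero_or_one a with h4 | h4
        · left; exact ⟨ha.1, ha.2, h4⟩
        · right; exact ⟨ha.1, ha.2, h4⟩
      refine (Finset.card_le_card h3).trans ((Finset.card_union_le _ _).trans ?_)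
      have := h2 0
      have := h2 1
      omega)
  refine h1.trans (le_of_eq ?_)
  unfold cm
  congr 2
  exact Finset.image_congr fun k _ => cell_div hlN

end Pool.Agent.Y314.FD
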