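import Pool.Agent.Y314.FD.Param

/-!
Few grid points have deficient visit frequencies.
-/

set_option autoImplicit false

open Filter Topology Set

namespace Pool.Agent.Y314.FD

open Pool.Agent.W764.FB Pool.Agent.W764.SH Pool.Agent.W764.HL

section
variable {p q : ℕ} (hp : 2 ≤ p) (hq : 2 ≤ q) (hpq : Nat.Coprime p q)
include hp hq hpq

/-- **Grid points with deficient frequencies.** -/
theorem grid_main {s : ℝ} (hs0 : 0 < s) (hs1 : s ≤ 1) {ε : ℝ} (hε : 0 < ε) :
    ∃ u0 : ℕ, 1 ≤ u0 ∧ ∃ v0 : ℕ, ∀ v : ℕ, v0 ≤ v → ∃ E : Finset ℕ,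
      (E.card : ℝ) ≤ (p : ℝ) ^ (s * ((u0 * v : ℕ) : ℝ)) ∧
      ∀ k ∈ Finset.range (p ^ (u0 * v)), k ∉ E → ∀ c : T, ∀ r : ℝ, r ≤ 1 / 2 →
        ((1 - (1 - s) ^ 2) * (2 * r) - ε) * (tri p q (p ^ (u0 * v))).card ≤
          hit p q (tri p q (p ^ (u0 * v))) (gp p (u0 * v) k) c r := by
  classical
  obtain ⟨hlp, hlq⟩ := log_pos' hp hq
  set α := Real.log p with hα
  set β := Real.log q with hβ
  set θ := α / β with hθ
  have hθ0 : 0 < θ := by positivity
  set δ : ℝ := min (ε / 80) (s / 2) with hδdef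
  have hδ : 0 < δ := by positivity
  have hδε : 80 * δ ≤ ε := by
    have := min_le_left (ε / 80) (s / 2)
    linarith
  have hδs : 2 * δ ≤ s := by
    have := min_le_right (ε / 80) (s / 2)
    linarith
  -- the two cluster lemmas
  obtain ⟨m1, hm1, h01, hcl1⟩ := padic hp hq hpq (ε := ε / 4) (by positivity)
  obtain ⟨m2, hm2, h02, L02, hcl2⟩ := strip_cluster hp hq hpq (ε := ε / 4) (by positivity) hδ
  set m := max m1 m2 with hm
  have hm0 : 1 ≤ m := hm1.trans (le_max_left _ _)
  obtain ⟨M0, hM0⟩ := exists_nat_ge (4 / δ)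
  set M := M0 + 2 with hMdef
  have hM : 4 / δ ≤ (M : ℝ) := by
    refine hM0.trans ?_
    rw [hMdef]; push_cast; linarith
  have hM1 : 1 ≤ M := by omega
  -- the block width
  obtain ⟨h1, hh1⟩ := exists_nat_ge (2 * (Real.log M + 2 * Real.log 2 + 2 * Real.log (2 * m)) /
    (δ * α))
  obtain ⟨h2, hh2⟩ := exists_nat_ge (L02 / α)
  obtain ⟨h3, hh3⟩ := exists_nat_ge (1 / δ / θ)
  set h := h01 + h02 + h1 + h2 + h3 + 1 with hh
  have hhR1 : (h1 : ℝ) ≤ h := by exact_mod_cast (by omega : h1 ≤ h)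
  have hhR2 : (h2 : ℝ) ≤ h := by exact_mod_cast (by omega : h2 ≤ h)
  have hhR3 : (h3 : ℝ) ≤ h := by exact_mod_cast (by omega : h3 ≤ h)
  have hhge : 1 ≤ h := by omega
  have hhR : (1 : ℝ) ≤ h := by exact_mod_cast hhge
  have hsize := hh1.trans hhR1
  have hL02 : L02 ≤ h * α := by
    have := hh2.trans hhR2
    rwa [div_le_iff₀ hlp] at this
  have hhθ : 1 / δ ≤ h * θ := by
    have := hh3.trans hhR3
    rwa [div_le_iff₀ hθ0] at this
  obtain ⟨L0, hL0⟩ := hcl1 h (by omega)
  obtain ⟨w0, hw0⟩ := hcl2 (h * α) hL02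
  -- the number of blocks
  obtain ⟨v1, hv1⟩ := exists_nat_ge ((L0 + 1 : ℝ) / (h * θ))
  obtain ⟨v2, hv2⟩ := exists_nat_ge (1 / δ)
  obtain ⟨v3, hv3⟩ := exists_nat_ge (8 * (θ / 2 + 2) / (θ * ε))
  refine ⟨M * h, Nat.mul_pos (by omega) (by omega), w0 + v1 + v2 + v3 + 2, fun v hv => ?_⟩
  have hv1R : (v1 : ℝ) ≤ v := by exact_mod_cast (by omega : v1 ≤ v)
  have hv2R : (v2 : ℝ) ≤ v := by exact_mod_cast (by omega : v2 ≤ v)
  have hv3R : (v3 : ℝ) ≤ v := by exact_mod_cast (by omega : v3 ≤ v)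
  have hv2' : 2 ≤ v := by omega
  have hvR : (1 : ℝ) ≤ v := by
    have : (2 : ℝ) ≤ v := by exact_mod_cast hv2'
    linarith
  have hn : M * h * v = M * v * h := by ring
  rw [hn]
  set t : ℕ := ⌊(s - δ) * (M * v)⌋₊ with ht
  have hsδ : 0 ≤ (s - δ) * ((M : ℝ) * v) := by
    have : 0 ≤ s - δ := by linarith
    positivity
  have ht1 : (t : ℝ) ≤ (s - δ) * (M * v) := Nat.floor_le hsδ
  have ht2 : (s - δ) * (M * v) - 1 ≤ t := (Nat.sub_one_lt_floor _).le
  refine ⟨exg p q (ε / 4) δ h v M t, ?_, ?_⟩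
  · -- size
    have hA := exg_card (p := p) (q := q) (ε := ε / 4) (η := δ) (m := m) (h := h) (v := v)
      (M := M) hp hm0 hhge hv2' (by
        intro j hj x hx1 hx2
        obtain ⟨i, hi⟩ := hL0 (rows p q h (M * v) j) (by
          have hvJ : (M - 1) * v + v = M * v := by
            rw [← Nat.succ_mul]; congr 1
          have h4 := rows_ge (p := p) (q := q) h (M * v) j (by omega)
          have h5 : (v : ℝ) ≤ ((M * v : ℕ) : ℝ) - 1 - j := by
            have h6 : j + 1 + v ≤ M * v := by omega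
            have h7 : ((j + 1 + v : ℕ) : ℝ) ≤ ((M * v : ℕ) : ℝ) := by exact_mod_cast h6
            push_cast at h7 ⊢
            linarith
          have h6 : (L0 : ℝ) + 1 ≤ v * (h * θ) := by
            have := hv1.trans hv1R
            rwa [div_le_iff₀ (by positivity)] at this
          have h7 : v * (h * θ) ≤ (((M * v : ℕ) : ℝ) - 1 - j) * (h * θ) :=
            mul_le_mul_of_nonneg_right h5 (by positivity)
          have h8 : (L0 : ℝ) ≤ rows p q h (M * v) j := by
            rw [mul_assoc] at h4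
            linarith
          exact_mod_cast h8) (fun i : Fin m1 => x (Fin.castLE (le_max_left _ _) i))
          (fun i i' => hx1 _ _) (fun i i' hii => hx2 _ _ (by
            intro hcon
            exact hii (Fin.castLE_injective _ hcon)))
        exact ⟨_, hi⟩) (by
        intro P0 k0 hk0 hbc l hl y hy
        obtain ⟨i, hi⟩ := hw0 (v * h) (by
            calc w0 ≤ v := by omega
              _ = v * 1 := (mul_one v).symm
              _ ≤ v * h := Nat.mul_le_mul_left _ hhge) h (by omega) (ac P0 h v k0)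
          (ac_subset _ _ _ _) (by
            rw [ac_card P0 hhge]
            push_cast
            calc δ * ((v : ℝ) * h) = h * (δ * v) := by ring
              _ ≤ h * (bc P0 v k0).card := mul_le_mul_of_nonneg_left hbc (by linarith))
          (ac_step P0 hhge v k0) (((l + 1 : ℕ) : ℝ) * (h * α)) (by
            have h4 : (v : ℝ) ≤ ((l + 1 : ℕ) : ℝ) := by exact_mod_cast hl
            push_cast at h4 ⊢
            calc (v : ℝ) * h * α = v * (h * α) := by ring
              _ ≤ _ := mul_le_mul_of_nonneg_right h4 (by positivity))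
          (fun i : Fin m2 => y (Fin.castLE (le_max_right _ _) i))
          (fun i i' hii => hy _ _ (by
            intro hcon
            exact hii (Fin.castLE_injective _ hcon)))
        exact ⟨_, hi⟩) t
    have hB := size_ineq (p := p) (M := M) (v := v) (h := h) (m := m) (t := t) (s := s) (δ := δ)
      hp hm0 hM1 hv2' hδ hM ht1 hsize
    have hC : ((exg p q (ε / 4) δ h v M t).card : ℝ) ≤
        ((M * 2 ^ (M * v) * 2 ^ (M * v) *
          (p ^ ((2 + v) * h) * (p ^ h) ^ t * (2 * m) ^ (2 * (M * v))) : ℕ) : ℝ) := by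
      exact_mod_cast hA
    refine (hC.trans hB).trans (le_of_eq ?_)
    congr 2
    push_cast
    ring
  · intro k hk hkE c r hr
    have hn0 : (1 : ℝ) ≤ (M * v * h : ℕ) := by
      have : 1 ≤ M * v * h := Nat.mul_pos (Nat.mul_pos (by omega) (by omega)) (by omega)
      exact_mod_cast this
    set n : ℕ := M * v * h with hn
    have hnR : (n : ℝ) = h * (M * v) := by rw [hn]; push_cast; ring
    have hMvR : (v : ℝ) ≤ M * v := by
      have : (1 : ℝ) ≤ M := by exact_mod_cast hM1
      exact le_mul_of_one_le_left (by linarith) this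
    refine freq_ineq (X := θ * (h * (M * v)) ^ 2 / 2) (ε1 := ε / 4) ?_ ?_ hε rfl (by positivity) hr
      (Nat.cast_nonneg _) (Nat.cast_nonneg _) ?_ ?_
    · have e : 1 - (1 - s) ^ 2 = s * (2 - s) := by ring
      rw [e]
      exact mul_nonneg hs0.le (by linarith)
    · have := sq_nonneg (1 - s)
      linarith
    · refine (card_tri_le hp hq n).trans ?_
      rw [← hθ, ← hnR]
      have h4 : 8 * (θ / 2 + 2) / (θ * ε) ≤ n := by
        refine (hv3.trans hv3R).trans (hMvR.trans ?_)
        rw [hnR]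
        have h5 : 0 ≤ (M : ℝ) * v := by positivity
        exact le_mul_of_one_le_left h5 hhR
      rw [div_le_iff₀ (by positivity)] at h4
      have h5 : (θ / 2 + 2) * (n : ℝ) ≤ (θ * n ^ 2 / 2) * (ε / 4) := by
        have h6 : 8 * (θ / 2 + 2) * n ≤ n * (θ * ε) * n :=
          mul_le_mul_of_nonneg_right h4 (by linarith)
        have e3 : (θ * (n : ℝ) ^ 2 / 2) * (ε / 4) = n * (θ * ε) * n / 8 := by ring
        rw [e3, le_div_iff₀ (by norm_num)]
        calc (θ / 2 + 2) * (n : ℝ) * 8 = 8 * (θ / 2 + 2) * n := by ring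
          _ ≤ _ := h6
      have e : θ * ((n : ℝ) * (n + 1) / 2) + (n + 1) = θ * n ^ 2 / 2 + (θ / 2 * n + n + 1) := by ring
      rw [e]
      have e2 : θ * (n : ℝ) ^ 2 / 2 * (1 + ε / 4) =
          θ * n ^ 2 / 2 + θ * n ^ 2 / 2 * (ε / 4) := by ring
      rw [e2]
      linarith
    · intro hrε
      have h4 := hits_lower hp hq (ε := ε / 4) (η := δ) hδ.le (h := h) (v := v) (M := M) (t := t)
        (k := k) hhge hM1 (by
          have : 1 ≤ 1 / δ := by rw [le_div_iff₀ hδ]; linarith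
          linarith) hk hkE (c := c) hr hrε
      refine le_trans (mul_le_mul_of_nonneg_left ?_ hrε) h4
      have h5 := poly_ineq (s := s) (δ := δ) (M := (M : ℝ)) (v := (v : ℝ)) (t := (t : ℝ))
        (h := (h : ℝ)) (θ := θ) hs1 hδ hδs hM hvR ht2 ht1 (Nat.cast_nonneg _)
        ((hv2.trans hv2R).trans hMvR) hhR hθ0 hhθ
      refine le_trans ?_ h5
      have h6 : 0 ≤ θ * (h * ((M : ℝ) * v)) ^ 2 / 2 := by positivity
      refine mul_le_mul_of_nonneg_left ?_ h6
      linarith

end

end Pool.Agent.Y314.FD
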