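import Pool.Agent.Y314.FD.Cantor

/-!
The set of points whose digits vanish in the blocks `[a G^k, b G^k)`.
-/

set_option autoImplicit false

open Filter Topology Set

namespace Pool.Agent.Y314.FD

open Real

/-- positions outside the blocks `[a G^k, b G^k)` -/
def free (a b G n : ℕ) : Prop := ∀ k : ℕ, ¬ (a * G ^ k ≤ n ∧ n < b * G ^ k)

noncomputable instance (a b G : ℕ) : DecidablePred (free a b G) := Classical.decPred _

section
variable {a b G : ℕ} (ha : 1 ≤ a) (hab : a < b) (hG : b < G * a)
include ha hab hG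

omit ha in
lemma G_pos : 2 ≤ G := by
  by_contra h
  push Not at h
  have : G * a ≤ 1 * a := Nat.mul_le_mul_right _ (by omega)
  omega

lemma free_between {k n : ℕ} (h1 : b * G ^ k ≤ n) (h2 : n < a * G ^ (k + 1)) : free a b G n := by
  have hG2 := G_pos hab hG
  intro j
  rintro ⟨h3, h4⟩
  rcases Nat.lt_or_ge k j with h | h
  · have h5 : G ^ (k + 1) ≤ G ^ j := Nat.pow_le_pow_right (by omega) h
    have h6 : a * G ^ (k + 1) ≤ a * G ^ j := Nat.mul_le_mul_left _ h5
    omega
  · have h5 : G ^ j ≤ G ^ k := Nat.pow_le_pow_right (by omega) h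
    have h6 : b * G ^ j ≤ b * G ^ k := Nat.mul_le_mul_left _ h5
    omega

lemma free_low {n : ℕ} (h : n < a) : free a b G n := by
  have hG2 := G_pos hab hG
  intro j
  rintro ⟨h3, -⟩
  have h5 : 1 ≤ G ^ j := Nat.one_le_pow _ _ (by omega)
  have h6 : a * 1 ≤ a * G ^ j := Nat.mul_le_mul_left _ h5
  omega

omit ha hab hG in
lemma count_ge {P : ℕ → Prop} [DecidablePred P] (n0 q : ℕ) (h : ∀ i < q, P (n0 + i)) :
    Nat.count P n0 + q ≤ Nat.count P (n0 + q) := by
  induction q with
  | zero => simp
  | succ q ih =>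
    have h1 := ih (fun i hi => h i (by omega))
    rw [← add_assoc, ← add_assoc, Nat.count_succ, if_pos (h q (by omega))]
    omega

lemma count_block (k : ℕ) : (G * a - b) * G ^ k ≤ G * Nat.count (free a b G) (b * G ^ k) := by
  have hG2 := G_pos hab hG
  cases k with
  | zero =>
    rw [pow_zero, mul_one, mul_one]
    have h1 := count_ge (P := free a b G) 0 a (fun i hi => by
      rw [zero_add]; exact free_low ha hab hG hi)
    simp only [Nat.count_zero, zero_add] at h1
    have h2 : Nat.count (free a b G) a ≤ Nat.count (free a b G) b :=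
      Nat.count_monotone _ hab.le
    calc G * a - b ≤ G * a := Nat.sub_le _ _
      _ ≤ _ := Nat.mul_le_mul_left _ (h1.trans h2)
  | succ k =>
    have hGk : 0 < G ^ k := by positivity
    have h0 : b * G ^ k ≤ a * G ^ (k + 1) := by
      rw [pow_succ]
      calc b * G ^ k ≤ (G * a) * G ^ k := Nat.mul_le_mul_right _ hG.le
        _ = _ := by ring
    have h1 := count_ge (P := free a b G) (b * G ^ k) (a * G ^ (k + 1) - b * G ^ k) (fun i hi => by
      exact free_between ha hab hG (k := k) (by omega) (by omega))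
    rw [Nat.add_sub_cancel' h0] at h1
    have h2 : Nat.count (free a b G) (a * G ^ (k + 1)) ≤
        Nat.count (free a b G) (b * G ^ (k + 1)) :=
      Nat.count_monotone _ (Nat.mul_le_mul_right _ hab.le)
    have h3 : a * G ^ (k + 1) - b * G ^ k ≤ Nat.count (free a b G) (b * G ^ (k + 1)) := by omega
    calc (G * a - b) * G ^ (k + 1) = G * (a * G ^ (k + 1) - b * G ^ k) := by
          rw [Nat.mul_sub, Nat.sub_mul, pow_succ]
          congr 1 <;> ring
      _ ≤ _ := Nat.mul_le_mul_left _ h3

/-- the density of the free positions, seen from a free position -/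
lemma free_count {n : ℕ} (hn : free a b G n) :
    (G * a - b) * n ≤ (G * b) * Nat.count (free a b G) n := by
  have hG2 := G_pos hab hG
  have hle : G * a - b ≤ G * b := by
    have : G * a ≤ G * b := Nat.mul_le_mul_left _ hab.le
    omega
  rcases Nat.lt_or_ge n a with h | h
  · have h1 := count_ge (P := free a b G) 0 n (fun i hi => by
      rw [zero_add]; exact free_low ha hab hG (by omega))
    simp only [Nat.count_zero, zero_add] at h1
    exact Nat.mul_le_mul hle h1
  · have hbn : b ≤ n := by
      by_contra hcon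
      push Not at hcon
      exact hn 0 ⟨by rw [pow_zero, mul_one]; exact h, by rw [pow_zero, mul_one]; exact hcon⟩
    have hex : ∃ k, n < b * G ^ (k + 1) := by
      refine ⟨n, ?_⟩
      have h1 : n < G ^ n := Nat.lt_pow_self (by omega)
      calc n < G ^ n := h1
        _ ≤ G ^ (n + 1) := Nat.pow_le_pow_right (by omega) (by omega)
        _ ≤ b * G ^ (n + 1) := Nat.le_mul_of_pos_left _ (by omega)
    classical
    set k := Nat.find hex with hk
    have h2 : n < b * G ^ (k + 1) := Nat.find_spec hex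
    have h3 : b * G ^ k ≤ n := by
      rcases Nat.eq_zero_or_pos k with h0 | h0
      · rw [h0, pow_zero, mul_one]; exact hbn
      · have := Nat.find_min hex (m := k - 1) (by omega)
        rw [Nat.sub_add_cancel (by omega : 1 ≤ k)] at this
        omega
    have h4 : n < a * G ^ (k + 1) := by
      by_contra hcon
      push Not at hcon
      exact hn (k + 1) ⟨hcon, h2⟩
    have h5 := count_ge (P := free a b G) (b * G ^ k) (n - b * G ^ k) (fun i hi => by
      exact free_between ha hab hG (k := k) (by omega) (by omega))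
    rw [Nat.add_sub_cancel' h3] at h5
    have h6 := count_block ha hab hG k
    set c := Nat.count (free a b G) n with hc
    set c0 := Nat.count (free a b G) (b * G ^ k) with hc0
    calc (G * a - b) * n = (G * a - b) * (n - b * G ^ k) + b * ((G * a - b) * G ^ k) := by
          have e : n = (n - b * G ^ k) + b * G ^ k := by omega
          conv_lhs => rw [e]
          ring
      _ ≤ (G * b) * (n - b * G ^ k) + b * (G * c0) :=
          Nat.add_le_add (Nat.mul_le_mul_right _ hle) (Nat.mul_le_mul_left _ h6)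
      _ = (G * b) * (c0 + (n - b * G ^ k)) := by ring
      _ ≤ (G * b) * c := Nat.mul_le_mul_left _ h5

lemma free_infinite : (Set.ofPred (free a b G)).Infinite := by
  have hG2 := G_pos hab hG
  apply Set.infinite_of_not_bddAbove
  rintro ⟨B, hB⟩
  have h0 : 0 < G ^ B := by positivity
  have h1 : free a b G (b * G ^ B) := by
    refine free_between ha hab hG le_rfl ?_
    rw [pow_succ]
    calc b * G ^ B < (G * a) * G ^ B := Nat.mul_lt_mul_of_pos_right hG h0
      _ = _ := by ring
  have h2 : b * G ^ B ≤ B := hB h1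
  have h3 : B < G ^ B := Nat.lt_pow_self (by omega)
  have h4 : G ^ B ≤ b * G ^ B := Nat.le_mul_of_pos_left _ (by omega)
  omega

/-- **Dimension of the set.** -/
theorem free_dim {p R : ℕ} [NeZero (p ^ (R + 1))] (hp : 2 ≤ p) (hR : 1 ≤ R)
    (hbm : 2 * p ^ R ≤ p ^ (R + 1)) :
    ENNReal.ofReal ((R : ℝ) * (G * a - b) / ((R + 1) * (G * b))) ≤
      dimH (cantor (m := p ^ (R + 1)) (b := p ^ R) hbm (free a b G)) := by
  have hG2 := G_pos hab hG
  have hGR : (0 : ℝ) < G := by
    have : 0 < G := by omega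
    exact_mod_cast this
  have hbR : (0 : ℝ) < b := by
    have : 0 < b := by omega
    exact_mod_cast this
  have hRR : (0 : ℝ) < R := by exact_mod_cast hR
  have hGab : (0 : ℝ) < (G : ℝ) * a - b := by
    have : ((b : ℕ) : ℝ) < ((G * a : ℕ) : ℝ) := by exact_mod_cast hG
    push_cast at this
    linarith
  have hp1 : (1 : ℝ) < p := by exact_mod_cast (by omega : 1 < p)
  refine le_dimH_cantor hbm (free a b G) (Nat.one_lt_pow (by omega) (by omega))
    (free_infinite ha hab hG) (by positivity) fun n hn => ?_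
  have h1 := free_count ha hab hG hn
  set c := Nat.count (free a b G) n with hc
  have h2 : ((G : ℝ) * a - b) * n ≤ (G * b) * c := by
    have h3 : (((G * a - b) * n : ℕ) : ℝ) ≤ ((G * b * c : ℕ) : ℝ) := by exact_mod_cast h1
    push_cast [Nat.cast_sub hG.le] at h3
    exact h3
  push_cast
  have e1 : ((p : ℝ) ^ R) ^ c = (p : ℝ) ^ ((R : ℝ) * c) := by
    rw [← pow_mul, ← Real.rpow_natCast]; push_cast; rfl
  have e2 : ((((p : ℝ) ^ (R + 1)) ^ n)) = (p : ℝ) ^ (((R : ℝ) + 1) * n) := by
    rw [← pow_mul, ← Real.rpow_natCast]; push_cast; rfl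
  rw [e1, e2, ← Real.rpow_mul (by linarith)]
  refine Real.rpow_le_rpow_of_exponent_le hp1.le ?_
  have e3 : ((R : ℝ) + 1) * n * (R * (G * a - b) / ((R + 1) * (G * b))) =
      R * (((G : ℝ) * a - b) * n / (G * b)) := by
    field_simp
  rw [e3]
  refine mul_le_mul_of_nonneg_left ?_ hRR.le
  rw [div_le_iff₀ (by positivity)]
  linarith

end

/-- long runs of zero digits -/
lemma zero_run {p R a b G : ℕ} [NeZero (p ^ (R + 1))] (hp : 2 ≤ p)
    (hbm : 2 * p ^ R ≤ p ^ (R + 1)) {x : UnitAddCircle}
    (hx : x ∈ cantor (m := p ^ (R + 1)) (b := p ^ R) hbm (free a b G)) (k : ℕ) :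
    ‖p ^ ((R + 1) * (a * G ^ k)) • x‖ ≤ 1 / (p : ℝ) ^ ((R + 1) * (b * G ^ k - a * G ^ k)) := by
  obtain ⟨τ, rfl⟩ := hx
  simp only
  set m := p ^ (R + 1) with hm
  have hm0 : (0 : ℝ) < m := by
    have : 0 < m := NeZero.pos m
    exact_mod_cast this
  set y := xs (m := m) hbm (free a b G) τ with hy
  set n := a * G ^ k with hn
  set L := b * G ^ k - a * G ^ k with hL
  have h1 := ofDigits_eq_sum_add_ofDigits y n
  set z : ℕ → Fin m := fun i => y (i + n) with hz
  have h2 := ofDigits_eq_sum_add_ofDigits z L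
  have h3 : ∑ i ∈ Finset.range L, ofDigitsTerm z i = 0 := by
    refine Finset.sum_eq_zero fun i hi => ?_
    rw [Finset.mem_range] at hi
    unfold ofDigitsTerm
    have h4 : (z i : ℕ) = 0 := by
      rw [hz]
      simp only
      rw [hy]
      refine xs_zero hbm (free a b G) τ _ fun hf => hf k ⟨?_, ?_⟩
      · omega
      · omega
    rw [h4]; simp
  rw [h3, zero_add] at h2
  have h4 : ofDigits z ≤ ((m : ℝ) ^ L)⁻¹ := by
    rw [h2]
    exact mul_le_of_le_one_right (by positivity) (ofDigits_le_one _)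
  have h5 : 0 ≤ ofDigits z := ofDigits_nonneg _
  obtain ⟨I, hI⟩ : ∃ I : ℤ, (m : ℝ) ^ n * ∑ i ∈ Finset.range n, ofDigitsTerm y i = I := by
    refine ⟨∑ i ∈ Finset.range n, ((y i : ℕ) : ℤ) * (m : ℤ) ^ (n - (i + 1)), ?_⟩
    rw [Finset.mul_sum]
    push_cast
    refine Finset.sum_congr rfl fun i hi => ?_
    rw [Finset.mem_range] at hi
    unfold ofDigitsTerm
    have e : (m : ℝ) ^ n = m ^ (n - (i + 1)) * m ^ (i + 1) := by
      rw [← pow_add]; congr 1; omega
    rw [e]
    field_simp
  have hpow : p ^ ((R + 1) * n) = m ^ n := by rw [hm, ← pow_mul]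
  rw [hpow]
  have h6 : (m ^ n) • ((ofDigits y : ℝ) : UnitAddCircle) = ((ofDigits z : ℝ) : UnitAddCircle) := by
    rw [← AddCircle.coe_nsmul, nsmul_eq_mul]
    have e : ((m ^ n : ℕ) : ℝ) * ofDigits y = I + ofDigits z := by
      rw [h1, mul_add]
      push_cast
      rw [hI]
      congr 1
      rw [← mul_assoc, mul_inv_cancel₀ (by positivity), one_mul]
    rw [e, AddCircle.coe_add]
    have h7 : ((I : ℝ) : UnitAddCircle) = 0 := by
      rw [AddCircle.coe_eq_zero_iff]
      exact ⟨I, by rw [zsmul_eq_mul, mul_one]⟩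
    rw [h7, zero_add]
  rw [h6, UnitAddCircle.norm_eq]
  have h7 := round_le (ofDigits z) 0
  rw [Int.cast_zero, sub_zero, abs_of_nonneg h5] at h7
  refine h7.trans (h4.trans (le_of_eq ?_))
  rw [hm, one_div]
  push_cast
  rw [← pow_mul]

end Pool.Agent.Y314.FD
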