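import Pool.Agent.Y314.FD.Area

/-!
Non-exceptional grid points have many visits to every arc.
-/

set_option autoImplicit false

open Filter Topology Set

namespace Pool.Agent.Y314.FD

open Pool.Agent.W764.FB Pool.Agent.W764.SH Pool.Agent.W764.HL

section
variable {p q : ℕ} (hp : 2 ≤ p) (hq : 2 ≤ q)
include hp hq

omit hp hq in
lemma rows_ge (h J j : ℕ) (hj : j + 1 ≤ J) :
    ((J : ℝ) - 1 - j) * h * (Real.log p / Real.log q) - 1 ≤ rows p q h J j := by
  unfold rows
  have h1 := Nat.sub_one_lt_floor (((J - (j + 1) : ℕ) : ℝ) * h * Real.log p / Real.log q)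
  have e : ((J - (j + 1) : ℕ) : ℝ) = (J : ℝ) - 1 - j := by
    rw [Nat.cast_sub hj]; push_cast; ring
  rw [e] at h1 ⊢
  have e2 : ((J : ℝ) - 1 - j) * h * Real.log p / Real.log q =
      ((J : ℝ) - 1 - j) * h * (Real.log p / Real.log q) := by ring
  rw [← e2]
  exact h1.le

lemma sw_card_ge {P : Finset ℕ} {h v k0 l : ℕ} (hh : 1 ≤ h) (hl : v ≤ l) :
    (h : ℝ) * (bc P v k0).card * (h * (Real.log p / Real.log q) - 1) ≤
      ((sw p q P h v k0 l).card : ℝ) := by
  obtain ⟨hlp, hlq⟩ := log_pos' hp hq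
  unfold sw
  have h1 := le_card_slw (A := ac P h v k0) (x := (l : ℝ) * (h * Real.log p)) hlp hlq
    (h * Real.log p) (by
      intro a ha
      have h2 := Finset.mem_range.1 (ac_subset _ _ _ _ ha)
      have h3 : a ≤ l * h := h2.le.trans (Nat.mul_le_mul_right _ hl)
      have h4 : (a : ℝ) ≤ l * h := by exact_mod_cast h3
      calc (a : ℝ) * Real.log p ≤ (l * h) * Real.log p := mul_le_mul_of_nonneg_right h4 hlp.le
        _ = _ := by ring)
  rw [ac_card P hh] at h1
  refine le_trans (le_of_eq ?_) h1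
  push_cast
  ring

open Classical in
/-- **The area of the good region.** -/
theorem area_ge {ε η : ℝ} (hη : 0 ≤ η) {h v M t k : ℕ} (hh : 1 ≤ h) (hM : 1 ≤ M)
    (hθ : 0 ≤ h * (Real.log p / Real.log q) - 1)
    (hk : k ∈ Finset.range (p ^ (M * v * h))) (hkex : k ∉ exg p q ε η h v M t) :
    (h : ℝ) * ((h * (Real.log p / Real.log q) - 1) *
      (((M : ℝ) - 1) * v * t - ((t : ℝ) + 1) ^ 2 / 2 - η * (M * v) * t) - M * v) ≤
    ∑ j ∈ gb p q ε h (M * v) ((M - 1) * v) k, (h * rows p q h (M * v) j : ℝ) +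
      ∑ k0 ∈ (Finset.range (M - 1)).filter fun k0 =>
          η * v ≤ (bc (gb p q ε h (M * v) ((M - 1) * v) k) v k0).card,
        ∑ l ∈ gs p q ε (gb p q ε h (M * v) ((M - 1) * v) k) h v (M * v) k0 k,
          ((sw p q (gb p q ε h (M * v) ((M - 1) * v) k) h v k0 l).card : ℝ) := by
  set J := M * v with hJ
  set J1 := (M - 1) * v with hJ1
  set P := gb p q ε h J J1 k with hP
  set θ := Real.log p / Real.log q with hθdef
  set A := (h : ℝ) * θ - 1 with hA
  set K := (Finset.range (M - 1)).filter fun k0 => η * v ≤ (bc P v k0).card with hK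
  have hhR : (0 : ℝ) < h := by exact_mod_cast hh
  have hPsub : P ⊆ Finset.range J1 := by
    rw [hP]; unfold gb; exact Finset.filter_subset _ _
  have hJ1J : J1 ≤ J := Nat.mul_le_mul_right _ (Nat.sub_le _ _)
  have hMR : ((M - 1 : ℕ) : ℝ) = (M : ℝ) - 1 := by rw [Nat.cast_sub hM]; simp
  have hJ1R : (J1 : ℝ) = ((M : ℝ) - 1) * v := by rw [hJ1, Nat.cast_mul, hMR]
  have hJ1JR : (J1 : ℝ) ≤ J := by exact_mod_cast hJ1J
  have htR : (0 : ℝ) ≤ t := Nat.cast_nonneg t
  -- blocks
  have hblocks : (h : ℝ) * (A * ∑ j ∈ P, ((J1 : ℝ) - 1 - j) - J) ≤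
      ∑ j ∈ P, (h * rows p q h J j : ℝ) := by
    have h1 : ∀ j ∈ P, (h : ℝ) * (A * ((J1 : ℝ) - 1 - j) - 1) ≤ h * rows p q h J j := by
      intro j hj
      have hjlt := Finset.mem_range.1 (hPsub hj)
      have hj1 : (j : ℝ) + 1 ≤ J1 := by exact_mod_cast hjlt
      refine mul_le_mul_of_nonneg_left ?_ hhR.le
      refine le_trans ?_ (rows_ge h J j (by omega))
      rw [← hθdef]
      have h2 : A * ((J1 : ℝ) - 1 - j) ≤ ((J1 : ℝ) - 1 - j) * h * θ := by
        have : A ≤ h * θ := by rw [hA]; linarith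
        have h0 : 0 ≤ (J1 : ℝ) - 1 - j := by linarith
        nlinarith
      have h3 : ((J1 : ℝ) - 1 - j) * h * θ ≤ ((J : ℝ) - 1 - j) * h * θ := by
        have h0 : 0 ≤ h * θ := by linarith
        nlinarith
      linarith
    refine le_trans ?_ (Finset.sum_le_sum h1)
    rw [← Finset.mul_sum]
    refine mul_le_mul_of_nonneg_left ?_ hhR.le
    have e : ∑ i ∈ P, (A * ((J1 : ℝ) - 1 - i) - 1) = A * ∑ j ∈ P, ((J1 : ℝ) - 1 - j) - P.card := by
      rw [Finset.sum_sub_distrib (f := fun i : ℕ => A * ((J1 : ℝ) - 1 - i)), ← Finset.mul_sum,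
        Finset.sum_const, nsmul_eq_mul, mul_one]
    rw [e]
    have h2 : (P.card : ℝ) ≤ J := by
      have h3 := (Finset.card_le_card hPsub).trans (by rw [Finset.card_range])
      exact_mod_cast h3.trans hJ1J
    linarith
  -- strips
  have hstrips : (h : ℝ) * (A * (∑ j ∈ Finset.range J1,
      (if j ∈ P then 0 else max ((t : ℝ) - cnt P j) 0) - η * J * t)) ≤
      ∑ k0 ∈ K, ∑ l ∈ gs p q ε P h v J k0 k, ((sw p q P h v k0 l).card : ℝ) := by
    have h1 : ∀ k0 ∈ K, (h : ℝ) * (A * ((bc P v k0).card * max ((t : ℝ) - cnt P (k0 * v)) 0)) ≤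
        ∑ l ∈ gs p q ε P h v J k0 k, ((sw p q P h v k0 l).card : ℝ) := by
      intro k0 hk0
      rw [hK, Finset.mem_filter, Finset.mem_range] at hk0
      have h2 : t ≤ cnt P (k0 * v) + (gs p q ε P h v J k0 k).card := by
        by_contra hlt
        push Not at hlt
        apply hkex
        unfold exg
        rw [Finset.mem_filter]
        exact ⟨hk, k0, by omega, hk0.2, hlt⟩
      have h3 : max ((t : ℝ) - cnt P (k0 * v)) 0 ≤ (gs p q ε P h v J k0 k).card := by
        refine max_le ?_ (Nat.cast_nonneg _)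
        have : (t : ℝ) ≤ cnt P (k0 * v) + (gs p q ε P h v J k0 k).card := by exact_mod_cast h2
        linarith
      have h4 : ∀ l ∈ gs p q ε P h v J k0 k, (h : ℝ) * (bc P v k0).card * A ≤
          ((sw p q P h v k0 l).card : ℝ) := by
        intro l hl
        unfold gs at hl
        rw [Finset.mem_filter, Finset.mem_Ico] at hl
        exact sw_card_ge hp hq hh hl.1.1
      refine le_trans ?_ (Finset.sum_le_sum h4)
      rw [Finset.sum_const, nsmul_eq_mul]
      have h5 : 0 ≤ (h : ℝ) * (bc P v k0).card * A := by positivity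
      calc (h : ℝ) * (A * ((bc P v k0).card * max ((t : ℝ) - cnt P (k0 * v)) 0))
          = max ((t : ℝ) - cnt P (k0 * v)) 0 * (h * (bc P v k0).card * A) := by ring
        _ ≤ (gs p q ε P h v J k0 k).card * (h * (bc P v k0).card * A) :=
          mul_le_mul_of_nonneg_right h3 h5
    refine le_trans ?_ (Finset.sum_le_sum h1)
    rw [← Finset.mul_sum, ← Finset.mul_sum]
    refine mul_le_mul_of_nonneg_left (mul_le_mul_of_nonneg_left ?_ hθ) hhR.le
    have h2 := macro_sum P (t := (t : ℝ)) v (M - 1)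
    have h3 : ∑ k0 ∈ Finset.range (M - 1), (((Finset.range v).filter fun i =>
        k0 * v + i ∉ P).card : ℝ) * max ((t : ℝ) - cnt P (k0 * v)) 0 ≤
        ∑ k0 ∈ K, (bc P v k0).card * max ((t : ℝ) - cnt P (k0 * v)) 0 + η * J * t := by
      rw [← Finset.sum_filter_add_sum_filter_not (Finset.range (M - 1))
        (fun k0 => η * v ≤ (bc P v k0).card)]
      refine add_le_add le_rfl ?_
      refine (Finset.sum_le_card_nsmul _ _ (η * v * t) fun k0 hk0 => ?_).trans ?_
      · rw [Finset.mem_filter, not_le] at hk0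
        have h4 : max ((t : ℝ) - cnt P (k0 * v)) 0 ≤ t :=
          max_le (by linarith [(Nat.cast_nonneg (cnt P (k0 * v)) : (0 : ℝ) ≤ _)]) htR
        exact mul_le_mul hk0.2.le h4 (le_max_right _ _) (by positivity)
      · rw [nsmul_eq_mul]
        have h4 : (((Finset.range (M - 1)).filter fun k0 =>
            ¬ η * v ≤ (bc P v k0).card).card : ℝ) ≤ M := by
          have := (Finset.card_filter_le (Finset.range (M - 1)) (fun k0 =>
            ¬ η * v ≤ (bc P v k0).card)).trans (by rw [Finset.card_range])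
          exact_mod_cast this.trans (Nat.sub_le _ _)
        have h5 : 0 ≤ η * v * t := by positivity
        refine (mul_le_mul_of_nonneg_right h4 h5).trans (le_of_eq ?_)
        rw [hJ]; push_cast; ring
    linarith
  -- combination
  have hcomb := comb_ineq P htR J1
  have hsplit : ∑ j ∈ Finset.range J1, (if j ∈ P then (J1 : ℝ) - 1 - j
      else max ((t : ℝ) - cnt P j) 0) = ∑ j ∈ P, ((J1 : ℝ) - 1 - j) +
      ∑ j ∈ Finset.range J1, (if j ∈ P then 0 else max ((t : ℝ) - cnt P j) 0) := by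
    have h1 : ∑ j ∈ P, ((J1 : ℝ) - 1 - j) =
        ∑ j ∈ Finset.range J1, (if j ∈ P then (J1 : ℝ) - 1 - j else 0) := by
      rw [← Finset.sum_filter]
      refine Finset.sum_congr ?_ fun _ _ => rfl
      ext j
      rw [Finset.mem_filter]
      exact ⟨fun hj => ⟨hPsub hj, hj⟩, fun hj => hj.2⟩
    rw [h1, ← Finset.sum_add_distrib]
    refine Finset.sum_congr rfl fun j _ => ?_
    split_ifs <;> ring
  rw [hsplit, hJ1R] at hcomb
  refine le_trans ?_ (add_le_add hblocks hstrips)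
  rw [← mul_add]
  refine mul_le_mul_of_nonneg_left ?_ hhR.le
  have hJR : (J : ℝ) = M * v := by rw [hJ]; push_cast; ring
  rw [hJR, hJ1R]
  have h6 : A * (((M : ℝ) - 1) * v * t - ((t : ℝ) + 1) ^ 2 / 2 - η * (M * v) * t) ≤
      A * ((∑ j ∈ P, (((M : ℝ) - 1) * v - 1 - j) +
        ∑ j ∈ Finset.range J1, (if j ∈ P then 0 else max ((t : ℝ) - cnt P j) 0)) -
          η * (M * v) * t) := by
    refine mul_le_mul_of_nonneg_left ?_ hθ
    linarith
  linarith

/-- **Visits of the non-exceptional grid points.** -/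
theorem hits_lower {ε η : ℝ} (hη : 0 ≤ η) {h v M t k : ℕ} (hh : 1 ≤ h) (hM : 1 ≤ M)
    (hθ : 0 ≤ h * (Real.log p / Real.log q) - 1)
    (hk : k ∈ Finset.range (p ^ (M * v * h))) (hkex : k ∉ exg p q ε η h v M t)
    {c : T} {r : ℝ} (hr : r ≤ 1 / 2) (hrε : 0 ≤ 2 * r - ε) :
    (2 * r - ε) * ((h : ℝ) * ((h * (Real.log p / Real.log q) - 1) *
      (((M : ℝ) - 1) * v * t - ((t : ℝ) + 1) ^ 2 / 2 - η * (M * v) * t) - M * v)) ≤
      hit p q (tri p q (p ^ (M * v * h))) (gp p (M * v * h) k) c r :=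
  (mul_le_mul_of_nonneg_left (area_ge hp hq hη hh hM hθ hk hkex) hrε).trans
    (hits_ge hp hq hh _ hr)

end

end Pool.Agent.Y314.FD
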