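import Pool.Agent.Y314.FD.GridMain

/-!
From the grid to the circle.
-/

set_option autoImplicit false

open Filter Topology Set

namespace Pool.Agent.Y314.FD

open Pool.Agent.W764.FB Pool.Agent.W764.SH Pool.Agent.W764.HL

/-- every point is close to a grid point -/
lemma near_grid {p : ℕ} (hp : 2 ≤ p) (n : ℕ) (x : T) :
    ∃ k ∈ Finset.range (p ^ n), ‖x - gp p n k‖ ≤ 1 / (p : ℝ) ^ n := by
  obtain ⟨y, hy0, hy1, rfl⟩ := exists_rep x
  have hp0 : (0 : ℝ) < (p : ℝ) ^ n := by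
    have : 0 < p ^ n := by positivity
    exact_mod_cast this
  set k := ⌊y * (p : ℝ) ^ n⌋₊ with hk
  have h1 : (k : ℝ) ≤ y * (p : ℝ) ^ n := Nat.floor_le (by positivity)
  have h2 : y * (p : ℝ) ^ n < k + 1 := Nat.lt_floor_add_one _
  refine ⟨k, ?_, ?_⟩
  · rw [Finset.mem_range]
    have : (k : ℝ) < ((p ^ n : ℕ) : ℝ) := by
      push_cast
      refine h1.trans_lt ?_
      nlinarith
    exact_mod_cast this
  · unfold gp
    rw [← AddCircle.coe_sub, UnitAddCircle.norm_eq]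
    have h3 := round_le (y - (k : ℝ) / (p : ℝ) ^ n) 0
    rw [Int.cast_zero, sub_zero] at h3
    refine h3.trans ?_
    have h4 : (k : ℝ) / (p : ℝ) ^ n ≤ y := by rw [div_le_iff₀ hp0]; exact h1
    have h5 : y < ((k : ℝ) + 1) / (p : ℝ) ^ n := by rw [lt_div_iff₀ hp0]; exact h2
    have h6 : ((k : ℝ) + 1) / (p : ℝ) ^ n = (k : ℝ) / (p : ℝ) ^ n + 1 / (p : ℝ) ^ n := by ring
    rw [abs_le]
    constructor
    · have : 0 < 1 / (p : ℝ) ^ n := by positivity
      linarith
    · linarith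

lemma norm_nsmul_le' (n : ℕ) (z : T) : ‖n • z‖ ≤ n * ‖z‖ := norm_nsmul_le

/-- visits of nearby points -/
lemma hit_near {p q : ℕ} {U : Finset (ℕ × ℕ)} {x y c : T} {r ρ : ℝ}
    (h : ∀ u ∈ U, ‖mul p q u • (x - y)‖ ≤ ρ) : hit p q U y c (r - ρ) ≤ hit p q U x c r := by
  classical
  unfold hit
  refine Finset.card_le_card fun u hu => ?_
  rw [Finset.mem_filter] at hu ⊢
  refine ⟨hu.1, ?_⟩
  have e : mul p q u • x - c = (mul p q u • y - c) + mul p q u • (x - y) := by
    rw [smul_sub]; abel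
  rw [e]
  refine (norm_add_le _ _).trans ?_
  have := h u hu.1
  have := hu.2
  linarith

/-- visits along a smaller window -/
lemma hit_sub {p q : ℕ} {U V : Finset (ℕ × ℕ)} (hUV : U ⊆ V) (x c : T) (r : ℝ) :
    (hit p q V x c r : ℝ) ≤ hit p q U x c r + ((V.card : ℝ) - U.card) := by
  classical
  have h1 : hit p q V x c r ≤ hit p q U x c r + (V \ U).card := by
    unfold hit
    have hsub : (V.filter fun u => ‖mul p q u • x - c‖ ≤ r) ⊆
        (U.filter fun u => ‖mul p q u • x - c‖ ≤ r) ∪ (V \ U) := by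
      intro u hu
      rw [Finset.mem_filter] at hu
      rw [Finset.mem_union, Finset.mem_filter, Finset.mem_sdiff]
      by_cases h : u ∈ U
      · left; exact ⟨h, hu.2⟩
      · right; exact ⟨hu.1, h⟩
    exact (Finset.card_le_card hsub).trans (Finset.card_union_le _ _)
  have h2 : (V \ U).card + U.card = V.card := by
    rw [Finset.card_sdiff_of_subset hUV]
    exact Nat.sub_add_cancel (Finset.card_le_card hUV)
  have h3 : ((V \ U).card : ℝ) = V.card - U.card := by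
    have : ((V \ U).card : ℝ) + U.card = V.card := by exact_mod_cast h2
    linarith
  have h4 : (hit p q V x c r : ℝ) ≤ hit p q U x c r + ((V \ U).card : ℝ) := by exact_mod_cast h1
  rw [h3] at h4
  exact h4

section
variable {p q : ℕ} (hp : 2 ≤ p) (hq : 2 ≤ q)
include hp hq

/-- the error terms are negligible -/
lemma err_small (D u0 : ℕ) {ε : ℝ} (hε : 0 < ε) : ∃ n0 : ℕ, ∀ n : ℕ, n0 ≤ n → D ≤ n ∧
    (((tri p q (p ^ n)).card : ℝ) - (tri p q (p ^ (n - D))).card) +
    (((tri p q (p ^ (n + u0))).card : ℝ) - (tri p q (p ^ n)).card) ≤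
      ε * (tri p q (p ^ n)).card := by
  obtain ⟨hlp, hlq⟩ := log_pos' hp hq
  set θ := Real.log p / Real.log q with hθ
  have hθ0 : 0 < θ := by positivity
  set B : ℝ := (1 + 1) * (D * θ + 1) + (1 + u0 + 1) * (u0 * θ + 1) with hB
  have hB0 : 0 < B := by positivity
  obtain ⟨n1, hn1⟩ := exists_nat_ge (2 * B / (ε * θ))
  refine ⟨max n1 (D + 1), fun n hn => ?_⟩
  have hnD : D + 1 ≤ n := (le_max_right _ _).trans hn
  have hn1' : (n1 : ℝ) ≤ n := by exact_mod_cast (le_max_left _ _).trans hn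
  have hnR : (1 : ℝ) ≤ n := by
    have : 1 ≤ n := by omega
    exact_mod_cast this
  refine ⟨by omega, ?_⟩
  have h1 := card_tri_diff hp hq (n - D) D
  have h2 := card_tri_diff hp hq n u0
  rw [Nat.sub_add_cancel (by omega : D ≤ n)] at h1
  have h3 : ((n - D : ℕ) : ℝ) + D = n := by
    rw [Nat.cast_sub (by omega)]; ring
  rw [h3] at h1
  rw [← hθ] at h1 h2
  have h4 := le_card_tri hp hq n
  rw [← hθ] at h4
  have h5 : ((n : ℝ) + 1) * (D * θ + 1) + (n + u0 + 1) * (u0 * θ + 1) ≤ B * n := by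
    have h6 : (n : ℝ) + 1 ≤ (1 + 1) * n := by linarith
    have h7 : (n : ℝ) + u0 + 1 ≤ (1 + u0 + 1) * n := by
      have : (0 : ℝ) ≤ u0 := Nat.cast_nonneg _
      nlinarith
    have h8 : ((n : ℝ) + 1) * (D * θ + 1) ≤ ((1 + 1) * n) * (D * θ + 1) :=
      mul_le_mul_of_nonneg_right h6 (by positivity)
    have h9 : ((n : ℝ) + u0 + 1) * (u0 * θ + 1) ≤ ((1 + u0 + 1) * n) * (u0 * θ + 1) :=
      mul_le_mul_of_nonneg_right h7 (by positivity)
    have e : B * n = ((1 + 1) * n) * (D * θ + 1) + ((1 + u0 + 1) * n) * (u0 * θ + 1) := by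
      rw [hB]; ring
    rw [e]; linarith
  have h6 : B * n ≤ ε * (θ * (n * (n + 1) / 2)) := by
    have h7 : 2 * B / (ε * θ) ≤ n := hn1.trans hn1'
    rw [div_le_iff₀ (by positivity)] at h7
    have h8 : 2 * B * n ≤ n * (ε * θ) * n := mul_le_mul_of_nonneg_right h7 (by linarith)
    have h9 : n * (ε * θ) * (n : ℝ) ≤ n * (ε * θ) * (n + 1) :=
      mul_le_mul_of_nonneg_left (by linarith) (by positivity)
    have e : ε * (θ * ((n : ℝ) * (n + 1) / 2)) = (n * (ε * θ) * (n + 1)) / 2 := by ring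
    rw [e, le_div_iff₀ (by norm_num)]
    linarith
  have h7 : ε * (θ * (n * (n + 1) / 2)) ≤ ε * (tri p q (p ^ n)).card :=
    mul_le_mul_of_nonneg_left h4 hε.le
  linarith

/-- **Deficient points are close to few grid points.** -/
theorem cover_main (hpq : Nat.Coprime p q) {s : ℝ} (hs0 : 0 < s) (hs1 : s ≤ 1) {ε : ℝ}
    (hε : 0 < ε) :
    ∃ u0 : ℕ, 1 ≤ u0 ∧ ∃ v0 : ℕ, ∃ E : ℕ → Finset ℕ, ∀ v : ℕ, v0 ≤ v →
      ((E v).card : ℝ) ≤ (p : ℝ) ^ (s * ((u0 * v : ℕ) : ℝ)) ∧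
      ∀ N : ℕ, p ^ (u0 * v) ≤ N → N < p ^ (u0 * (v + 1)) → ∀ x : T,
        (∃ c : T, ∃ r : ℝ, r ≤ 1 / 2 ∧ (hit p q (tri p q N) x c r : ℝ) <
          ((1 - (1 - s) ^ 2) * (2 * r) - ε) * (tri p q N).card) →
        ∃ k ∈ E v, ‖x - gp p (u0 * v) k‖ ≤ 1 / (p : ℝ) ^ (u0 * v) := by
  obtain ⟨u0, hu0, v1, hv1⟩ := grid_main hp hq hpq hs0 hs1 (ε := ε / 4) (by positivity)
  choose! E hE1 hE2 using hv1
  have hp1 : (1 : ℝ) < p := by exact_mod_cast (by omega : 1 < p)
  have hp0 : (0 : ℝ) < p := by linarith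
  obtain ⟨D, hD⟩ := pow_unbounded_of_one_lt (1 / (ε / 8)) hp1
  have hD' : 1 / (p : ℝ) ^ D ≤ ε / 8 := by
    rw [div_le_iff₀ (by positivity)]
    rw [div_lt_iff₀ (by positivity)] at hD
    linarith
  obtain ⟨n0, hn0⟩ := err_small hp hq D u0 (ε := ε / 2) (by positivity)
  refine ⟨u0, hu0, v1 + n0, E, fun v hv => ⟨hE1 v (by omega), fun N hN1 hN2 x hx => ?_⟩⟩
  obtain ⟨k, hk, hxk⟩ := near_grid hp (u0 * v) x
  by_contra hcon
  push Not at hcon
  have hkE : k ∉ E v := fun h => absurd hxk (not_le.2 (hcon k h))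
  obtain ⟨c, r, hr, hlt⟩ := hx
  set n := u0 * v with hn
  have hnv : v ≤ n := by rw [hn]; exact Nat.le_mul_of_pos_left _ hu0
  obtain ⟨hDn, herr⟩ := hn0 n (by omega)
  set a : ℝ := 1 - (1 - s) ^ 2 with ha
  have ha0 : 0 ≤ a := by
    have e : a = s * (2 - s) := by rw [ha]; ring
    rw [e]; exact mul_nonneg hs0.le (by linarith)
  have ha1 : a ≤ 1 := by
    have := sq_nonneg (1 - s)
    rw [ha]; linarith
  have h1 := hE2 v (by omega) k hk hkE c (r - ε / 8) (by linarith)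
  have hsub1 : tri p q (p ^ (n - D)) ⊆ tri p q (p ^ n) :=
    tri_mono (Nat.pow_le_pow_right (by omega) (Nat.sub_le _ _)) hp hq
  have hsub2 : tri p q (p ^ (n - D)) ⊆ tri p q N :=
    hsub1.trans (tri_mono hN1 hp hq)
  have h2 := hit_sub (p := p) (q := q) hsub1 (gp p n k) c (r - ε / 8)
  have h3 : hit p q (tri p q (p ^ (n - D))) (gp p n k) c (r - ε / 8) ≤
      hit p q (tri p q (p ^ (n - D))) x c r := by
    refine hit_near fun u hu => ?_
    refine (norm_nsmul_le' _ _).trans ?_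
    rw [mem_tri hp hq] at hu
    have h4 : (mul p q u : ℝ) ≤ (p : ℝ) ^ (n - D) := by exact_mod_cast hu
    calc (mul p q u : ℝ) * ‖x - gp p n k‖ ≤ (p : ℝ) ^ (n - D) * (1 / (p : ℝ) ^ n) :=
          mul_le_mul h4 hxk (norm_nonneg _) (by positivity)
      _ = 1 / (p : ℝ) ^ D := by
          have e : (p : ℝ) ^ n = p ^ (n - D) * p ^ D := by
            rw [← pow_add]; congr 1; omega
          rw [e]
          field_simp
      _ ≤ ε / 8 := hD'
  have h4 : hit p q (tri p q (p ^ (n - D))) x c r ≤ hit p q (tri p q N) x c r :=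
    hit_mono hsub2 x c r
  have h3' : (hit p q (tri p q (p ^ (n - D))) (gp p n k) c (r - ε / 8) : ℝ) ≤
      hit p q (tri p q N) x c r := by exact_mod_cast h3.trans h4
  have h5 : ((tri p q N).card : ℝ) ≤ (tri p q (p ^ (n + u0))).card := by
    have : tri p q N ⊆ tri p q (p ^ (n + u0)) := by
      refine tri_mono ?_ hp hq
      have e : n + u0 = u0 * (v + 1) := by rw [hn]; ring
      rw [e]; exact hN2.le
    exact_mod_cast Finset.card_le_card this
  have hN0 : (0 : ℝ) ≤ (tri p q N).card := Nat.cast_nonneg _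
  have hpos : 0 < a * (2 * r) - ε := by
    by_contra hle
    push Not at hle
    have h6 : (a * (2 * r) - ε) * (tri p q N).card ≤ 0 := mul_nonpos_of_nonpos_of_nonneg hle hN0
    have h7 : (0 : ℝ) ≤ hit p q (tri p q N) x c r := Nat.cast_nonneg _
    linarith
  have hle1 : a * (2 * r) - ε ≤ 1 := by
    have h8 : a * (2 * r) ≤ a * 1 := mul_le_mul_of_nonneg_left (by linarith) ha0
    linarith
  set X : ℝ := ((tri p q (p ^ n)).card : ℝ) with hX
  have h6 : (a * (2 * r) - ε) * (tri p q N).card ≤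
      (a * (2 * r) - ε) * X + ((tri p q (p ^ (n + u0))).card - X) := by
    have h7 : (a * (2 * r) - ε) * (tri p q N).card ≤
        (a * (2 * r) - ε) * (X + ((tri p q (p ^ (n + u0))).card - X)) := by
      refine mul_le_mul_of_nonneg_left ?_ hpos.le
      linarith
    have h8 : 0 ≤ ((tri p q (p ^ (n + u0))).card : ℝ) - X := by
      have : tri p q (p ^ n) ⊆ tri p q (p ^ (n + u0)) :=
        tri_mono (Nat.pow_le_pow_right (by omega) (Nat.le_add_right _ _)) hp hq
      have h9 : X ≤ (tri p q (p ^ (n + u0))).card := by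
        rw [hX]; exact_mod_cast Finset.card_le_card this
      linarith
    have h9 : (a * (2 * r) - ε) * (((tri p q (p ^ (n + u0))).card : ℝ) - X) ≤
        1 * (((tri p q (p ^ (n + u0))).card : ℝ) - X) := mul_le_mul_of_nonneg_right hle1 h8
    rw [mul_add] at h7
    linarith
  have hX0 : 0 ≤ X := Nat.cast_nonneg _
  have h7 : (a * (2 * (r - ε / 8)) - ε / 4) * X = (a * (2 * r) - ε) * X +
      ((3 / 4) * ε - a * (ε / 4)) * X := by ring
  have h8 : (ε / 2) * X ≤ ((3 / 4) * ε - a * (ε / 4)) * X := by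
    refine mul_le_mul_of_nonneg_right ?_ hX0
    nlinarith
  linarith

end

end Pool.Agent.Y314.FD
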