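import Pool.Agent.Y314.FD.Defs
import Pool.Agent.Y314.FD.Transfer
import Pool.Agent.Y314.FD.DimUp
import Pool.Agent.Y314.FD.Jarnik

/-!
The Hausdorff dimension of the set of points with deficient visit frequencies.
-/

set_option autoImplicit false

open Filter Topology Set

namespace Pool.Agent.Y314.FD

open Pool.Agent.W764.FB Pool.Agent.W764.SH Pool.Agent.W764.HL

section
variable {p q : ℕ} (hp : 2 ≤ p) (hq : 2 ≤ q)
include hp hq

lemma freq_eq (hpq : Nat.Coprime p q) (N : ℕ) (x c : T) (r : ℝ) :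
    freq p q N x c r = hit p q (tri p q N) x c r / (tri p q N).card := by
  classical
  have hinj : Function.Injective (mul p q) := pow_mul_inj hp hq (irr_of_coprime hp hq hpq)
  unfold freq
  congr 1
  · have h1 : {n : ℕ | n ≤ N ∧ (∃ i j : ℕ, n = p ^ i * q ^ j) ∧ n • x ∈ Metric.closedBall c r} =
        mul p q '' (((tri p q N).filter fun u => ‖mul p q u • x - c‖ ≤ r : Finset (ℕ × ℕ)) :
          Set (ℕ × ℕ)) := by
      ext n
      simp only [Set.mem_image, Finset.mem_coe, Finset.mem_filter, mem_tri hp hq]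
      constructor
      · rintro ⟨h1, ⟨i, j, h2⟩, h3⟩
        refine ⟨(i, j), ⟨?_, ?_⟩, h2.symm⟩
        · unfold mul; rw [← h2]; exact h1
        · rw [Metric.mem_closedBall, dist_eq_norm] at h3
          unfold mul; rw [← h2]; exact h3
      · rintro ⟨u, ⟨h1, h2⟩, rfl⟩
        refine ⟨h1, ⟨u.1, u.2, rfl⟩, ?_⟩
        rw [Metric.mem_closedBall, dist_eq_norm]
        exact h2
    rw [h1, Set.ncard_image_of_injective _ hinj, Set.ncard_coe_finset]
    unfold hit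
    congr
  · have h1 : {n : ℕ | n ≤ N ∧ ∃ i j : ℕ, n = p ^ i * q ^ j} =
        mul p q '' ((tri p q N : Finset (ℕ × ℕ)) : Set (ℕ × ℕ)) := by
      ext n
      simp only [Set.mem_image, Finset.mem_coe, mem_tri hp hq]
      constructor
      · rintro ⟨h1, i, j, h2⟩
        exact ⟨(i, j), by unfold mul; rw [← h2]; exact h1, h2.symm⟩
      · rintro ⟨u, h1, rfl⟩
        exact ⟨h1, u.1, u.2, rfl⟩
    rw [h1, Set.ncard_image_of_injective _ hinj, Set.ncard_coe_finset]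

lemma tri_card_pos {N : ℕ} (hN : 1 ≤ N) : (0 : ℝ) < (tri p q N).card := by
  have : (0, 0) ∈ tri p q N := by
    rw [mem_tri hp hq]; unfold mul; simpa using hN
  exact_mod_cast Finset.card_pos.2 ⟨_, this⟩

omit hp hq in
lemma freq_nonneg (N : ℕ) (x c : T) (r : ℝ) : 0 ≤ freq p q N x c r := by
  unfold freq; positivity

lemma freq_le_one (hpq : Nat.Coprime p q) (N : ℕ) (x c : T) (r : ℝ) :
    freq p q N x c r ≤ 1 := by
  rw [freq_eq hp hq hpq]
  rcases (Nat.cast_nonneg (tri p q N).card : (0 : ℝ) ≤ _).eq_or_lt' with h | h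
  · rw [h, div_zero]; exact zero_le_one
  · rw [div_le_one h]
    exact_mod_cast hit_le p q _ x c r

lemma freq_lt_iff (hpq : Nat.Coprime p q) {N : ℕ} (hN : 1 ≤ N) (x c : T) (r y : ℝ) :
    freq p q N x c r < y ↔ (hit p q (tri p q N) x c r : ℝ) < y * (tri p q N).card := by
  rw [freq_eq hp hq hpq, div_lt_iff₀ (tri_card_pos hp hq hN)]

/-- the bad set of level `ε` has small dimension -/
lemma dim_level (hpq : Nat.Coprime p q) {s : ℝ} (hs0 : 0 < s) (hs1 : s ≤ 1) {ε : ℝ} (hε : 0 < ε) :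
    dimH {x : T | ∃ c : T, ∃ r : ℝ, r ≤ 1 / 2 ∧
      ∃ᶠ N in atTop, freq p q N x c r < (1 - (1 - s) ^ 2) * (2 * r) - ε} ≤ ENNReal.ofReal s := by
  obtain ⟨u0, hu0, v0, E, hE⟩ := cover_main hp hq hpq hs0 hs1 hε
  have hp1 : (1 : ℝ) < p := by exact_mod_cast (by omega : 1 < p)
  have hp0 : (0 : ℝ) < p := by linarith
  set b : ℝ := 1 / (p : ℝ) ^ u0 with hb
  have hpu : (1 : ℝ) < (p : ℝ) ^ u0 := one_lt_pow₀ hp1 (by omega)
  have hb0 : 0 < b := by positivity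
  have hb1 : b < 1 := by
    rw [hb, div_lt_one (by positivity)]; exact hpu
  have hbv : ∀ v : ℕ, b ^ v = 1 / (p : ℝ) ^ (u0 * v) := by
    intro v; rw [hb, div_pow, one_pow, ← pow_mul]
  refine dimH_le_of_balls _ (fun v => (E v).image (gp p (u0 * v))) (b := b) (s := s) (v0 := v0)
    hb0 hb1 hs0.le ?_ ?_
  · intro v hv
    have h1 : (((E v).image (gp p (u0 * v))).card : ℝ) ≤ (E v).card := by
      exact_mod_cast Finset.card_image_le
    refine h1.trans ((hE v hv).1.trans (le_of_eq ?_))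
    have h2 : b = (p : ℝ) ^ (-(u0 : ℝ)) := by
      rw [hb, Real.rpow_neg hp0.le, Real.rpow_natCast, one_div]
    rw [h2, ← Real.rpow_mul hp0.le]
    congr 1
    push_cast
    ring
  · rintro x ⟨c, r, hr, hx⟩
    rw [frequently_atTop]
    intro v1
    obtain ⟨N, hN, hbad⟩ := (frequently_atTop.1 hx) (p ^ (u0 * (v0 + v1)))
    have hpp : 1 < p ^ u0 := Nat.one_lt_pow (by omega) (by omega)
    have hN1 : 1 ≤ N := le_trans (Nat.one_le_pow _ _ (by omega)) hN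
    set v := Nat.log (p ^ u0) N with hv
    have h1 : (p ^ u0) ^ v ≤ N := Nat.pow_log_le_self _ (by omega)
    have h2 : N < (p ^ u0) ^ (v + 1) := Nat.lt_pow_succ_log_self hpp N
    rw [← pow_mul] at h1 h2
    have h3 : v0 + v1 ≤ v := by
      rw [hv]
      refine Nat.le_log_of_pow_le hpp ?_
      rw [← pow_mul]; exact hN
    obtain ⟨k, hk, hxk⟩ := (hE v (by omega)).2 N h1 h2 x
      ⟨c, r, hr, (freq_lt_iff hp hq hpq hN1 x c r _).1 hbad⟩
    refine ⟨v, by omega, gp p (u0 * v) k, Finset.mem_image_of_mem _ hk, ?_⟩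
    rw [dist_eq_norm, hbv]
    exact hxk

/-- **Upper bound of the dimension.** -/
theorem dim_upper (hpq : Nat.Coprime p q) {s : ℝ} (hs0 : 0 < s) (hs1 : s ≤ 1) :
    dimH {x : T | ∃ c : T, ∃ r : ℝ, 0 < r ∧ r ≤ 1 / 2 ∧
      liminf (fun N => freq p q N x c r) atTop < (1 - (1 - s) ^ 2) * (2 * r)} ≤
      ENNReal.ofReal s := by
  have hsub : {x : T | ∃ c : T, ∃ r : ℝ, 0 < r ∧ r ≤ 1 / 2 ∧
      liminf (fun N => freq p q N x c r) atTop < (1 - (1 - s) ^ 2) * (2 * r)} ⊆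
      ⋃ j : ℕ, {x : T | ∃ c : T, ∃ r : ℝ, r ≤ 1 / 2 ∧
        ∃ᶠ N in atTop, freq p q N x c r < (1 - (1 - s) ^ 2) * (2 * r) - 1 / ((j : ℝ) + 1)} := by
    rintro x ⟨c, r, -, hr, hlt⟩
    set L := liminf (fun N => freq p q N x c r) atTop with hL
    obtain ⟨j, hj⟩ := exists_nat_one_div_lt (sub_pos.2 hlt)
    rw [Set.mem_iUnion]
    refine ⟨j, c, r, hr, ?_⟩
    have h1 : L < (1 - (1 - s) ^ 2) * (2 * r) - 1 / ((j : ℝ) + 1) := by linarith
    refine frequently_lt_of_liminf_lt ?_ h1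
    refine IsBoundedUnder.isCoboundedUnder_ge ?_
    exact ⟨1, eventually_map.2 (Eventually.of_forall fun N => freq_le_one hp hq hpq N x c r)⟩
  refine (dimH_mono hsub).trans ?_
  rw [dimH_iUnion]
  exact iSup_le fun j => dim_level hp hq hpq hs0 hs1 (by positivity)

/-- the number of multipliers with a large first exponent -/
lemma run_hits {n1 n2 D : ℕ} (hD : n1 + D ≤ n2) {x : T}
    (hx : ‖p ^ n1 • x‖ ≤ 1 / (p : ℝ) ^ (n2 - n1)) {ρ : ℝ} (hρ : 1 / (p : ℝ) ^ D < ρ) :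
    (hit p q (tri p q (p ^ n2)) x (((1 / 2 : ℝ)) : T) (1 / 2 - ρ) : ℝ) ≤
      (tri p q (p ^ n2)).card - (tri p q (p ^ (n2 - n1 - D))).card := by
  classical
  have hp0 : (0 : ℝ) < p := by
    have : 0 < p := by omega
    exact_mod_cast this
  have hsub : shw n1 (tri p q (p ^ (n2 - n1 - D))) ⊆ tri p q (p ^ n2) := by
    intro u hu
    unfold shw at hu
    obtain ⟨w, hw, rfl⟩ := Finset.mem_image.1 hu
    rw [mem_tri hp hq] at hw ⊢
    have e : mul p q (w.1 + n1, w.2) = p ^ n1 * mul p q w := by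
      unfold mul; simp only; ring
    rw [e]
    calc p ^ n1 * mul p q w ≤ p ^ n1 * p ^ (n2 - n1 - D) := Nat.mul_le_mul_left _ hw
      _ = p ^ (n1 + (n2 - n1 - D)) := (pow_add _ _ _).symm
      _ ≤ p ^ n2 := Nat.pow_le_pow_right (by omega) (by omega)
  have hdisj : Disjoint ((tri p q (p ^ n2)).filter fun u =>
      ‖mul p q u • x - (((1 / 2 : ℝ)) : T)‖ ≤ 1 / 2 - ρ) (shw n1 (tri p q (p ^ (n2 - n1 - D)))) := by
    rw [Finset.disjoint_left]
    intro u hu hu'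
    rw [Finset.mem_filter] at hu
    unfold shw at hu'
    obtain ⟨w, hw, rfl⟩ := Finset.mem_image.1 hu'
    rw [mem_tri hp hq] at hw
    have e : mul p q (w.1 + n1, w.2) • x = mul p q w • (p ^ n1 • x) := by
      rw [← mul_smul]; congr 1
      unfold mul; simp only; ring
    have h1 : ‖mul p q w • (p ^ n1 • x)‖ ≤ 1 / (p : ℝ) ^ D := by
      refine (norm_nsmul_le' _ _).trans ?_
      have h2 : (mul p q w : ℝ) ≤ (p : ℝ) ^ (n2 - n1 - D) := by exact_mod_cast hw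
      calc (mul p q w : ℝ) * ‖p ^ n1 • x‖ ≤ (p : ℝ) ^ (n2 - n1 - D) * (1 / (p : ℝ) ^ (n2 - n1)) :=
            mul_le_mul h2 hx (norm_nonneg _) (by positivity)
        _ = 1 / (p : ℝ) ^ D := by
            have e : (p : ℝ) ^ (n2 - n1) = p ^ (n2 - n1 - D) * p ^ D := by
              rw [← pow_add]; congr 1; omega
            rw [e]; field_simp
    have h2 := hu.2
    rw [e] at h2
    have h3 : ‖(((1 / 2 : ℝ)) : T)‖ = 1 / 2 := by
      have h4 := (AddCircle.norm_coe_eq_abs_iff (p := (1 : ℝ)) (x := 1 / 2) one_ne_zero).2 (by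
        rw [abs_one, abs_of_nonneg (by norm_num)])
      rw [h4, abs_of_nonneg (by norm_num)]
    have h4 : ‖(((1 / 2 : ℝ)) : T)‖ ≤ ‖mul p q w • (p ^ n1 • x)‖ +
        ‖mul p q w • (p ^ n1 • x) - (((1 / 2 : ℝ)) : T)‖ := by
      have h5 := norm_sub_norm_le (((1 / 2 : ℝ)) : T) (mul p q w • (p ^ n1 • x))
      rw [norm_sub_rev] at h5
      linarith
    rw [h3] at h4
    linarith
  have h1 := Finset.card_union_of_disjoint hdisj
  have h2 : ((tri p q (p ^ n2)).filter fun u =>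
      ‖mul p q u • x - (((1 / 2 : ℝ)) : T)‖ ≤ 1 / 2 - ρ) ∪
      (shw n1 (tri p q (p ^ (n2 - n1 - D)))) ⊆ tri p q (p ^ n2) :=
    Finset.union_subset (Finset.filter_subset _ _) hsub
  have h3 := Finset.card_le_card h2
  rw [h1] at h3
  have h4 : (shw n1 (tri p q (p ^ (n2 - n1 - D)))).card = (tri p q (p ^ (n2 - n1 - D))).card := by
    unfold shw
    refine Finset.card_image_of_injective _ ?_
    rintro ⟨a, b⟩ ⟨a', b'⟩ h
    simp only [Prod.mk.injEq] at h ⊢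
    exact ⟨by omega, h.2⟩
  rw [h4] at h3
  have h5 : (hit p q (tri p q (p ^ n2)) x (((1 / 2 : ℝ)) : T) (1 / 2 - ρ) : ℝ) +
      (tri p q (p ^ (n2 - n1 - D))).card ≤ (tri p q (p ^ n2)).card := by
    unfold hit
    exact_mod_cast h3
  linarith

/-- the relative size of the triangle of the multipliers with a large first exponent -/
lemma tri_ratio {φ ς : ℝ} (hφ0 : 0 ≤ φ) (hφ1 : φ ≤ 1) (hς : 0 < ς) (hςφ : ς ≤ φ ^ 2) (D : ℕ) :
    ∃ n0 : ℕ, ∀ n2 n3 : ℕ, n0 ≤ n2 → (n3 : ℝ) = φ * n2 - D →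
      (φ ^ 2 - ς) * (tri p q (p ^ n2)).card ≤ (tri p q (p ^ n3)).card := by
  obtain ⟨hlp, hlq⟩ := log_pos' hp hq
  set θ := Real.log p / Real.log q with hθ
  have hθ0 : 0 < θ := by positivity
  obtain ⟨n1, hn1⟩ := exists_nat_ge (2 * (θ / 2 + 2 + θ * D) / (ς * θ))
  refine ⟨n1 + 1, fun n2 n3 hn2 hn3 => ?_⟩
  have h1 : (n1 : ℝ) + 1 ≤ n2 := by exact_mod_cast hn2
  have hn2' : 2 * (θ / 2 + 2 + θ * D) / (ς * θ) ≤ n2 := by linarith
  have hn20 : (1 : ℝ) ≤ n2 := by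
    have : (0 : ℝ) ≤ n1 := Nat.cast_nonneg _
    linarith
  rw [div_le_iff₀ (by positivity)] at hn2'
  refine le_trans ?_ (le_card_tri hp hq n3)
  have h2 := card_tri_le hp hq n2
  rw [← hθ] at h2 ⊢
  have h3 : (φ ^ 2 - ς) * (tri p q (p ^ n2)).card ≤
      (φ ^ 2 - ς) * (θ * (n2 * (n2 + 1) / 2) + (n2 + 1)) :=
    mul_le_mul_of_nonneg_left h2 (by linarith)
  refine h3.trans ?_
  have hn30 : (0 : ℝ) ≤ n3 := Nat.cast_nonneg _
  have h4 : θ * ((n3 : ℝ) ^ 2 / 2) ≤ θ * (n3 * (n3 + 1) / 2) := by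
    apply mul_le_mul_of_nonneg_left _ hθ0.le
    nlinarith
  refine le_trans ?_ h4
  rw [hn3]
  have hDR : (0 : ℝ) ≤ D := Nat.cast_nonneg _
  have h5 : (φ ^ 2 - ς) * (θ * ((n2 : ℝ) * (n2 + 1) / 2) + (n2 + 1)) ≤
      (φ ^ 2 - ς) * (θ * n2 ^ 2 / 2) + (θ / 2 + 2) * n2 := by
    have h6 : φ ^ 2 - ς ≤ 1 := by nlinarith
    have h7 : (φ ^ 2 - ς) * (θ / 2 * n2 + n2 + 1) ≤ 1 * (θ / 2 * n2 + n2 + 1) :=
      mul_le_mul_of_nonneg_right h6 (by positivity)
    have e : (φ ^ 2 - ς) * (θ * ((n2 : ℝ) * (n2 + 1) / 2) + (n2 + 1)) =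
        (φ ^ 2 - ς) * (θ * n2 ^ 2 / 2) + (φ ^ 2 - ς) * (θ / 2 * n2 + n2 + 1) := by ring
    rw [e]
    linarith
  refine h5.trans ?_
  have h6 : 2 * (θ / 2 + 2 + θ * D) * n2 ≤ n2 * (ς * θ) * n2 :=
    mul_le_mul_of_nonneg_right hn2' (by linarith)
  have h7 : θ * ((φ * n2 - D) ^ 2 / 2) = φ ^ 2 * (θ * n2 ^ 2 / 2) - θ * (φ * n2 * D) +
      θ * (D ^ 2 / 2) := by ring
  have h8 : θ * (φ * n2 * D) ≤ θ * (1 * n2 * D) := by gcongr
  have h9 : 0 ≤ θ * ((D : ℝ) ^ 2 / 2) := by positivity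
  rw [h7]
  nlinarith

end

end Pool.Agent.Y314.FD
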