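import Pool.Agent.Y314.FD.Final

/-!
Consequences for measures of positive dimension.
-/

set_option autoImplicit false

open Filter Topology Set MeasureTheory
open scoped ENNReal

namespace Pool.Agent.Y314.FD

/-- **Measures of positive dimension.** -/
theorem ae_lower {p q : ℕ} (hp : 2 ≤ p) (hq : 2 ≤ q) (hpq : Nat.Coprime p q) {s : ℝ}
    (hs0 : 0 < s) (hs1 : s ≤ 1) (μ : Measure UnitAddCircle)
    (hμ : ∀ A : Set UnitAddCircle, dimH A < ENNReal.ofReal s → μ A = 0) :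
    ∀ᵐ x ∂μ, ∀ c : UnitAddCircle, ∀ r : ℝ, 0 < r → r ≤ 1 / 2 →
      (1 - (1 - s) ^ 2) * (2 * r) ≤ liminf (fun N => freq p q N x c r) atTop := by
  set E : ℕ → Set UnitAddCircle := fun j => {x | ∃ c : UnitAddCircle, ∃ r : ℝ, 0 < r ∧ r ≤ 1 / 2 ∧
    liminf (fun N => freq p q N x c r) atTop <
      (1 - (1 - (s - s / ((j : ℝ) + 1))) ^ 2) * (2 * r)} with hE
  have hj1 : ∀ j : ℕ, 0 < s / ((j : ℝ) + 1) ∧ s / ((j : ℝ) + 1) ≤ s := by
    intro j
    have hj : (0 : ℝ) < (j : ℝ) + 1 := by positivity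
    refine ⟨by positivity, div_le_self hs0.le ?_⟩
    have : (0 : ℝ) ≤ j := Nat.cast_nonneg j
    linarith
  have hnull : ∀ j, μ (E j) = 0 := by
    intro j
    apply hμ
    obtain ⟨h1, h2⟩ := hj1 j
    rw [hE]
    simp only
    rw [spectrum hp hq hpq (by linarith) (by linarith)]
    exact (ENNReal.ofReal_lt_ofReal_iff hs0).2 (by linarith)
  have hun : μ (⋃ j, E j) = 0 := measure_iUnion_null hnull
  rw [ae_iff]
  refine measure_mono_null ?_ hun
  intro x hx
  simp only [Set.mem_ofPred_eq] at hx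
  push Not at hx
  obtain ⟨c, r, hr0, hr, hlt⟩ := hx
  have hlim : Tendsto (fun j : ℕ => (1 - (1 - (s - s / ((j : ℝ) + 1))) ^ 2) * (2 * r)) atTop
      (𝓝 ((1 - (1 - (s - 0)) ^ 2) * (2 * r))) := by
    have h1 : Tendsto (fun j : ℕ => s / ((j : ℝ) + 1)) atTop (𝓝 0) := by
      have h2 : Tendsto (fun j : ℕ => (j : ℝ) + 1) atTop atTop :=
        tendsto_atTop_add_const_right _ _ tendsto_natCast_atTop_atTop
      exact h2.const_div_atTop s
    exact (tendsto_const_nhds.sub ((tendsto_const_nhds.sub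
      (tendsto_const_nhds.sub h1)).pow 2)).mul_const _
  rw [sub_zero] at hlim
  obtain ⟨j, hj⟩ := (hlim.eventually (lt_mem_nhds hlt)).exists
  exact Set.mem_iUnion.2 ⟨j, c, r, hr0, hr, hj⟩

end Pool.Agent.Y314.FD
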