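import Pool.Agent.Y314.FD.Base
import Pool.Agent.W764.SH.Coprime
import Pool.Agent.H847R3.XpXqD

/-!
The cluster lemma for points in one fibre of multiplication by a power of `p`.
-/

set_option autoImplicit false

open MeasureTheory Filter Topology Set

namespace Pool.Agent.Y314.FD

open Pool.Agent.W764.FB Pool.Agent.W764.SH Pool.Agent.W764.HL

/-- number of torsion points in an arc -/
lemma torsion_count {d : ℕ} (hd : 1 ≤ d) (c : T) {ρ : ℝ} (hρ : 0 ≤ ρ) (S : Finset T)
    (hS : ∀ y ∈ S, d • y = 0 ∧ ‖y - c‖ ≤ ρ) : (S.card : ℝ) ≤ 2 * ρ * d + 1 := by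
  have hdR : (0 : ℝ) < d := by exact_mod_cast hd
  obtain ⟨x, rfl⟩ : ∃ d : ℝ, (d : T) = c := QuotientAddGroup.mk_surjective c
  have h1 : ∀ y : T, ∃ k : ℤ, (d • y = 0 ∧ ‖y - (x : T)‖ ≤ ρ) → y = ((k / d : ℝ) : T) ∧
      d * (x - ρ) ≤ k ∧ k ≤ d * (x + ρ) := by
    intro y
    by_cases hy : d • y = 0 ∧ ‖y - (x : T)‖ ≤ ρ
    · obtain ⟨s, hs1, hs2⟩ := Pool.Agent.H847R3.XpXq.exists_rep_norm (y - (x : T))
      have hy1 : y = ((x + s : ℝ) : T) := by
        rw [AddCircle.coe_add, hs1]; abel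
      have h2 : d • ((x + s : ℝ) : T) = 0 := by rw [← hy1]; exact hy.1
      rw [← AddCircle.coe_nsmul, AddCircle.coe_eq_zero_iff] at h2
      obtain ⟨k, hk⟩ := h2
      have hk' : (k : ℝ) = d * (x + s) := by
        rw [zsmul_eq_mul, mul_one, nsmul_eq_mul] at hk
        exact hk
      have hs3 : |s| ≤ ρ := by rw [hs2]; exact hy.2
      rw [abs_le] at hs3
      refine ⟨k, fun _ => ⟨?_, ?_, ?_⟩⟩
      · rw [hy1, hk', mul_div_cancel_left₀ _ hdR.ne']
      · rw [hk']
        have : x - ρ ≤ x + s := by linarith [hs3.1]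
        exact mul_le_mul_of_nonneg_left this hdR.le
      · rw [hk']
        have : x + s ≤ x + ρ := by linarith [hs3.2]
        exact mul_le_mul_of_nonneg_left this hdR.le
    · exact ⟨0, fun h => absurd h hy⟩
  choose k hk using h1
  have hinj : Set.InjOn k (S : Set T) := by
    intro a ha b hb hab
    rw [(hk a (hS a ha)).1, (hk b (hS b hb)).1, hab]
  have hsub : S.image k ⊆ Finset.Icc ⌈d * (x - ρ)⌉ ⌊d * (x + ρ)⌋ := by
    intro j hj
    obtain ⟨y, hy, rfl⟩ := Finset.mem_image.1 hj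
    obtain ⟨-, h2, h3⟩ := hk y (hS y hy)
    rw [Finset.mem_Icc]
    exact ⟨Int.ceil_le.2 h2, Int.le_floor.2 h3⟩
  have h2 : S.card ≤ (⌊d * (x + ρ)⌋ + 1 - ⌈d * (x - ρ)⌉).toNat := by
    rw [← Finset.card_image_of_injOn hinj, ← Int.card_Icc]
    exact Finset.card_le_card hsub
  have h3 : ((⌊d * (x + ρ)⌋ + 1 - ⌈d * (x - ρ)⌉).toNat : ℝ) ≤ 2 * ρ * d + 1 := by
    have h4 : ((⌊d * (x + ρ)⌋ + 1 - ⌈d * (x - ρ)⌉).toNat : ℤ) =
        max (⌊d * (x + ρ)⌋ + 1 - ⌈d * (x - ρ)⌉) 0 := Int.toNat_eq_max _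
    have h5 : ((⌊d * (x + ρ)⌋ + 1 - ⌈d * (x - ρ)⌉).toNat : ℝ) =
        max ((⌊d * (x + ρ)⌋ : ℝ) + 1 - ⌈d * (x - ρ)⌉) 0 := by exact_mod_cast h4
    rw [h5]
    refine max_le ?_ (by positivity)
    have h6 := Int.floor_le (d * (x + ρ))
    have h7 := Int.le_ceil (d * (x - ρ))
    linarith
  have h4 : (S.card : ℝ) ≤ ((⌊d * (x + ρ)⌋ + 1 - ⌈d * (x - ρ)⌉).toNat : ℝ) := by exact_mod_cast h2
  exact h4.trans h3

open Classical in
/-- the multiples `q ^ b y` of a torsion point in an arc -/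
lemma orbit_count {p q : ℕ} (hq : 2 ≤ q) (hpq : Nat.Coprime p q) {C : ℕ} (hC1 : 1 ≤ C)
    (hC : ∀ d r s : ℕ, 1 ≤ d → s ∣ p ^ r → s ∣ q ^ d - 1 → s ≤ C * d) {y : T} {r : ℕ}
    (hy : p ^ r • y = 0) (c : T) {ρ : ℝ} (hρ : 0 ≤ ρ) (L : ℕ) (hd0 : 1 ≤ addOrderOf y) :
    (((Finset.range L).filter fun b => ‖q ^ b • y - c‖ ≤ ρ).card : ℝ) ≤
      (L * C / addOrderOf y + 1) * (2 * ρ * addOrderOf y + 1) := by
  set d := addOrderOf y with hd
  have hdp : d ∣ p ^ r := addOrderOf_dvd_of_nsmul_eq_zero hy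
  have hdR : (0 : ℝ) < d := by exact_mod_cast hd0
  have hCR : (0 : ℝ) < C := by exact_mod_cast hC1
  set e : ℕ := (d - 1) / C + 1 with he
  have he1 : C * (e - 1) < d := by
    have : C * ((d - 1) / C) ≤ d - 1 := Nat.mul_div_le _ _
    rw [he, Nat.add_sub_cancel]
    omega
  have he2 : (d : ℝ) / C ≤ e := by
    rw [div_le_iff₀ hCR]
    have h1 : d - 1 < C * ((d - 1) / C) + C := by
      have := Nat.div_add_mod (d - 1) C
      have := Nat.mod_lt (d - 1) (by omega : 0 < C)
      omega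
    have h2 : d ≤ e * C := by
      rw [he, add_mul, one_mul, mul_comm]; omega
    exact_mod_cast h2
  have he0 : 0 < e := by rw [he]; exact Nat.succ_pos _
  have hdist : ∀ i j : ℕ, i < j → j - i < e → q ^ i • y ≠ q ^ j • y := by
    intro i j hij hje heq
    have h1 : (q ^ i * (q ^ (j - i) - 1)) • y = 0 := by
      have h2 : q ^ j = q ^ i + q ^ i * (q ^ (j - i) - 1) := by
        have h3 : q ^ j = q ^ i * q ^ (j - i) := by rw [← pow_add]; congr 1; omega
        have h4 : 1 ≤ q ^ (j - i) := Nat.one_le_pow _ _ (by omega)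
        rw [h3, Nat.mul_sub, mul_one]
        have : q ^ i * 1 ≤ q ^ i * q ^ (j - i) := Nat.mul_le_mul_left _ h4
        omega
      rw [h2, add_smul] at heq
      exact (left_eq_add.1 heq)
    have h2 : d ∣ q ^ i * (q ^ (j - i) - 1) := addOrderOf_dvd_of_nsmul_eq_zero h1
    have hcop : Nat.Coprime d (q ^ i) := Nat.Coprime.coprime_dvd_left hdp (hpq.pow _ _)
    have h3 : d ∣ q ^ (j - i) - 1 := hcop.dvd_of_dvd_mul_left h2
    have h4 := hC (j - i) r d (by omega) hdp h3
    have h5 : C * (j - i) ≤ C * (e - 1) := Nat.mul_le_mul_left _ (by omega)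
    omega
  have hblock : ∀ i : ℕ, (((Finset.Ico (i * e) ((i + 1) * e)).filter
      fun b => ‖q ^ b • y - c‖ ≤ ρ).card : ℝ) ≤ 2 * ρ * d + 1 := by
    intro i
    have hinj : Set.InjOn (fun b => q ^ b • y)
        (((Finset.Ico (i * e) ((i + 1) * e)).filter fun b => ‖q ^ b • y - c‖ ≤ ρ : Finset ℕ) :
          Set ℕ) := by
      intro a ha b hb hab
      simp only [Finset.coe_filter, Finset.mem_Ico, Set.mem_ofPred_eq] at ha hb
      have h1 : (i + 1) * e = i * e + e := by ring
      rw [h1] at ha hb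
      rcases lt_trichotomy a b with h | h | h
      · exact absurd hab (hdist a b h (by omega))
      · exact h
      · exact absurd hab.symm (hdist b a h (by omega))
    rw [← Finset.card_image_of_injOn hinj]
    refine torsion_count hd0 c hρ _ fun z hz => ?_
    obtain ⟨b, hb, rfl⟩ := Finset.mem_image.1 hz
    rw [Finset.mem_filter] at hb
    refine ⟨?_, hb.2⟩
    rw [smul_comm, addOrderOf_nsmul_eq_zero, smul_zero]
  have hcov : ((Finset.range L).filter fun b => ‖q ^ b • y - c‖ ≤ ρ) ⊆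
      (Finset.range (L / e + 1)).biUnion fun i => (Finset.Ico (i * e) ((i + 1) * e)).filter
        fun b => ‖q ^ b • y - c‖ ≤ ρ := by
    intro b hb
    rw [Finset.mem_filter, Finset.mem_range] at hb
    rw [Finset.mem_biUnion]
    refine ⟨b / e, ?_, ?_⟩
    · rw [Finset.mem_range]
      exact Nat.lt_succ_of_le (Nat.div_le_div_right hb.1.le)
    · rw [Finset.mem_filter, Finset.mem_Ico]
      refine ⟨⟨Nat.div_mul_le_self _ _, ?_⟩, hb.2⟩
      have := Nat.div_add_mod b e
      have := Nat.mod_lt b he0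
      rw [add_mul, one_mul, mul_comm]
      omega
  have h1 : (((Finset.range L).filter fun b => ‖q ^ b • y - c‖ ≤ ρ).card : ℝ) ≤
      ∑ i ∈ Finset.range (L / e + 1), (2 * ρ * d + 1) := by
    have hA := (Finset.card_le_card hcov).trans Finset.card_biUnion_le
    have hB : (((Finset.range L).filter fun b => ‖q ^ b • y - c‖ ≤ ρ).card : ℝ) ≤
        ∑ i ∈ Finset.range (L / e + 1), (((Finset.Ico (i * e) ((i + 1) * e)).filter
          fun b => ‖q ^ b • y - c‖ ≤ ρ).card : ℝ) := by exact_mod_cast hA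
    exact hB.trans (Finset.sum_le_sum fun i _ => hblock i)
  refine h1.trans ?_
  rw [Finset.sum_const, Finset.card_range, nsmul_eq_mul]
  refine mul_le_mul_of_nonneg_right ?_ (by positivity)
  push_cast
  have h2 : ((L / e : ℕ) : ℝ) ≤ L / e := Nat.cast_div_le
  have h3 : (L : ℝ) / e ≤ L * C / d := by
    have he0' : (0 : ℝ) < e := by exact_mod_cast he0
    rw [div_le_div_iff₀ he0' hdR]
    rw [div_le_iff₀ hCR] at he2
    have : (0 : ℝ) ≤ L := Nat.cast_nonneg L
    nlinarith
  linarith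

/-- a divisor of a power of `p` divides a power with small exponent -/
lemma dvd_small {p d r h : ℕ} (h0 : 0 < d) (hd : d ∣ p ^ r) (hdh : d ≤ h) : d ∣ p ^ h := by
  rw [Nat.dvd_iff_prime_pow_dvd_dvd]
  intro l k hl hk
  rcases Nat.eq_zero_or_pos k with hk0 | hk0
  · rw [hk0, pow_zero]; exact one_dvd _
  have h1 : l ∣ p := hl.dvd_of_dvd_pow ((dvd_pow_self l hk0.ne').trans (hk.trans hd))
  have h2 : k < l ^ k := Nat.lt_pow_self hl.one_lt
  have h3 : l ^ k ≤ d := Nat.le_of_dvd h0 hk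
  exact (pow_dvd_pow_of_dvd h1 k).trans (pow_dvd_pow p (by omega))

/-- the window `a < h`, `b < L` -/
def box (h L : ℕ) : Finset (ℕ × ℕ) := Finset.range h ×ˢ Finset.range L

lemma card_box (h L : ℕ) : (box h L).card = h * L := by
  unfold box; rw [Finset.card_product, Finset.card_range, Finset.card_range]

open Classical in
lemma hit_box {p q : ℕ} (h L : ℕ) (z c : T) (r : ℝ) :
    hit p q (box h L) z c r = ∑ a ∈ Finset.range h,
      ((Finset.range L).filter fun b => ‖q ^ b • (p ^ a • z) - c‖ ≤ r).card := by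
  unfold hit box
  rw [Finset.card_filter, Finset.sum_product]
  refine Finset.sum_congr rfl fun a _ => ?_
  rw [Finset.card_filter]
  refine Finset.sum_congr rfl fun b _ => ?_
  have : mul p q (a, b) • z = q ^ b • (p ^ a • z) := by
    unfold mul
    rw [← mul_smul, mul_comm]
  rw [this]

lemma box_inv1 {h L : ℕ} : ((box h L).filter fun u => u + (1, 0) ∉ box h L).card ≤ L := by
  have hsub : ((box h L).filter fun u => u + (1, 0) ∉ box h L) ⊆ {h - 1} ×ˢ Finset.range L := by
    rintro ⟨a, b⟩ hu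
    unfold box at hu
    simp only [Finset.mem_filter, Finset.mem_product, Finset.mem_range, Prod.mk_add_mk, add_zero,
      not_and, not_lt, Finset.mem_singleton] at hu ⊢
    obtain ⟨⟨h1, h2⟩, h3⟩ := hu
    refine ⟨?_, h2⟩
    by_contra hne
    have := h3 (by omega)
    omega
  refine (Finset.card_le_card hsub).trans ?_
  rw [Finset.card_product, Finset.card_singleton, Finset.card_range, one_mul]

lemma box_inv2 {h L : ℕ} : ((box h L).filter fun u => u + (0, 1) ∉ box h L).card ≤ h := by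
  have hsub : ((box h L).filter fun u => u + (0, 1) ∉ box h L) ⊆ Finset.range h ×ˢ {L - 1} := by
    rintro ⟨a, b⟩ hu
    unfold box at hu
    simp only [Finset.mem_filter, Finset.mem_product, Finset.mem_range, Prod.mk_add_mk, add_zero,
      not_and, not_lt, Finset.mem_singleton] at hu ⊢
    obtain ⟨⟨h1, h2⟩, h3⟩ := hu
    refine ⟨h1, ?_⟩
    have := h3 h1
    omega
  refine (Finset.card_le_card hsub).trans ?_
  rw [Finset.card_product, Finset.card_singleton, Finset.card_range, mul_one]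

/-- **Clusters in the fibres of a power of `p`.** -/
theorem padic {p q : ℕ} (hp : 2 ≤ p) (hq : 2 ≤ q) (hpq : Nat.Coprime p q) {ε : ℝ} (hε : 0 < ε) :
    ∃ m : ℕ, 1 ≤ m ∧ ∃ h0 : ℕ, ∀ h : ℕ, h0 ≤ h → ∃ L0 : ℕ, ∀ L : ℕ, L0 ≤ L →
      ∀ x : Fin m → T, (∀ i j, p ^ (3 * h) • (x i - x j) = 0) →
        (∀ i j, i ≠ j → p ^ (2 * h) • (x i - x j) ≠ 0) → ∃ i, Good p q ε (box h L) (x i) := by
  obtain ⟨C1, hC1, hC⟩ := ord_cop p q hp hq hpq
  have hC1R : (0 : ℝ) < C1 := by exact_mod_cast hC1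
  obtain ⟨m, hm, N, hN8, hN⟩ := cluster_gen hp hq hpq (C := 2 * C1) (by positivity) hε
  have hN0 : (0 : ℝ) < N := by
    have : 0 < N := by omega
    exact_mod_cast this
  refine ⟨m, hm, 2 * N * C1 + 2 * N, fun h hh => ⟨2 * N * (p ^ (3 * h) + 1), fun L hL x hx1 hx2 => ?_⟩⟩
  have hh1 : 2 * N ≤ h := by omega
  have hh2 : 2 * N * C1 ≤ h := by omega
  have hhR : (0 : ℝ) < h := by
    have : 0 < h := by omega
    exact_mod_cast this
  have hpp : 1 ≤ p ^ (3 * h) := Nat.one_le_pow _ _ (by omega)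
  have hL1 : 2 * N ≤ L := le_trans (by nlinarith) hL
  have hLR : (0 : ℝ) < L := by
    have : 0 < L := by omega
    exact_mod_cast this
  refine hN (box h L) ?_ ?_ ?_ x ?_
  · rw [← Finset.card_pos, card_box]
    exact Nat.mul_pos (by omega) (by omega)
  · rw [card_box]
    have h1 : (((box h L).filter fun u => u + (1, 0) ∉ box h L).card : ℝ) ≤ L := by
      exact_mod_cast box_inv1
    have h2 : (2 * N : ℝ) ≤ h := by exact_mod_cast hh1
    refine h1.trans ?_
    push_cast
    rw [div_mul_eq_mul_div, one_mul, le_div_iff₀ (by positivity)]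
    nlinarith
  · rw [card_box]
    have h1 : (((box h L).filter fun u => u + (0, 1) ∉ box h L).card : ℝ) ≤ h := by
      exact_mod_cast box_inv2
    have h2 : (2 * N : ℝ) ≤ L := by exact_mod_cast hL1
    refine h1.trans ?_
    push_cast
    rw [div_mul_eq_mul_div, one_mul, le_div_iff₀ (by positivity)]
    nlinarith
  · intro i j hij c k hk1 hk2
    set z := x i - x j with hz
    have hkR : (8 : ℝ) ≤ k := by exact_mod_cast hk1
    have hk0 : (0 : ℝ) < 1 / k := by positivity
    have hk8 : (1 : ℝ) / k ≤ 1 / 8 := by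
      rw [div_le_div_iff₀ (by linarith) (by norm_num)]; linarith
    rw [hit_box, card_box]
    have hterm : ∀ a ∈ Finset.range h, (((Finset.range L).filter
        fun b => ‖q ^ b • (p ^ a • z) - c‖ ≤ 1 / k).card : ℝ) ≤ (2 * C1 * (1 / k) + 1 / N) * L := by
      intro a ha
      rw [Finset.mem_range] at ha
      set y := p ^ a • z with hy
      have hy1 : p ^ (3 * h) • y = 0 := by
        rw [hy, smul_comm, hx1 i j, smul_zero]
      have hy2 : p ^ h • y ≠ 0 := by
        intro hcon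
        apply hx2 i j hij
        have e : p ^ (2 * h) = p ^ (h - a) * (p ^ h * p ^ a) := by
          rw [← pow_add, ← pow_add]; congr 1; omega
        rw [e, mul_smul, mul_smul, ← hz, ← hy, hcon, smul_zero]
      have hd1 : addOrderOf y ∣ p ^ (3 * h) := addOrderOf_dvd_of_nsmul_eq_zero hy1
      have hd0 : 0 < addOrderOf y := Nat.pos_of_dvd_of_pos hd1 (by omega)
      have hd2 : h < addOrderOf y := by
        by_contra hle
        push Not at hle
        apply hy2
        exact addOrderOf_dvd_iff_nsmul_eq_zero.1 (dvd_small hd0 hd1 hle)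
      have hd3 : addOrderOf y ≤ p ^ (3 * h) := Nat.le_of_dvd (by omega) hd1
      have h1 := orbit_count hq hpq hC1 hC hy1 c hk0.le L hd0
      refine h1.trans ?_
      set d := addOrderOf y with hd
      have hdR : (0 : ℝ) < d := by exact_mod_cast hd0
      have e : ((L : ℝ) * C1 / d + 1) * (2 * (1 / k) * d + 1) =
          2 * C1 * (1 / k) * L + L * (C1 / d) + (2 * (1 / k) * d + 1) := by
        field_simp
      rw [e]
      have h2 : (C1 : ℝ) / d ≤ 1 / (2 * N) := by
        rw [div_le_div_iff₀ hdR (by positivity)]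
        have h3 : (2 * N * C1 : ℝ) ≤ h := by exact_mod_cast hh2
        have h4 : (h : ℝ) < d := by exact_mod_cast hd2
        linarith
      have h3 : 2 * (1 / k) * d + 1 ≤ (p : ℝ) ^ (3 * h) + 1 := by
        have h4 : (d : ℝ) ≤ (p : ℝ) ^ (3 * h) := by exact_mod_cast hd3
        have h5 : 2 * (1 / (k : ℝ)) ≤ 1 := by linarith
        have h6 : 2 * (1 / (k : ℝ)) * d ≤ 1 * d := mul_le_mul_of_nonneg_right h5 hdR.le
        linarith
      have h4 : (p : ℝ) ^ (3 * h) + 1 ≤ L * (1 / (2 * N)) := by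
        rw [mul_one_div, le_div_iff₀ (by positivity)]
        have : ((2 * N * (p ^ (3 * h) + 1) : ℕ) : ℝ) ≤ L := by exact_mod_cast hL
        push_cast at this
        linarith
      have h5 : (L : ℝ) * (C1 / d) ≤ L * (1 / (2 * N)) := mul_le_mul_of_nonneg_left h2 hLR.le
      have h6 : (2 * C1 * (1 / k) + 1 / N) * (L : ℝ) = 2 * C1 * (1 / k) * L +
          L * (1 / (2 * N)) + L * (1 / (2 * N)) := by
        field_simp
        ring
      rw [h6]
      linarith
    push_cast
    refine (Finset.sum_le_sum hterm).trans ?_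
    rw [Finset.sum_const, Finset.card_range, nsmul_eq_mul]
    apply le_of_eq
    ring

end Pool.Agent.Y314.FD
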