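import Pool.Agent.Y314.FD.Area

/-!
Cardinality of the triangle of exponents.
-/

set_option autoImplicit false

open Filter Topology Set

namespace Pool.Agent.Y314.FD

open Pool.Agent.W764.FB Pool.Agent.W764.SH Pool.Agent.W764.HL

section
variable {p q : ℕ} (hp : 2 ≤ p) (hq : 2 ≤ q)
include hp hq

lemma tri_eq (n : ℕ) : tri p q (p ^ n) = (Finset.range (n + 1)).biUnion fun a =>
    ({a} : Finset ℕ) ×ˢ Finset.range (⌊((n : ℝ) - a) * (Real.log p / Real.log q)⌋₊ + 1) := by
  obtain ⟨hlp, hlq⟩ := log_pos' hp hq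
  ext ⟨a, b⟩
  rw [mem_tri_log hp hq, Finset.mem_biUnion]
  simp only [Finset.mem_product, Finset.mem_singleton, Finset.mem_range]
  constructor
  · intro h
    have h1 : (a : ℝ) * Real.log p ≤ n * Real.log p := by
      have : (0 : ℝ) ≤ b * Real.log q := by positivity
      linarith
    have h2 : (a : ℝ) ≤ n := le_of_mul_le_mul_right h1 hlp
    have h3 : a ≤ n := by exact_mod_cast h2
    refine ⟨a, by omega, rfl, Nat.lt_succ_of_le (Nat.le_floor ?_)⟩
    rw [← mul_div_assoc, le_div_iff₀ hlq]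
    linarith
  · rintro ⟨a', h1, h2, h3⟩
    subst h2
    have h4 : (a : ℝ) ≤ n := by
      have : a ≤ n := by omega
      exact_mod_cast this
    have h5 : (b : ℝ) ≤ ((n : ℝ) - a) * (Real.log p / Real.log q) := by
      have h6 : (b : ℝ) ≤ (⌊((n : ℝ) - a) * (Real.log p / Real.log q)⌋₊ : ℝ) := by
        exact_mod_cast Nat.lt_succ_iff.1 h3
      refine h6.trans (Nat.floor_le ?_)
      have : 0 ≤ (n : ℝ) - a := by linarith
      positivity
    rw [← mul_div_assoc, le_div_iff₀ hlq] at h5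
    linarith

lemma card_tri (n : ℕ) : (tri p q (p ^ n)).card =
    ∑ a ∈ Finset.range (n + 1), (⌊((n : ℝ) - a) * (Real.log p / Real.log q)⌋₊ + 1) := by
  rw [tri_eq hp hq, Finset.card_biUnion]
  · refine Finset.sum_congr rfl fun a _ => ?_
    rw [Finset.card_product, Finset.card_singleton, Finset.card_range, one_mul]
  · intro a _ a' _ haa
    rw [Function.onFun, Finset.disjoint_left]
    rintro ⟨u, v⟩ h2 h3
    rw [Finset.mem_product, Finset.mem_singleton] at h2 h3
    exact haa (h2.1.symm.trans h3.1)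

omit hp hq in
lemma gauss_real (n : ℕ) : ∑ a ∈ Finset.range (n + 1), ((n : ℝ) - a) = n * (n + 1) / 2 := by
  have h1 : ∑ a ∈ Finset.range (n + 1), (a : ℝ) = n * (n + 1) / 2 := by
    induction n with
    | zero => simp
    | succ n ih => rw [Finset.sum_range_succ, ih]; push_cast; ring
  rw [Finset.sum_sub_distrib (f := fun _ : ℕ => (n : ℝ)), h1, Finset.sum_const, Finset.card_range,
    nsmul_eq_mul]
  push_cast
  ring

lemma card_tri_le (n : ℕ) : ((tri p q (p ^ n)).card : ℝ) ≤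
    (Real.log p / Real.log q) * (n * (n + 1) / 2) + (n + 1) := by
  obtain ⟨hlp, hlq⟩ := log_pos' hp hq
  rw [card_tri hp hq]
  push_cast
  rw [Finset.sum_add_distrib, Finset.sum_const, Finset.card_range, nsmul_eq_mul, mul_one]
  push_cast
  refine add_le_add ?_ le_rfl
  rw [← gauss_real n, Finset.mul_sum]
  refine Finset.sum_le_sum fun a ha => ?_
  have h1 : (a : ℝ) ≤ n := by
    have := Finset.mem_range.1 ha
    exact_mod_cast Nat.lt_succ_iff.1 this
  have h2 : 0 ≤ ((n : ℝ) - a) * (Real.log p / Real.log q) := by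
    have : 0 ≤ (n : ℝ) - a := by linarith
    positivity
  exact (Nat.floor_le h2).trans (le_of_eq (mul_comm _ _))

lemma le_card_tri (n : ℕ) : (Real.log p / Real.log q) * (n * (n + 1) / 2) ≤
    ((tri p q (p ^ n)).card : ℝ) := by
  rw [card_tri hp hq]
  push_cast
  rw [← gauss_real n, Finset.mul_sum]
  refine Finset.sum_le_sum fun a _ => ?_
  rw [mul_comm]
  exact (Nat.lt_floor_add_one _).le

omit hp hq in
lemma floor_diff {x y : ℝ} (hxy : x ≤ y) (hx : 0 ≤ x) :
    ((⌊y⌋₊ : ℝ) - ⌊x⌋₊) ≤ y - x + 1 := by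
  have h1 := Nat.floor_le (hx.trans hxy)
  have h2 := Nat.lt_floor_add_one x
  linarith

/-- the difference of two triangles -/
lemma card_tri_diff (n D : ℕ) : ((tri p q (p ^ (n + D))).card : ℝ) - (tri p q (p ^ n)).card ≤
    (n + D + 1) * (D * (Real.log p / Real.log q) + 1) := by
  obtain ⟨hlp, hlq⟩ := log_pos' hp hq
  set θ := Real.log p / Real.log q with hθ
  have hθ0 : 0 < θ := by positivity
  rw [card_tri hp hq, card_tri hp hq]
  push_cast
  have h1 : ∑ a ∈ Finset.range (n + D + 1), ((⌊((n + D : ℝ) - a) * θ⌋₊ : ℝ) + 1) =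
      ∑ a ∈ Finset.range (n + 1), ((⌊((n + D : ℝ) - a) * θ⌋₊ : ℝ) + 1) +
      ∑ a ∈ Finset.range D, ((⌊((n + D : ℝ) - ((n + 1 + a : ℕ) : ℝ)) * θ⌋₊ : ℝ) + 1) := by
    have : n + D + 1 = (n + 1) + D := by ring
    rw [this, Finset.sum_range_add]
  rw [h1]
  have h2 : ∑ a ∈ Finset.range (n + 1), ((⌊((n + D : ℝ) - a) * θ⌋₊ : ℝ) + 1) -
      ∑ a ∈ Finset.range (n + 1), ((⌊((n : ℝ) - a) * θ⌋₊ : ℝ) + 1) ≤
      (n + 1) * (D * θ + 1) := by
    rw [← Finset.sum_sub_distrib]
    refine (Finset.sum_le_card_nsmul _ _ (D * θ + 1) fun a ha => ?_).trans ?_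
    · have h3 : (a : ℝ) ≤ n := by
        have := Finset.mem_range.1 ha
        exact_mod_cast Nat.lt_succ_iff.1 this
      have h4 : 0 ≤ ((n : ℝ) - a) * θ := by
        have : 0 ≤ (n : ℝ) - a := by linarith
        positivity
      have h5 : ((n : ℝ) - a) * θ ≤ ((n + D : ℝ) - a) * θ := by
        have : (0 : ℝ) ≤ D := Nat.cast_nonneg D
        nlinarith
      have h6 := floor_diff h5 h4
      have e : ((n + D : ℝ) - a) * θ - ((n : ℝ) - a) * θ = D * θ := by ring
      linarith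
    · rw [Finset.card_range, nsmul_eq_mul]
      push_cast
      exact le_rfl
  have h3 : ∑ a ∈ Finset.range D, ((⌊((n + D : ℝ) - ((n + 1 + a : ℕ) : ℝ)) * θ⌋₊ : ℝ) + 1) ≤
      D * (D * θ + 1) := by
    refine (Finset.sum_le_card_nsmul _ _ (D * θ + 1) fun a ha => ?_).trans ?_
    · have h3 : (a : ℝ) + 1 ≤ D := by
        have := Finset.mem_range.1 ha
        exact_mod_cast this
      have h0 : (0 : ℝ) ≤ a := Nat.cast_nonneg a
      have h4 : 0 ≤ ((n + D : ℝ) - ((n + 1 + a : ℕ) : ℝ)) * θ := by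
        push_cast
        have : (0 : ℝ) ≤ (n : ℝ) + D - (n + 1 + a) := by linarith
        positivity
      have h5 := Nat.floor_le h4
      have h6 : ((n + D : ℝ) - ((n + 1 + a : ℕ) : ℝ)) * θ ≤ D * θ := by
        push_cast
        refine mul_le_mul_of_nonneg_right ?_ hθ0.le
        linarith
      linarith
    · rw [Finset.card_range, nsmul_eq_mul]
  have e : ((n : ℝ) + D + 1) * (D * θ + 1) = (n + 1) * (D * θ + 1) + D * (D * θ + 1) := by ring
  linarith

omit hp hq in
lemma tri_mono {N N' : ℕ} (h : N ≤ N') (hp : 2 ≤ p) (hq : 2 ≤ q) : tri p q N ⊆ tri p q N' := by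
  intro u hu
  rw [mem_tri hp hq] at hu ⊢
  omega

end

end Pool.Agent.Y314.FD
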