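import Pool.Agent.Y314.FD.Lower
import Pool.Agent.Y314.FD.Tri

/-!
Choice of the parameters: few grid points have deficient visit frequencies.
-/

set_option autoImplicit false

open Filter Topology Set

namespace Pool.Agent.Y314.FD

open Pool.Agent.W764.FB Pool.Agent.W764.SH Pool.Agent.W764.HL

/-- the polynomial estimate for the area -/
lemma poly_ineq {s δ M v t h θ : ℝ} (hs1 : s ≤ 1) (hδ : 0 < δ) (hδs : 2 * δ ≤ s)
    (hM : 4 / δ ≤ M) (hv : 1 ≤ v) (ht1 : (s - δ) * (M * v) - 1 ≤ t) (ht2 : t ≤ (s - δ) * (M * v))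
    (ht0 : 0 ≤ t) (hJ : 1 / δ ≤ M * v) (hh : 1 ≤ h) (hθ : 0 < θ) (hhθ : 1 / δ ≤ h * θ) :
    (θ * (h * (M * v)) ^ 2 / 2) * ((1 - (1 - s) ^ 2) - 20 * δ) ≤
      h * ((h * θ - 1) * ((M - 1) * v * t - (t + 1) ^ 2 / 2 - δ * (M * v) * t) - M * v) := by
  have hM0 : 0 < M := lt_of_lt_of_le (by positivity) hM
  set J := M * v with hJdef
  have hJ0 : 0 < J := by positivity
  have hJδ : 1 ≤ δ * J := by
    rw [div_le_iff₀ hδ] at hJ; linarith
  have hvJ : v ≤ δ / 4 * J := by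
    rw [div_le_iff₀ hδ] at hM
    have h1 : 4 * v ≤ M * δ * v := mul_le_mul_of_nonneg_right hM (by linarith)
    have h2 : M * δ * v = δ * J := by rw [hJdef]; ring
    linarith
  have hδ1 : δ ≤ 1 / 2 := by linarith
  have hs0 : 0 < s := by linarith
  have hJ1 : 1 ≤ J := by
    have h1 : δ * J ≤ 1 * J := mul_le_mul_of_nonneg_right (by linarith) hJ0.le
    linarith
  have hJJ : J ≤ J ^ 2 := by
    rw [sq]; exact le_mul_of_one_le_right hJ0.le hJ1
  set e := s * J - t with he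
  have he1 : δ * J ≤ e := by rw [he]; linarith
  have he2 : e ≤ 2 * (δ * J) := by rw [he]; linarith
  have he0 : 0 ≤ e := by linarith [mul_pos hδ hJ0]
  have hte : t = s * J - e := by rw [he]; ring
  have htJ : t ≤ J := by
    have : s * J ≤ 1 * J := mul_le_mul_of_nonneg_right hs1 hJ0.le
    rw [hte]; linarith
  set b : ℝ := (1 - (1 - s) ^ 2) / 2 - 8 * δ with hb
  -- the quadratic part
  have hB : J ^ 2 * b ≤ (M - 1) * v * t - (t + 1) ^ 2 / 2 - δ * J * t := by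
    have h1 : (M - 1) * v * t = J * t - v * t := by rw [hJdef]; ring
    have h2 : v * t ≤ δ / 4 * J * J := mul_le_mul hvJ htJ ht0 (by positivity)
    have h3 : δ * J * t ≤ δ * J * J := mul_le_mul_of_nonneg_left htJ (by positivity)
    have h4 : J * t - t ^ 2 / 2 ≥ (1 - (1 - s) ^ 2) / 2 * J ^ 2 - e * J - e ^ 2 / 2 := by
      have h5 : J * t - t ^ 2 / 2 - ((1 - (1 - s) ^ 2) / 2 * J ^ 2 - e * J - e ^ 2 / 2) =
          s * (J * e) := by rw [hte]; ring
      have h6 : 0 ≤ s * (J * e) := by positivity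
      linarith
    have h7 : e * J ≤ 2 * (δ * J) * J := mul_le_mul_of_nonneg_right he2 hJ0.le
    have h8 : e ^ 2 ≤ 2 * (δ * J) * J := by
      have h9 : e ≤ J := by
        have h10 : (2 * δ) * J ≤ 1 * J := mul_le_mul_of_nonneg_right (by linarith) hJ0.le
        linarith
      calc e ^ 2 = e * e := sq e
        _ ≤ 2 * (δ * J) * J := mul_le_mul he2 h9 he0 (by positivity)
    have h10 : J ≤ δ * J * J := le_mul_of_one_le_left hJ0.le hJδ
    have h11 : (1 : ℝ) ≤ δ * J * J := by linarith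
    have h12 : (t + 1) ^ 2 / 2 = t ^ 2 / 2 + t + 1 / 2 := by ring
    have h13 : J ^ 2 * b = (1 - (1 - s) ^ 2) / 2 * J ^ 2 - 8 * (δ * J * J) := by rw [hb]; ring
    have h14 : 2 * (δ * J) * J = 2 * (δ * J * J) := by ring
    have h15 : δ / 4 * J * J = (δ * J * J) / 4 := by ring
    rw [h14] at h7 h8
    rw [h15] at h2
    rw [h1, h12, h13]
    linarith
  have hb1 : b ≤ 1 := by
    have := sq_nonneg (1 - s)
    rw [hb]; linarith
  have hhθ1 : 0 ≤ h * θ - 1 := by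
    have : 2 ≤ 1 / δ := by rw [le_div_iff₀ hδ]; linarith
    linarith
  have hC : J ^ 2 * (h * θ * b - 1) ≤
      (h * θ - 1) * ((M - 1) * v * t - (t + 1) ^ 2 / 2 - δ * J * t) := by
    have h1 : (h * θ - 1) * (J ^ 2 * b) ≤
        (h * θ - 1) * ((M - 1) * v * t - (t + 1) ^ 2 / 2 - δ * J * t) :=
      mul_le_mul_of_nonneg_left hB hhθ1
    refine le_trans ?_ h1
    have h2 : (h * θ - 1) * (J ^ 2 * b) - J ^ 2 * (h * θ * b - 1) = J ^ 2 * (1 - b) := by ring
    have h3 : 0 ≤ J ^ 2 * (1 - b) := mul_nonneg (sq_nonneg _) (by linarith)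
    linarith
  have hD : h * (J ^ 2 * (h * θ * b - 1) - J) ≤
      h * ((h * θ - 1) * ((M - 1) * v * t - (t + 1) ^ 2 / 2 - δ * J * t) - J) :=
    mul_le_mul_of_nonneg_left (by linarith) (by linarith)
  refine le_trans ?_ hD
  have hE : θ * (h * J) ^ 2 / 2 * ((1 - (1 - s) ^ 2) - 20 * δ) =
      θ * (h * J) ^ 2 * (b - 2 * δ) := by rw [hb]; ring
  rw [hE]
  have hF : h * J ^ 2 ≤ θ * (h * J) ^ 2 * δ := by
    have h1 : 1 ≤ h * θ * δ := by
      rw [div_le_iff₀ hδ] at hhθ; exact hhθ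
    have h2 : θ * (h * J) ^ 2 * δ = (h * J ^ 2) * (h * θ * δ) := by ring
    rw [h2]
    have h3 : 0 ≤ h * J ^ 2 := by positivity
    exact le_mul_of_one_le_right h3 h1
  have hG : h * J ≤ θ * (h * J) ^ 2 * δ := by
    refine le_trans ?_ hF
    exact mul_le_mul_of_nonneg_left hJJ (by linarith)
  have hH : h * (J ^ 2 * (h * θ * b - 1) - J) = θ * (h * J) ^ 2 * b - h * J ^ 2 - h * J := by ring
  rw [hH]
  linarith

/-- from the area to the frequency -/
lemma freq_ineq {a ε ε1 X tri hit r : ℝ} (ha0 : 0 ≤ a) (ha1 : a ≤ 1) (hε : 0 < ε)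
    (hε1 : ε1 = ε / 4) (hX : 0 ≤ X) (hr : r ≤ 1 / 2) (htri0 : 0 ≤ tri) (hhit0 : 0 ≤ hit)
    (htri : tri ≤ X * (1 + ε / 4))
    (hhit : 0 ≤ 2 * r - ε1 → (2 * r - ε1) * (X * (a - ε / 4)) ≤ hit) :
    (a * (2 * r) - ε) * tri ≤ hit := by
  rcases le_or_gt (a * (2 * r) - ε) 0 with h0 | h0
  · exact (mul_nonpos_of_nonpos_of_nonneg h0 htri0).trans hhit0
  have hr2 : 0 < 2 * r := by
    by_contra hcon
    push Not at hcon
    have : a * (2 * r) ≤ 0 := mul_nonpos_of_nonneg_of_nonpos ha0 hcon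
    linarith
  have h1 : a * (2 * r) ≤ 2 * r := by nlinarith
  have h2 : a * (2 * r) ≤ a := by nlinarith
  have h3 := hhit (by rw [hε1]; linarith)
  refine le_trans ?_ h3
  have h4 : (a * (2 * r) - ε) * tri ≤ (a * (2 * r) - ε) * (X * (1 + ε / 4)) :=
    mul_le_mul_of_nonneg_left htri h0.le
  refine h4.trans ?_
  have h5 : (a * (2 * r) - ε) * (1 + ε / 4) ≤ (2 * r - ε1) * (a - ε / 4) := by
    rw [hε1]
    have h6 : (a * (2 * r) - ε) * (ε / 4) ≤ 1 * (ε / 4) :=
      mul_le_mul_of_nonneg_right (by linarith) (by linarith)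
    nlinarith
  calc (a * (2 * r) - ε) * (X * (1 + ε / 4)) = X * ((a * (2 * r) - ε) * (1 + ε / 4)) := by ring
    _ ≤ X * ((2 * r - ε1) * (a - ε / 4)) := mul_le_mul_of_nonneg_left h5 hX
    _ = _ := by ring

/-- the size of the exceptional set -/
lemma size_ineq {p M v h m t : ℕ} {s δ : ℝ} (hp : 2 ≤ p) (hm : 1 ≤ m) (hM : 1 ≤ M) (hv : 2 ≤ v)
    (hδ : 0 < δ) (hMδ : 4 / δ ≤ (M : ℝ)) (ht : (t : ℝ) ≤ (s - δ) * (M * v))
    (hh : 2 * (Real.log M + 2 * Real.log 2 + 2 * Real.log (2 * m)) / (δ * Real.log p) ≤ h) :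
    ((M * 2 ^ (M * v) * 2 ^ (M * v) *
      (p ^ ((2 + v) * h) * (p ^ h) ^ t * (2 * m) ^ (2 * (M * v))) : ℕ) : ℝ) ≤
      (p : ℝ) ^ (s * (M * v * h)) := by
  have hpR : (0 : ℝ) < p := by
    have : 0 < p := by omega
    exact_mod_cast this
  have hMR : (0 : ℝ) < M := by exact_mod_cast hM
  have hmR : (0 : ℝ) < m := by exact_mod_cast hm
  have hvR : (2 : ℝ) ≤ v := by exact_mod_cast hv
  have hlp : 0 < Real.log p := Real.log_pos (by exact_mod_cast hp)
  push_cast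
  set X : ℝ := (M : ℝ) * 2 ^ (M * v) * 2 ^ (M * v) *
      ((p : ℝ) ^ ((2 + v) * h) * ((p : ℝ) ^ h) ^ t * (2 * (m : ℝ)) ^ (2 * (M * v))) with hX
  have hX0 : 0 < X := by positivity
  rw [← Real.exp_log hX0, Real.rpow_def_of_pos hpR]
  apply Real.exp_le_exp.2
  have hlX : Real.log X = Real.log M + (M * v : ℕ) * Real.log 2 + (M * v : ℕ) * Real.log 2 +
      ((((2 + v) * h : ℕ) : ℝ) * Real.log p + (t : ℝ) * (h * Real.log p) +
        ((2 * (M * v) : ℕ) : ℝ) * Real.log (2 * m)) := by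
    rw [hX, Real.log_mul (by positivity) (by positivity), Real.log_mul (by positivity)
      (by positivity), Real.log_mul (by positivity) (by positivity), Real.log_mul (by positivity)
      (by positivity), Real.log_mul (by positivity) (by positivity)]
    rw [Real.log_pow, Real.log_pow, Real.log_pow, Real.log_pow, Real.log_pow]
  rw [hlX]
  push_cast
  set α := Real.log p
  set J : ℝ := (M : ℝ) * v with hJ
  have hJ1 : 1 ≤ J := by
    have : (1 : ℝ) ≤ M := by exact_mod_cast hM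
    rw [hJ]; nlinarith
  have hhR : (0 : ℝ) ≤ h := Nat.cast_nonneg h
  rw [div_le_iff₀ (by positivity)] at hh
  rw [div_le_iff₀ hδ] at hMδ
  have h1 : (v : ℝ) * 4 ≤ δ * J := by
    have : (v : ℝ) * 4 ≤ v * (M * δ) := mul_le_mul_of_nonneg_left hMδ (by linarith)
    rw [hJ]; linarith
  have h2 : (2 + (v : ℝ)) * h * α ≤ δ / 2 * J * (h * α) := by
    have h3 : 2 + (v : ℝ) ≤ δ / 2 * J := by linarith
    calc (2 + (v : ℝ)) * h * α = (2 + v) * (h * α) := by ring
      _ ≤ _ := mul_le_mul_of_nonneg_right h3 (by positivity)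
  have h3 : (t : ℝ) * (h * α) ≤ (s - δ) * J * (h * α) :=
    mul_le_mul_of_nonneg_right ht (by positivity)
  have h4 : 0 ≤ Real.log M := Real.log_nonneg (by exact_mod_cast hM)
  have h5 : Real.log M + J * Real.log 2 + J * Real.log 2 + 2 * J * Real.log (2 * m) ≤
      J * (Real.log M + 2 * Real.log 2 + 2 * Real.log (2 * m)) := by
    nlinarith
  have h6 : J * (Real.log M + 2 * Real.log 2 + 2 * Real.log (2 * m)) ≤
      J * (δ / 2 * (h * α)) := by
    apply mul_le_mul_of_nonneg_left _ (by linarith)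
    linarith
  have e1 : α * (s * (J * h)) = (s - δ) * J * (h * α) + δ / 2 * J * (h * α) +
      J * (δ / 2 * (h * α)) := by ring
  rw [e1]
  have e2 : (2 : ℝ) * (M * v) = 2 * J := by rw [hJ]
  rw [e2]
  linarith

end Pool.Agent.Y314.FD
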