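import Pool.Agent.Y314.FD.Chain

/-!
Patterns of good blocks and good strips, and the number of grid points with few of them.
-/

set_option autoImplicit false

open Filter Topology Set

namespace Pool.Agent.Y314.FD

open Pool.Agent.W764.FB Pool.Agent.W764.SH Pool.Agent.W764.HL

/-- the number of rows of the block `j` -/
noncomputable def rows (p q h J j : ℕ) : ℕ :=
  ⌊((J - (j + 1) : ℕ) : ℝ) * h * Real.log p / Real.log q⌋₊

open Classical in
/-- the good blocks -/
noncomputable def gb (p q : ℕ) (ε : ℝ) (h J J1 k : ℕ) : Finset ℕ :=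
  (Finset.range J1).filter fun j =>
    Good p q ε (box h (rows p q h J j)) (p ^ (j * h) • gp p (J * h) k)

/-- the blocks of the macro column `k0` outside `P` -/
def bc (P : Finset ℕ) (v k0 : ℕ) : Finset ℕ := (Finset.range v).filter fun i => k0 * v + i ∉ P

/-- the columns of the macro column `k0` outside `P` -/
def ac (P : Finset ℕ) (h v k0 : ℕ) : Finset ℕ :=
  (Finset.range (v * h)).filter fun a => a / h ∈ bc P v k0

/-- the strips -/
noncomputable def sw (p q : ℕ) (P : Finset ℕ) (h v k0 l : ℕ) : Finset (ℕ × ℕ) :=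
  slw (Real.log p) (Real.log q) (ac P h v k0) ((l : ℝ) * (h * Real.log p)) (h * Real.log p)

open Classical in
/-- the good strips -/
noncomputable def gs (p q : ℕ) (ε : ℝ) (P : Finset ℕ) (h v J k0 k : ℕ) : Finset ℕ :=
  (Finset.Ico v (J - k0 * v)).filter fun l =>
    Good p q ε (sw p q P h v k0 l) (p ^ (k0 * v * h) • gp p (J * h) k)

lemma ac_subset (P : Finset ℕ) (h v k0 : ℕ) : ac P h v k0 ⊆ Finset.range (v * h) :=
  Finset.filter_subset _ _

lemma ac_card (P : Finset ℕ) {h : ℕ} (hh : 1 ≤ h) (v k0 : ℕ) :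
    (ac P h v k0).card = h * (bc P v k0).card := by
  have h1 : ac P h v k0 = (bc P v k0).biUnion fun i => Finset.Ico (i * h) ((i + 1) * h) := by
    ext a
    unfold ac
    rw [Finset.mem_filter, Finset.mem_range, Finset.mem_biUnion]
    constructor
    · rintro ⟨h1, h2⟩
      refine ⟨a / h, h2, Finset.mem_Ico.2 ⟨Nat.div_mul_le_self _ _, ?_⟩⟩
      have := Nat.div_add_mod a h
      have := Nat.mod_lt a (by omega : 0 < h)
      rw [add_mul, one_mul, mul_comm]
      omega
    · rintro ⟨i, h1, h2⟩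
      rw [Finset.mem_Ico] at h2
      have h3 : a / h = i := by
        rw [Nat.div_eq_iff (by omega : 0 < h)]
        constructor
        · exact h2.1
        · have : (i + 1) * h = i * h + h := by ring
          omega
      rw [h3]
      refine ⟨?_, h1⟩
      have h4 : i < v := by
        unfold bc at h1
        exact Finset.mem_range.1 (Finset.mem_filter.1 h1).1
      calc a < (i + 1) * h := h2.2
        _ ≤ v * h := Nat.mul_le_mul_right _ h4
  rw [h1, Finset.card_biUnion]
  · rw [Finset.sum_congr rfl fun i _ => show (Finset.Ico (i * h) ((i + 1) * h)).card = h by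
      rw [Nat.card_Ico]
      have : (i + 1) * h = i * h + h := by ring
      omega]
    rw [Finset.sum_const, smul_eq_mul, mul_comm]
  · intro i _ i' _ hii
    rw [Function.onFun, Finset.disjoint_left]
    intro a ha ha'
    rw [Finset.mem_Ico] at ha ha'
    apply hii
    have h3 : ∀ i : ℕ, i * h ≤ a → a < (i + 1) * h → a / h = i := by
      intro i h1 h2
      rw [Nat.div_eq_iff (by omega : 0 < h)]
      refine ⟨h1, ?_⟩
      have : (i + 1) * h = i * h + h := by ring
      omega
    rw [← h3 i ha.1 ha.2, ← h3 i' ha'.1 ha'.2]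

lemma ac_step (P : Finset ℕ) {h : ℕ} (hh : 1 ≤ h) (v k0 : ℕ) :
    h * ((ac P h v k0).filter fun a => a + 1 ∉ ac P h v k0).card ≤ (ac P h v k0).card := by
  rw [ac_card P hh]
  refine Nat.mul_le_mul_left _ ?_
  refine Finset.card_le_card_of_injOn (fun a => a / h) ?_ ?_
  · intro a ha
    rw [Finset.mem_coe, Finset.mem_filter] at ha
    have h1 := ha.1
    unfold ac at h1
    exact (Finset.mem_filter.1 h1).2
  · have key : ∀ a, a ∈ ac P h v k0 → a + 1 ∉ ac P h v k0 → a % h + 1 = h := by
      intro a h1 h2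
      unfold ac at h1 h2
      rw [Finset.mem_filter, Finset.mem_range] at h1 h2
      by_contra hne
      have h3 := Nat.mod_lt a (by omega : 0 < h)
      have h4 : (a + 1) / h = a / h := by
        rw [Nat.div_eq_iff (by omega : 0 < h)]
        have := Nat.div_add_mod a h
        have e : a / h * h = h * (a / h) := mul_comm _ _
        constructor <;> omega
      have h5 : a / h < v := by
        have h6 := h1.2
        unfold bc at h6
        exact Finset.mem_range.1 (Finset.mem_filter.1 h6).1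
      apply h2
      rw [h4]
      refine ⟨?_, h1.2⟩
      have := Nat.div_add_mod a h
      have h6 : (a / h + 1) * h ≤ v * h := Nat.mul_le_mul_right _ h5
      have e : (a / h + 1) * h = h * (a / h) + h := by ring
      omega
    intro a ha b hb hab
    rw [Finset.mem_coe, Finset.mem_filter] at ha hb
    have h1 := key a ha.1 ha.2
    have h2 := key b hb.1 hb.2
    simp only at hab
    rw [← Nat.div_add_mod a h, ← Nat.div_add_mod b h, hab]
    omega

open Classical in
/-- grid points with a given pattern -/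
lemma pattern_count {p q : ℕ} (hp : 2 ≤ p) {ε : ℝ} {m h v M k0 : ℕ} (hm : 1 ≤ m) (hh : 1 ≤ h)
    (hv : 2 ≤ v) (hk0 : k0 + 1 < M)
    (hcl1 : ∀ j < (M - 1) * v, ∀ x : Fin m → T, (∀ i i', p ^ (3 * h) • (x i - x i') = 0) →
      (∀ i i', i ≠ i' → p ^ (2 * h) • (x i - x i') ≠ 0) →
      ∃ i, Good p q ε (box h (rows p q h (M * v) j)) (x i))
    {P0 G0 : Finset ℕ}
    (hcl2 : ∀ l, v ≤ l + 1 → ∀ y : Fin m → T, (∀ i j, i ≠ j →
        Real.exp (-(((l + 1 : ℕ) : ℝ) * (h * Real.log p))) ≤ ‖y i - y j‖ ∧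
          ‖y i - y j‖ ≤ Real.exp (h * Real.log p - ((l + 1 : ℕ) : ℝ) * (h * Real.log p))) →
      ∃ i, Good p q ε (sw p q P0 h v k0 (l + 1)) (y i)) :
    ((Finset.range (p ^ (M * v * h))).filter fun k => gb p q ε h (M * v) ((M - 1) * v) k = P0 ∧
      gs p q ε P0 h v (M * v) k0 k = G0).card ≤
      p ^ ((2 + v) * h) * (p ^ h) ^ ((P0.filter (· < k0 * v)).card + G0.card) *
        (2 * m) ^ (2 * (M * v)) := by
  set J := M * v with hJ
  set X := (Finset.range (p ^ (J * h))).filter fun k => gb p q ε h J ((M - 1) * v) k = P0 ∧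
      gs p q ε P0 h v J k0 k = G0 with hXdef
  have hX : X ⊆ Finset.range (p ^ (J * h)) := Finset.filter_subset _ _
  have hkv : k0 * v + 2 * v ≤ J := by
    rw [hJ, ← Nat.add_mul]; exact Nat.mul_le_mul_right _ (by omega)
  have hkv1 : k0 * v + v ≤ (M - 1) * v := by
    have : (k0 + 1) * v ≤ (M - 1) * v := Nat.mul_le_mul_right _ (by omega)
    rw [Nat.add_mul, one_mul] at this
    exact this
  have h1 := block_chain (h := h) (j0 := k0 * v) hp hm (P := P0) hX (by omega) (by
    intro j hj hjP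
    refine nm_bad hp (hcl1 j (by omega)) (by omega) fun k hk hgood => hjP ?_
    rw [hXdef, Finset.mem_filter] at hk
    rw [← hk.2.1]
    unfold gb
    rw [Finset.mem_filter, Finset.mem_range]
    exact ⟨by omega, hgood⟩)
  set N := J - k0 * v with hN
  have hNJ : N ≤ J := Nat.sub_le _ _
  have h2 := strip_chain (h := h) (N := N) (v := v) hp hm (by omega) (G := G0) (X := X) (by
    intro l hl1 hl2 hl3
    refine cm_bad hp hh (by omega) (by omega) (hcl2 l hl1) hNJ fun k hk hgood => hl3 ?_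
    rw [hXdef, Finset.mem_filter] at hk
    rw [← hk.2.2]
    unfold gs
    rw [Finset.mem_filter, Finset.mem_Ico]
    have e : J - N = k0 * v := by omega
    rw [e] at hgood
    exact ⟨⟨hl1, hl2⟩, hgood⟩)
  have hm1 : 1 ≤ 2 * m := by omega
  have h3 : m ^ (k0 * v) * (2 * m) ^ N ≤ (2 * m) ^ (2 * J) := by
    calc m ^ (k0 * v) * (2 * m) ^ N ≤ (2 * m) ^ (k0 * v) * (2 * m) ^ N :=
          Nat.mul_le_mul_right _ (Nat.pow_le_pow_left (by omega) _)
      _ = (2 * m) ^ (k0 * v + N) := (pow_add _ _ _).symm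
      _ ≤ (2 * m) ^ (2 * J) := Nat.pow_le_pow_right hm1 (by omega)
  calc X.card ≤ p ^ (2 * h) * ((p ^ h) ^ (P0.filter (· < k0 * v)).card * m ^ (k0 * v)) *
        nm p X (N * h) := h1
    _ ≤ p ^ (2 * h) * ((p ^ h) ^ (P0.filter (· < k0 * v)).card * m ^ (k0 * v)) *
        (p ^ (v * h) * ((p ^ h) ^ G0.card * (2 * m) ^ N)) := Nat.mul_le_mul_left _ h2
    _ = p ^ ((2 + v) * h) * (p ^ h) ^ ((P0.filter (· < k0 * v)).card + G0.card) *
        (m ^ (k0 * v) * (2 * m) ^ N) := by
        rw [pow_add, Nat.add_mul, pow_add]; ring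
    _ ≤ _ := Nat.mul_le_mul_left _ h3

open Classical in
/-- the exceptional grid points -/
noncomputable def exg (p q : ℕ) (ε η : ℝ) (h v M t : ℕ) : Finset ℕ :=
  (Finset.range (p ^ (M * v * h))).filter fun k => ∃ k0, k0 + 1 < M ∧
    η * v ≤ (bc (gb p q ε h (M * v) ((M - 1) * v) k) v k0).card ∧
    ((gb p q ε h (M * v) ((M - 1) * v) k).filter (· < k0 * v)).card +
      (gs p q ε (gb p q ε h (M * v) ((M - 1) * v) k) h v (M * v) k0 k).card < t

/-- **Number of exceptional grid points.** -/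
theorem exg_card {p q : ℕ} (hp : 2 ≤ p) {ε η : ℝ} {m h v M : ℕ} (hm : 1 ≤ m) (hh : 1 ≤ h)
    (hv : 2 ≤ v)
    (hcl1 : ∀ j < (M - 1) * v, ∀ x : Fin m → T, (∀ i i', p ^ (3 * h) • (x i - x i') = 0) →
      (∀ i i', i ≠ i' → p ^ (2 * h) • (x i - x i') ≠ 0) →
      ∃ i, Good p q ε (box h (rows p q h (M * v) j)) (x i))
    (hcl2 : ∀ P0 : Finset ℕ, ∀ k0, k0 + 1 < M → η * v ≤ (bc P0 v k0).card →
      ∀ l, v ≤ l + 1 → ∀ y : Fin m → T, (∀ i j, i ≠ j →
        Real.exp (-(((l + 1 : ℕ) : ℝ) * (h * Real.log p))) ≤ ‖y i - y j‖ ∧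
          ‖y i - y j‖ ≤ Real.exp (h * Real.log p - ((l + 1 : ℕ) : ℝ) * (h * Real.log p))) →
      ∃ i, Good p q ε (sw p q P0 h v k0 (l + 1)) (y i)) (t : ℕ) :
    (exg p q ε η h v M t).card ≤ M * 2 ^ (M * v) * 2 ^ (M * v) *
      (p ^ ((2 + v) * h) * (p ^ h) ^ t * (2 * m) ^ (2 * (M * v))) := by
  classical
  set J := M * v with hJ
  set I : Finset (ℕ × Finset ℕ × Finset ℕ) := Finset.range M ×ˢ
    ((Finset.range J).powerset ×ˢ (Finset.range J).powerset) with hI
  set B := p ^ ((2 + v) * h) * (p ^ h) ^ t * (2 * m) ^ (2 * J) with hB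
  set F : ℕ × Finset ℕ × Finset ℕ → Finset ℕ := fun w =>
    if w.1 + 1 < M ∧ η * v ≤ (bc w.2.1 v w.1).card ∧
      (w.2.1.filter (· < w.1 * v)).card + w.2.2.card < t then
      (Finset.range (p ^ (J * h))).filter fun k => gb p q ε h J ((M - 1) * v) k = w.2.1 ∧
        gs p q ε w.2.1 h v J w.1 k = w.2.2 else ∅ with hF
  have hsub : exg p q ε η h v M t ⊆ I.biUnion F := by
    intro k hk
    unfold exg at hk
    rw [Finset.mem_filter] at hk
    obtain ⟨hk1, k0, hk0, h1, h2⟩ := hk
    rw [Finset.mem_biUnion]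
    refine ⟨(k0, gb p q ε h J ((M - 1) * v) k,
      gs p q ε (gb p q ε h J ((M - 1) * v) k) h v J k0 k), ?_, ?_⟩
    · rw [hI, Finset.mem_product, Finset.mem_product, Finset.mem_range, Finset.mem_powerset,
        Finset.mem_powerset]
      refine ⟨by simp only; omega, ?_, ?_⟩
      · simp only
        unfold gb
        refine (Finset.filter_subset _ _).trans (Finset.range_subset_range.2 ?_)
        exact Nat.mul_le_mul_right _ (Nat.sub_le _ _)
      · simp only
        unfold gs
        refine (Finset.filter_subset _ _).trans ?_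
        intro l hl
        rw [Finset.mem_Ico] at hl
        rw [Finset.mem_range]
        omega
    · simp only [hF]
      rw [if_pos ⟨hk0, h1, h2⟩, Finset.mem_filter]
      exact ⟨hk1, rfl, rfl⟩
  have hbound : ∀ w ∈ I, (F w).card ≤ B := by
    rintro ⟨k0, P0, G0⟩ _
    simp only [hF]
    split_ifs with hc
    · obtain ⟨h1, h2, h3⟩ := hc
      refine (pattern_count hp hm hh hv h1 hcl1 (hcl2 P0 k0 h1 h2)).trans ?_
      rw [hB]
      refine Nat.mul_le_mul_right _ (Nat.mul_le_mul_left _ ?_)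
      exact Nat.pow_le_pow_right (Nat.one_le_pow _ _ (by omega)) h3.le
    · rw [Finset.card_empty]; exact Nat.zero_le _
  refine (Finset.card_le_card hsub).trans (Finset.card_biUnion_le.trans ?_)
  refine (Finset.sum_le_card_nsmul _ _ B hbound).trans (le_of_eq ?_)
  rw [hI, Finset.card_product, Finset.card_product, Finset.card_powerset, Finset.card_range,
    Finset.card_range, smul_eq_mul]
  ring

end Pool.Agent.Y314.FD
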