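import Pool.Agent.W764.SH.Count

/-!
Uniform upper bound for the visits of an irrational rotation to short intervals.
-/

set_option autoImplicit false

open Filter Topology Set

namespace Pool.Agent.Y314.FD

open Pool.Agent.W764.SH

open Classical in
/-- the times `a < w` for which `a α` lies in `[x, x + δ)` modulo `β` -/
noncomputable def vis (α β : ℝ) (w : ℕ) (x δ : ℝ) : Finset ℕ :=
  (Finset.range w).filter fun a => ∃ b : ℤ, x ≤ a * α + b * β ∧ a * α + b * β < x + δ

lemma vis_shift {α β : ℝ} {w M : ℕ} {x δ s δ1 : ℝ} {u v : ℤ} (h1 : s ≤ u * α + v * β)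
    (h2 : u * α + v * β < s + δ1) (hu : u.natAbs ≤ M) :
    (vis α β w x δ).card ≤ (vis α β w (x + s) (δ + δ1)).card + 2 * M := by
  classical
  have hsub : vis α β w x δ ⊆ (Finset.range M ∪ Finset.Ico (w - M) w) ∪
      (vis α β w (x + s) (δ + δ1)).image fun a : ℕ => ((a : ℤ) - u).toNat := by
    intro a ha
    unfold vis at ha
    rw [Finset.mem_filter, Finset.mem_range] at ha
    obtain ⟨haw, b, hb1, hb2⟩ := ha
    rw [Finset.mem_union, Finset.mem_union, Finset.mem_range, Finset.mem_Ico, Finset.mem_image]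
    by_cases hA : a < M
    · left; left; exact hA
    by_cases hB : w - M ≤ a
    · left; right; exact ⟨hB, haw⟩
    right
    have h3 : (0 : ℤ) ≤ a + u := by omega
    have h4 : (a : ℤ) + u < w := by omega
    refine ⟨((a : ℤ) + u).toNat, ?_, ?_⟩
    · unfold vis
      rw [Finset.mem_filter, Finset.mem_range]
      refine ⟨by omega, b + v, ?_, ?_⟩
      · have e : ((((a : ℤ) + u).toNat : ℕ) : ℝ) = a + u := by
          have : ((((a : ℤ) + u).toNat : ℕ) : ℤ) = a + u := Int.toNat_of_nonneg h3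
          exact_mod_cast this
        rw [e]; push_cast; nlinarith
      · have e : ((((a : ℤ) + u).toNat : ℕ) : ℝ) = a + u := by
          have : ((((a : ℤ) + u).toNat : ℕ) : ℤ) = a + u := Int.toNat_of_nonneg h3
          exact_mod_cast this
        rw [e]; push_cast; nlinarith
    · omega
  refine (Finset.card_le_card hsub).trans ?_
  refine (Finset.card_union_le _ _).trans ?_
  have h3 := Finset.card_union_le (Finset.range M) (Finset.Ico (w - M) w)
  rw [Finset.card_range, Nat.card_Ico] at h3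
  have h4 : ((vis α β w (x + s) (δ + δ1)).image fun a : ℕ => ((a : ℤ) - u).toNat).card ≤
      (vis α β w (x + s) (δ + δ1)).card := Finset.card_image_le
  omega

/-- one orbit point visits few of the translates -/
lemma vis_fibre {β : ℝ} (hβ : 0 < β) {Q : ℕ} (hQ : 1 ≤ Q) (y : ℝ) {D : ℝ} (hD : 0 ≤ D)
    (S : Finset ℕ) (hS : ∀ i ∈ S, i < Q ∧ ∃ b : ℤ, (i : ℝ) * β / Q ≤ y + b * β ∧
      y + b * β < i * β / Q + D) : (S.card : ℝ) ≤ D * Q / β + 1 := by
  classical
  have hQR : (0 : ℝ) < Q := by exact_mod_cast hQ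
  have h1 : ∀ i : ℕ, ∃ b : ℤ, i ∈ S → i < Q ∧ (i : ℝ) * β / Q ≤ y + b * β ∧
      y + b * β < i * β / Q + D := by
    intro i
    by_cases hi : i ∈ S
    · obtain ⟨h, b, hb⟩ := hS i hi
      exact ⟨b, fun _ => ⟨h, hb⟩⟩
    · exact ⟨0, fun h => absurd h hi⟩
  choose b hb using h1
  set Y : ℝ := y * Q / β with hY
  have hsub : S.image (fun i => b i * Q - i) ⊆ Finset.Ico ⌈-Y⌉ ⌈-Y + D * Q / β⌉ := by
    intro j hj
    obtain ⟨i, hi, rfl⟩ := Finset.mem_image.1 hj
    obtain ⟨h2, h3, h4⟩ := hb i hi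
    rw [Finset.mem_Ico, Int.ceil_le, Int.lt_ceil]
    push_cast
    have e : (b i : ℝ) * Q - i = (b i * β - i * β / Q) * (Q / β) := by field_simp
    rw [e, hY]
    have hQβ : 0 < (Q : ℝ) / β := by positivity
    constructor
    · have : -(y * Q / β) = (-y) * (Q / β) := by ring
      rw [this]
      exact mul_le_mul_of_nonneg_right (by linarith) hQβ.le
    · have : -(y * Q / β) + D * Q / β = (-y + D) * (Q / β) := by ring
      rw [this]
      exact mul_lt_mul_of_pos_right (by linarith) hQβ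
  have hinj : Set.InjOn (fun i => b i * Q - i) (S : Set ℕ) := by
    intro i hi j hj hij
    simp only at hij
    have hi' := (hb i hi).1
    have hj' := (hb j hj).1
    have h5 : (i : ℤ) - j = (b i - b j) * Q := by linarith
    have h6 : b i - b j = 0 := by
      by_contra hne
      rcases lt_or_gt_of_ne hne with h7 | h7
      · have : (b i - b j) * Q ≤ -1 * Q := by
          apply mul_le_mul_of_nonneg_right (by omega) (by omega)
        omega
      · have : 1 * (Q : ℤ) ≤ (b i - b j) * Q := by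
          apply mul_le_mul_of_nonneg_right (by omega) (by omega)
        omega
    rw [h6, zero_mul] at h5
    omega
  have h2 : S.card ≤ (⌈-Y + D * Q / β⌉ - ⌈-Y⌉).toNat := by
    rw [← Finset.card_image_of_injOn hinj, ← Int.card_Ico]
    exact Finset.card_le_card hsub
  have h3 : ((⌈-Y + D * Q / β⌉ - ⌈-Y⌉).toNat : ℝ) ≤ D * Q / β + 1 := by
    have h4 : ((⌈-Y + D * Q / β⌉ - ⌈-Y⌉).toNat : ℤ) = max (⌈-Y + D * Q / β⌉ - ⌈-Y⌉) 0 :=
      Int.toNat_eq_max _
    have h5 : ((⌈-Y + D * Q / β⌉ - ⌈-Y⌉).toNat : ℝ) =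
        max ((⌈-Y + D * Q / β⌉ : ℝ) - ⌈-Y⌉) 0 := by exact_mod_cast h4
    rw [h5]
    refine max_le ?_ (by positivity)
    have h6 := Int.ceil_lt_add_one (-Y + D * Q / β)
    have h7 := Int.le_ceil (-Y)
    linarith
  have h4 : (S.card : ℝ) ≤ ((⌈-Y + D * Q / β⌉ - ⌈-Y⌉).toNat : ℝ) := by exact_mod_cast h2
  exact h4.trans h3

lemma vis_sum {α β : ℝ} (hβ : 0 < β) (w : ℕ) {Q : ℕ} (hQ : 1 ≤ Q) (x : ℝ) {D : ℝ} (hD : 0 ≤ D) :
    ∑ i ∈ Finset.range Q, ((vis α β w (x + i * β / Q) D).card : ℝ) ≤ w * (D * Q / β + 1) := by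
  classical
  have h1 : ∑ i ∈ Finset.range Q, ((vis α β w (x + i * β / Q) D).card : ℝ) =
      ∑ a ∈ Finset.range w, (((Finset.range Q).filter fun i : ℕ => ∃ b : ℤ,
        x + (i : ℝ) * β / Q ≤ a * α + b * β ∧ a * α + b * β < x + i * β / Q + D).card : ℝ) := by
    unfold vis
    simp only [Finset.card_filter]
    push_cast
    rw [Finset.sum_comm]
  rw [h1]
  refine (Finset.sum_le_card_nsmul _ _ (D * Q / β + 1) fun a _ => ?_).trans ?_
  · refine vis_fibre hβ hQ (a * α - x) hD _ fun i hi => ?_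
    rw [Finset.mem_filter, Finset.mem_range] at hi
    obtain ⟨h2, b, h3, h4⟩ := hi
    exact ⟨h2, b, by linarith, by linarith⟩
  · rw [Finset.card_range, nsmul_eq_mul]

/-- **Uniform upper bound.** -/
theorem vis_le {α β : ℝ} (hβ : 0 < β) (hirr : Irrational (α / β)) {ε : ℝ} (hε : 0 < ε) :
    ∃ w0 : ℕ, ∀ w : ℕ, w0 ≤ w → ∀ x δ : ℝ, 0 ≤ δ →
      ((vis α β w x δ).card : ℝ) ≤ (δ / β + ε) * w := by
  obtain ⟨M, hM⟩ := transl hβ hirr β (δ := β * (ε / 4)) (by positivity)
  obtain ⟨Q0, hQ0⟩ := exists_nat_ge (4 / ε)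
  set Q : ℕ := Q0 + 1 with hQ
  have hQR : (0 : ℝ) < Q := by rw [hQ]; positivity
  have hQe : 1 / (Q : ℝ) ≤ ε / 4 := by
    rw [div_le_div_iff₀ hQR (by norm_num)]
    rw [div_le_iff₀ hε] at hQ0
    have : (Q : ℝ) = Q0 + 1 := by rw [hQ]; push_cast; ring
    nlinarith
  obtain ⟨w0, hw0⟩ := exists_nat_ge (4 * M / ε)
  refine ⟨w0, fun w hw x δ hδ => ?_⟩
  have hwR : 4 * M / ε ≤ (w : ℝ) := hw0.trans (by exact_mod_cast hw)
  have h1 : ∀ i ∈ Finset.range Q, ((vis α β w x δ).card : ℝ) ≤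
      (vis α β w (x + i * β / Q) (δ + β * (ε / 4))).card + 2 * M := by
    intro i hi
    rw [Finset.mem_range] at hi
    have hiR : (i : ℝ) < Q := by exact_mod_cast hi
    obtain ⟨u, v, h2, h3, h4, -⟩ := hM (i * β / Q) (by
      rw [abs_of_nonneg (by positivity), div_le_iff₀ hQR]
      nlinarith)
    have := vis_shift (w := w) (x := x) (δ := δ) h2 h3 h4
    exact_mod_cast this
  have h2 := Finset.sum_le_sum h1
  rw [Finset.sum_const, Finset.card_range, nsmul_eq_mul, Finset.sum_add_distrib, Finset.sum_const,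
    Finset.card_range, nsmul_eq_mul] at h2
  have h3 := vis_sum (α := α) hβ w (Q := Q) (by omega) x (D := δ + β * (ε / 4)) (by positivity)
  have h4 : (Q : ℝ) * (vis α β w x δ).card ≤ Q * ((δ / β + ε) * w) := by
    have e1 : (w : ℝ) * ((δ + β * (ε / 4)) * Q / β + 1) =
        Q * (w * (δ / β + ε / 4 + 1 / Q)) := by
      field_simp
    have h5 : (2 * M : ℝ) ≤ w * (ε / 2) := by
      rw [div_le_iff₀ hε] at hwR
      linarith
    have h6 : (w : ℝ) * (1 / Q) ≤ w * (ε / 4) := mul_le_mul_of_nonneg_left hQe (Nat.cast_nonneg _)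
    calc (Q : ℝ) * (vis α β w x δ).card ≤ Q * (w * (δ / β + ε / 4 + 1 / Q)) + Q * (2 * M) := by
          rw [← e1]; linarith
      _ = Q * (w * (δ / β + ε / 4 + 1 / Q) + 2 * M) := by ring
      _ ≤ Q * ((δ / β + ε) * w) := by
          apply mul_le_mul_of_nonneg_left _ hQR.le
          linarith
  exact le_of_mul_le_mul_left h4 hQR

end Pool.Agent.Y314.FD
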