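import Pool.Agent.Y314.FD.Base
import Pool.Agent.Y314.FD.Rot

/-!
Thin strips `x ≤ log n < x + L` restricted to a set of columns: cardinalities and near invariance.
-/

set_option autoImplicit false

open Filter Topology Set

namespace Pool.Agent.Y314.FD

open Pool.Agent.W764.FB Pool.Agent.W764.SH Pool.Agent.W764.HL

open Classical in
/-- exponents `(a, b)`, `a ∈ A`, with `x ≤ a α + b β < x + L` -/
noncomputable def slw (α β : ℝ) (A : Finset ℕ) (x L : ℝ) : Finset (ℕ × ℕ) :=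
  (A ×ˢ Finset.range ⌈(x + L) / β⌉₊).filter fun u =>
    x ≤ u.1 * α + u.2 * β ∧ u.1 * α + u.2 * β < x + L

lemma mem_slw {α β : ℝ} (hα : 0 < α) (hβ : 0 < β) {A : Finset ℕ} {x L : ℝ} {u : ℕ × ℕ} :
    u ∈ slw α β A x L ↔ u.1 ∈ A ∧ x ≤ u.1 * α + u.2 * β ∧ u.1 * α + u.2 * β < x + L := by
  unfold slw
  rw [Finset.mem_filter, Finset.mem_product, Finset.mem_range, Nat.lt_ceil, lt_div_iff₀ hβ]
  constructor
  · rintro ⟨⟨h1, -⟩, h2⟩; exact ⟨h1, h2⟩
  · rintro ⟨h1, h2, h3⟩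
    refine ⟨⟨h1, ?_⟩, h2, h3⟩
    have : 0 ≤ (u.1 : ℝ) * α := by positivity
    linarith

/-- the column of a strip -/
lemma col_mem {α β : ℝ} (hβ : 0 < β) {x L : ℝ} {a b : ℕ} :
    b ∈ Finset.Ico ⌈(x - a * α) / β⌉₊ ⌈(x + L - a * α) / β⌉₊ ↔
      x ≤ a * α + b * β ∧ a * α + b * β < x + L := by
  rw [Finset.mem_Ico, Nat.ceil_le, Nat.lt_ceil, div_le_iff₀ hβ, lt_div_iff₀ hβ]
  constructor
  · rintro ⟨h1, h2⟩; constructor <;> linarith
  · rintro ⟨h1, h2⟩; constructor <;> linarith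

lemma card_slw {α β : ℝ} (hα : 0 < α) (hβ : 0 < β) (A : Finset ℕ) (x L : ℝ) :
    (slw α β A x L).card =
      ∑ a ∈ A, (⌈(x + L - a * α) / β⌉₊ - ⌈(x - a * α) / β⌉₊) := by
  classical
  have h1 : slw α β A x L = A.biUnion fun a =>
      ({a} : Finset ℕ) ×ˢ (Finset.Ico ⌈(x - a * α) / β⌉₊ ⌈(x + L - a * α) / β⌉₊) := by
    ext ⟨a, b⟩
    rw [mem_slw hα hβ, Finset.mem_biUnion]
    constructor
    · rintro ⟨h1, h2⟩
      exact ⟨a, h1, Finset.mem_product.2 ⟨Finset.mem_singleton_self a, (col_mem hβ).2 h2⟩⟩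
    · rintro ⟨a', h1, h2⟩
      rw [Finset.mem_product, Finset.mem_singleton] at h2
      obtain ⟨h3, h4⟩ := h2
      simp only at h3 h4
      subst h3
      exact ⟨h1, (col_mem hβ).1 h4⟩
  rw [h1, Finset.card_biUnion]
  · refine Finset.sum_congr rfl fun a _ => ?_
    rw [Finset.card_product, Finset.card_singleton, one_mul, Nat.card_Ico]
  · intro a _ a' _ haa
    rw [Function.onFun, Finset.disjoint_left]
    rintro ⟨u, v⟩ h2 h3
    rw [Finset.mem_product, Finset.mem_singleton] at h2 h3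
    exact haa (h2.1.symm.trans h3.1)

lemma ceil_sub_le {y z : ℝ} (hyz : 0 ≤ z) : ((⌈y + z⌉₊ - ⌈y⌉₊ : ℕ) : ℝ) ≤ z + 1 := by
  rcases le_or_gt ⌈y + z⌉₊ ⌈y⌉₊ with h | h
  · rw [Nat.sub_eq_zero_of_le h, Nat.cast_zero]; linarith
  · rw [Nat.cast_sub h.le]
    have h1 : y ≤ ⌈y⌉₊ := Nat.le_ceil _
    have h0 : 0 < y + z := by
      by_contra hcon
      push Not at hcon
      rw [Nat.ceil_eq_zero.2 hcon] at h
      omega
    have h2 := Nat.ceil_lt_add_one h0.le
    linarith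

lemma le_ceil_sub {y z : ℝ} (hy : 0 ≤ y) : z - 1 ≤ ((⌈y + z⌉₊ - ⌈y⌉₊ : ℕ) : ℝ) := by
  have h1 : y + z ≤ ⌈y + z⌉₊ := Nat.le_ceil _
  have h2 := Nat.ceil_lt_add_one hy
  have h3 : (⌈y + z⌉₊ : ℝ) ≤ ((⌈y + z⌉₊ - ⌈y⌉₊ : ℕ) : ℝ) + ⌈y⌉₊ := by
    have : ⌈y + z⌉₊ ≤ (⌈y + z⌉₊ - ⌈y⌉₊) + ⌈y⌉₊ := by omega
    exact_mod_cast this
  linarith

lemma card_slw_le {α β : ℝ} (hα : 0 < α) (hβ : 0 < β) (A : Finset ℕ) (x : ℝ) {L : ℝ}
    (hL : 0 ≤ L) : ((slw α β A x L).card : ℝ) ≤ A.card * (L / β + 1) := by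
  rw [card_slw hα hβ]
  push_cast
  refine (Finset.sum_le_card_nsmul _ _ (L / β + 1) fun a _ => ?_).trans (by rw [nsmul_eq_mul])
  have e : (x + L - a * α) / β = (x - a * α) / β + L / β := by ring
  rw [e]
  exact ceil_sub_le (by positivity)

lemma le_card_slw {α β : ℝ} (hα : 0 < α) (hβ : 0 < β) {A : Finset ℕ} {x : ℝ} (L : ℝ)
    (hA : ∀ a ∈ A, (a : ℝ) * α ≤ x) : A.card * (L / β - 1) ≤ ((slw α β A x L).card : ℝ) := by
  rw [card_slw hα hβ]
  push_cast
  have h1 : ∑ a ∈ A, (L / β - 1) ≤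
      ∑ a ∈ A, ((⌈(x + L - a * α) / β⌉₊ - ⌈(x - a * α) / β⌉₊ : ℕ) : ℝ) := by
    refine Finset.sum_le_sum fun a ha => ?_
    have e : (x + L - a * α) / β = (x - a * α) / β + L / β := by ring
    rw [e]
    exact le_ceil_sub (div_nonneg (by linarith [hA a ha]) hβ.le)
  rw [Finset.sum_const, nsmul_eq_mul] at h1
  exact h1

/-- leaving the strip by the first generator -/
lemma slw_inv1 {α β : ℝ} (hα : 0 < α) (hβ : 0 < β) (A : Finset ℕ) (x : ℝ) {L : ℝ} (hL : 0 ≤ L) :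
    (((slw α β A x L).filter fun u => u + (1, 0) ∉ slw α β A x L).card : ℝ) ≤
      (A.filter fun a => a + 1 ∉ A).card * (L / β + 1) + A.card * (α / β + 1) := by
  classical
  have hsub : ((slw α β A x L).filter fun u => u + (1, 0) ∉ slw α β A x L) ⊆
      slw α β (A.filter fun a => a + 1 ∉ A) x L ∪ slw α β A (x + L - α) α := by
    rintro ⟨a, b⟩ hu
    rw [Finset.mem_filter] at hu
    obtain ⟨h1, h2⟩ := hu
    rw [mem_slw hα hβ] at h1 h2
    simp only [Prod.mk_add_mk, add_zero, not_and, not_lt] at h1 h2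
    obtain ⟨h3, h4, h5⟩ := h1
    rw [Finset.mem_union, mem_slw hα hβ, mem_slw hα hβ]
    by_cases hA : a + 1 ∈ A
    · right
      refine ⟨h3, ?_, by linarith⟩
      have h6 := h2 hA (by push_cast; nlinarith)
      push_cast at h6
      show x + L - α ≤ a * α + b * β
      linarith
    · left
      exact ⟨Finset.mem_filter.2 ⟨h3, hA⟩, h4, h5⟩
  have h1 := (Finset.card_le_card hsub).trans (Finset.card_union_le _ _)
  have h2 : (((slw α β A x L).filter fun u => u + (1, 0) ∉ slw α β A x L).card : ℝ) ≤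
      (slw α β (A.filter fun a => a + 1 ∉ A) x L).card + (slw α β A (x + L - α) α).card := by
    exact_mod_cast h1
  refine h2.trans (add_le_add (card_slw_le hα hβ _ _ hL) (card_slw_le hα hβ _ _ hα.le))

/-- leaving the strip by the second generator -/
lemma slw_inv2 {α β : ℝ} (hα : 0 < α) (hβ : 0 < β) (A : Finset ℕ) (x L : ℝ) :
    (((slw α β A x L).filter fun u => u + (0, 1) ∉ slw α β A x L).card : ℝ) ≤
      A.card * 2 := by
  classical
  have hsub : ((slw α β A x L).filter fun u => u + (0, 1) ∉ slw α β A x L) ⊆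
      slw α β A (x + L - β) β := by
    rintro ⟨a, b⟩ hu
    rw [Finset.mem_filter] at hu
    obtain ⟨h1, h2⟩ := hu
    rw [mem_slw hα hβ] at h1 h2
    simp only [Prod.mk_add_mk, add_zero, not_and, not_lt] at h1 h2
    obtain ⟨h3, h4, h5⟩ := h1
    rw [mem_slw hα hβ]
    refine ⟨h3, ?_, by linarith⟩
    have h6 := h2 h3 (by push_cast; nlinarith)
    push_cast at h6
    show x + L - β ≤ a * α + b * β
    linarith
  have h2 : (((slw α β A x L).filter fun u => u + (0, 1) ∉ slw α β A x L).card : ℝ) ≤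
      (slw α β A (x + L - β) β).card := by exact_mod_cast Finset.card_le_card hsub
  refine h2.trans ((card_slw_le hα hβ _ _ hβ.le).trans ?_)
  rw [div_self hβ.ne']
  norm_num

/-- a very thin strip has at most one point in each column -/
lemma thin_card {α β : ℝ} (hα : 0 < α) (hβ : 0 < β) {A : Finset ℕ} {w : ℕ}
    (hA : A ⊆ Finset.range w) (x : ℝ) {δ : ℝ} (hδ : δ ≤ β) :
    (slw α β A x δ).card ≤ (vis α β w x δ).card := by
  classical
  refine Finset.card_le_card_of_injOn (fun u => u.1) ?_ ?_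
  · rintro ⟨a, b⟩ hu
    rw [Finset.mem_coe, mem_slw hα hβ] at hu
    rw [Finset.mem_coe]
    unfold vis
    rw [Finset.mem_filter]
    exact ⟨hA hu.1, b, by exact_mod_cast hu.2.1, by exact_mod_cast hu.2.2⟩
  · rintro ⟨a, b⟩ hu ⟨a', b'⟩ hu' haa
    rw [Finset.mem_coe, mem_slw hα hβ] at hu hu'
    simp only at haa hu hu'
    subst haa
    obtain ⟨-, h1, h2⟩ := hu
    obtain ⟨-, h3, h4⟩ := hu'
    have h5 : b = b' := by
      rcases lt_trichotomy b b' with h | h | h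
      · exfalso
        have : (b : ℝ) + 1 ≤ b' := by exact_mod_cast h
        nlinarith
      · exact h
      · exfalso
        have : (b' : ℝ) + 1 ≤ b := by exact_mod_cast h
        nlinarith
    rw [h5]

lemma mul_log {p q : ℕ} (hp : 2 ≤ p) (hq : 2 ≤ q) (u : ℕ × ℕ) :
    Real.log (mul p q u) = u.1 * Real.log p + u.2 * Real.log q := log_pow_mul hp hq u.1 u.2

lemma mul_pos' {p q : ℕ} (hp : 2 ≤ p) (hq : 2 ≤ q) (u : ℕ × ℕ) : (0 : ℝ) < mul p q u := by
  unfold mul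
  have : 0 < p ^ u.1 * q ^ u.2 := by positivity
  exact_mod_cast this

end Pool.Agent.Y314.FD
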